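import Pool.Agent.P.MP_0ad054_nt.Clu.Defs

/-! The model has the same sums in arithmetic progressions. -/

namespace Pool.Agent.P.MP_0ad054_nt.Clu

open Finset Pool.Agent.Lib.H9 Pool.Agent.P.MP_0ad054_nt.Sun Pool.Agent.P.MP_0ad054_nt.Sun.SphereP

namespace APP

/-- indicator of divisibility -/
noncomputable def ind (m : ℕ) (d : ℤ) : ℝ := if (m : ℤ) ∣ d then 1 else 0

theorem ind_nonneg (m : ℕ) (d : ℤ) : 0 ≤ ind m d := by unfold ind; split_ifs <;> norm_num

theorem ind_le (m : ℕ) (d : ℤ) : ind m d ≤ 1 := by unfold ind; split_ifs <;> norm_num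

theorem ind_one (d : ℤ) : ind 1 d = 1 := by simp [ind]

theorem ind_congr {m : ℕ} {d d' : ℤ} (h : (m : ℤ) ∣ d - d') : ind m d = ind m d' := by
  unfold ind
  have : (m : ℤ) ∣ d ↔ (m : ℤ) ∣ d' := by
    constructor
    · intro h1; simpa using dvd_sub h1 h
    · intro h1; simpa using dvd_add h h1
  simp only [this]

theorem ph_eq (m : ℕ) (d : ℤ) : ph m d = m * ind m d - 1 := by
  unfold ph ind; split_ifs <;> simp

theorem abs_ph_le {m : ℕ} (hm : 1 ≤ m) (d : ℤ) : |ph m d| ≤ m := by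
  have : (1 : ℝ) ≤ m := by exact_mod_cast hm
  unfold ph
  split_ifs
  · rw [abs_le]; constructor <;> linarith
  · rw [abs_le]; constructor <;> linarith

theorem sum_ind (c d : ℕ) (hd : 0 < d) (r : ℤ) :
    ∑ x ∈ Ico (0 : ℤ) ((d : ℤ) * c), ind d (x - r) = c := by
  have hd' : (0 : ℤ) < d := by exact_mod_cast hd
  have h1 := Int.Ico_filter_modEq_card (0 : ℤ) ((d : ℤ) * c) hd' r
  have h2 : ((((d : ℤ) * c : ℤ) : ℚ) - r) / ((d : ℤ) : ℚ) = (((0 : ℤ) : ℚ) - r) / ((d : ℤ) : ℚ) + (c : ℤ) := by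
    have : ((d : ℤ) : ℚ) ≠ 0 := by exact_mod_cast hd.ne'
    push_cast at this ⊢
    field_simp
    ring
  rw [h2, Int.ceil_add_intCast, add_sub_cancel_left, max_eq_left (by positivity)] at h1
  have h3 : ((Ico (0 : ℤ) ((d : ℤ) * c)).filter (fun x => x ≡ r [ZMOD d])).card = c := by
    exact_mod_cast h1
  unfold ind
  rw [sum_boole]
  have h4 : (Ico (0 : ℤ) ((d : ℤ) * c)).filter (fun x => (d : ℤ) ∣ x - r) =
      (Ico (0 : ℤ) ((d : ℤ) * c)).filter (fun x => x ≡ r [ZMOD d]) := by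
    refine filter_congr fun x _ => ?_
    rw [Int.modEq_iff_dvd, ← dvd_neg, neg_sub]
  rw [h4, h3]

theorem sum_ind_pow {p e v : ℕ} (hp : 0 < p) (hv : v ≤ e) (b : ℤ) :
    ∑ d ∈ Ico (0 : ℤ) ((p : ℤ) ^ e), ind (p ^ v) (d - b) = (p : ℝ) ^ e / (p : ℝ) ^ v := by
  obtain ⟨u, rfl⟩ := Nat.exists_eq_add_of_le hv
  have h := sum_ind (p ^ u) (p ^ v) (by positivity) b
  push_cast at h
  rw [pow_add, h, pow_add]
  have : (0 : ℝ) < p := by exact_mod_cast hp
  field_simp

theorem mean_not {p e v : ℕ} (hp : 0 < p) (hv : v ≤ e) (b : ℤ) :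
    (∑ d ∈ Ico (0 : ℤ) ((p : ℤ) ^ e), ind (p ^ v) (d - b)) / (p : ℝ) ^ e = 1 / (p : ℝ) ^ v := by
  have : (0 : ℝ) < p := by exact_mod_cast hp
  rw [sum_ind_pow hp hv]
  field_simp

theorem mean_in {p e v : ℕ} (hp : 0 < p) (hv : v ≤ e) (t b : ℤ) :
    (∑ d ∈ Ico (0 : ℤ) ((p : ℤ) ^ e), ph (p ^ e) (d - t) * ind (p ^ v) (d - b)) / (p : ℝ) ^ e =
      ind (p ^ v) (t - b) - 1 / (p : ℝ) ^ v := by
  have hp' : (0 : ℝ) < p := by exact_mod_cast hp
  have h1 : ∀ d : ℤ, ph (p ^ e) (d - t) * ind (p ^ v) (d - b) =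
      (p : ℝ) ^ e * ind (p ^ v) (t - b) * ind (p ^ e) (d - t) - ind (p ^ v) (d - b) := by
    intro d
    rw [ph_eq]
    by_cases h : ((p ^ e : ℕ) : ℤ) ∣ d - t
    · have h2 : ind (p ^ v) (d - b) = ind (p ^ v) (t - b) := by
        refine ind_congr (dvd_trans ?_ (by simpa using h))
        exact_mod_cast pow_dvd_pow p hv
      rw [h2]; push_cast; ring
    · have h2 : ind (p ^ e) (d - t) = 0 := by unfold ind; rw [if_neg h]
      rw [h2]; ring
  simp_rw [h1]
  rw [sum_sub_distrib, ← mul_sum, sum_ind_pow hp hv, sum_ind_pow hp le_rfl]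
  field_simp

theorem prod_ind {q : ℕ} (hq : q ≠ 0) (x : ℤ) :
    ∏ p ∈ q.primeFactors, ind (p ^ q.factorization p) x = ind q x := by
  by_cases h : (q : ℤ) ∣ x
  · have : ind q x = 1 := by unfold ind; rw [if_pos h]
    rw [this]
    refine prod_eq_one fun p _ => ?_
    unfold ind
    rw [if_pos]
    exact dvd_trans (by exact_mod_cast Nat.ordProj_dvd q p) h
  · have : ind q x = 0 := by unfold ind; rw [if_neg h]
    rw [this]
    by_contra h0
    apply h
    rw [Int.natCast_dvd, Nat.dvd_iff_prime_pow_dvd_dvd]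
    intro p k hp hk
    rcases Nat.eq_zero_or_pos k with rfl | hk0
    · simp
    have h1 : p ∈ q.primeFactors :=
      Nat.mem_primeFactors.2 ⟨hp, dvd_trans (dvd_pow_self p hk0.ne') hk, hq⟩
    have h2 : ind (p ^ q.factorization p) x ≠ 0 := fun h3 => h0 (prod_eq_zero h1 h3)
    have h3 : ((p ^ q.factorization p : ℕ) : ℤ) ∣ x := by
      by_contra h4
      apply h2; unfold ind; rw [if_neg h4]
    rw [Int.natCast_dvd] at h3
    exact dvd_trans (pow_dvd_pow p ((hp.pow_dvd_iff_le_factorization hq).1 hk)) h3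

/-- the product of the local means -/
noncomputable def mu (q : ℕ) (x : ℤ) (T : Finset ℕ) : ℝ :=
  ∏ p ∈ T ∪ q.primeFactors, (if p ∈ T then ind (p ^ q.factorization p) x -
    1 / (p : ℝ) ^ q.factorization p else 1 / (p : ℝ) ^ q.factorization p)

theorem fac_le {q e : ℕ} (hq : 1 ≤ q) (h : q ≤ 2 ^ e) {p : ℕ} (hp : p.Prime) :
    q.factorization p ≤ e := by
  have h1 : p ^ q.factorization p ≤ q := Nat.ordProj_le p (by omega)
  have h2 : 2 ^ q.factorization p ≤ p ^ q.factorization p := Nat.pow_le_pow_left hp.two_le _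
  exact (Nat.pow_le_pow_iff_right (by norm_num)).1 (h2.trans (h1.trans h))

theorem rad_le {q : ℕ} (hq : 1 ≤ q) : ∏ p ∈ q.primeFactors, p ≤ q :=
  Nat.le_of_dvd hq (Nat.prod_primeFactors_dvd q)

theorem card_pf_le {q e : ℕ} (hq : 1 ≤ q) (h : q ≤ 2 ^ e) : q.primeFactors.card ≤ e := by
  have h1 : 2 ^ q.primeFactors.card ≤ ∏ p ∈ q.primeFactors, p :=
    pow_card_le_prod _ _ _ fun p hp => (Nat.prime_of_mem_primeFactors hp).two_le
  exact (Nat.pow_le_pow_iff_right (by norm_num)).1 (h1.trans ((rad_le hq).trans h))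

theorem mem_sub {y k : ℕ} {T : Finset ℕ} :
    T ∈ sub y k ↔ (∀ p ∈ T, p ≤ y ∧ p.Prime) ∧ T.card ≤ k := by
  unfold sub
  rw [mem_filter, mem_powerset]
  refine and_congr_left fun _ => ⟨fun h p hp => Nat.mem_primesLE.1 (h hp), fun h p hp => ?_⟩
  exact Nat.mem_primesLE.2 (h p hp)

theorem sum_mu {y e k q : ℕ} (hq : 1 ≤ q) (hqy : q ≤ y) (hy : y ≤ 2 ^ e) (hek : e ≤ k) (x : ℤ) :
    ∑ T ∈ sub y k, mu q x T = ind q x := by
  have h1 : q.primeFactors.powerset ⊆ sub y k := by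
    intro T hT
    rw [mem_powerset] at hT
    refine mem_sub.2 ⟨fun p hp => ⟨(Nat.le_of_mem_primeFactors (hT hp)).trans hqy,
      Nat.prime_of_mem_primeFactors (hT hp)⟩, ?_⟩
    exact (card_le_card hT).trans ((card_pf_le hq (hqy.trans hy)).trans hek)
  rw [← sum_subset h1]
  · rw [← prod_ind (by omega) x]
    have h2 : ∀ p ∈ q.primeFactors, ind (p ^ q.factorization p) x =
        (ind (p ^ q.factorization p) x - 1 / (p : ℝ) ^ q.factorization p) +
          1 / (p : ℝ) ^ q.factorization p := fun p _ => by ring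
    rw [prod_congr rfl h2, prod_add]
    refine sum_congr rfl fun T hT => ?_
    rw [mem_powerset] at hT
    unfold mu
    rw [union_eq_right.2 hT, prod_ite, filter_mem_eq_inter, ← sdiff_eq_filter,
      inter_eq_right.2 hT]
  · intro T _ hT
    rw [mem_powerset, not_subset] at hT
    obtain ⟨p, hp, hp'⟩ := hT
    refine prod_eq_zero (mem_union_left _ hp) ?_
    have : q.factorization p = 0 := by
      rw [← Finsupp.notMem_support_iff, Nat.support_factorization]; exact hp'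
    rw [if_pos hp, this]
    simp [ind_one]

theorem one_T (h1 : S_Per) {y e k q : ℕ} (he : 1 ≤ e) (hq : 1 ≤ q) (hqy : q ≤ y) (hy : y ≤ 2 ^ e)
    (hek : e ≤ k) {T : Finset ℕ} (hT : T ∈ sub y k) (a c t b : ℤ) :
    |∑ d ∈ Ico a c, ind q (d - b) * ∏ p ∈ T, ph (p ^ e) (d - t) -
      ((Ico a c).card : ℝ) * mu q (t - b) T| ≤ 2 * ((y : ℝ) ^ (e * k)) ^ 3 := by
  obtain ⟨hT1, hT2⟩ := mem_sub.1 hT
  have hpr : ∀ p ∈ T ∪ q.primeFactors, p.Prime := by
    intro p hp
    rcases mem_union.1 hp with h | h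
    · exact (hT1 p h).2
    · exact Nat.prime_of_mem_primeFactors h
  have h := h1 (T ∪ q.primeFactors) e
    (fun p d => (if p ∈ T then ph (p ^ e) (d - t) else 1) * ind (p ^ q.factorization p) (d - b))
    (fun p => if p ∈ T then (p : ℝ) ^ e else 1) a c hpr ?_ ?_
  · have e1 : ∀ d : ℤ, ∏ p ∈ T ∪ q.primeFactors, (if p ∈ T then ph (p ^ e) (d - t) else 1) *
        ind (p ^ q.factorization p) (d - b) = ind q (d - b) * ∏ p ∈ T, ph (p ^ e) (d - t) := by
      intro d
      rw [prod_mul_distrib, prod_ite_mem, union_inter_cancel_left, mul_comm,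
        ← prod_ind (by omega : q ≠ 0) (d - b)]
      congr 1
      refine (prod_subset subset_union_right fun p _ hp => ?_).symm
      have : q.factorization p = 0 := by
        rw [← Finsupp.notMem_support_iff, Nat.support_factorization]; exact hp
      rw [this, pow_zero, ind_one]
    have e2 : ∏ p ∈ T ∪ q.primeFactors, ((∑ d ∈ Ico (0 : ℤ) ((p : ℤ) ^ e),
        (if p ∈ T then ph (p ^ e) (d - t) else 1) * ind (p ^ q.factorization p) (d - b)) /
          (p : ℝ) ^ e) = mu q (t - b) T := by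
      refine prod_congr rfl fun p hp => ?_
      have hv := fac_le hq (hqy.trans hy) (hpr p hp)
      split_ifs
      · exact mean_in (hpr p hp).pos hv t b
      · simp only [one_mul]; exact mean_not (hpr p hp).pos hv b
    simp only [e1, e2] at h
    refine h.trans ?_
    have hy1 : (1 : ℝ) ≤ y := by exact_mod_cast hq.trans hqy
    have b1 : ∏ p ∈ T, (p : ℝ) ^ e ≤ (y : ℝ) ^ (e * k) := by
      calc ∏ p ∈ T, (p : ℝ) ^ e ≤ ∏ _p ∈ T, (y : ℝ) ^ e := by
            refine prod_le_prod (fun p _ => by positivity) fun p hp => ?_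
            have : (p : ℝ) ≤ y := by exact_mod_cast (hT1 p hp).1
            gcongr
        _ = (y : ℝ) ^ (e * T.card) := by rw [prod_const, ← pow_mul]
        _ ≤ _ := pow_le_pow_right₀ hy1 (Nat.mul_le_mul_left _ hT2)
    have b2 : ∏ p ∈ q.primeFactors \ T, (p : ℝ) ^ e ≤ (y : ℝ) ^ (e * k) := by
      have c1 : ∏ p ∈ q.primeFactors \ T, p ≤ y := by
        refine le_trans (prod_le_prod_of_subset_of_one_le' sdiff_subset fun p hp _ => ?_)
          ((rad_le hq).trans hqy)
        exact (Nat.prime_of_mem_primeFactors hp).one_le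
      have c2 : ∏ p ∈ q.primeFactors \ T, (p : ℝ) ≤ y := by
        rw [← Nat.cast_prod]; exact_mod_cast c1
      calc ∏ p ∈ q.primeFactors \ T, (p : ℝ) ^ e = (∏ p ∈ q.primeFactors \ T, (p : ℝ)) ^ e :=
            prod_pow _ _ _
        _ ≤ (y : ℝ) ^ e := by gcongr
        _ ≤ _ := pow_le_pow_right₀ hy1 (Nat.le_mul_of_pos_right _ (by omega))
    rw [prod_ite_mem, union_inter_cancel_left, ← union_sdiff_self_eq_union,
      prod_union disjoint_sdiff]
    have p1 : 0 ≤ ∏ p ∈ T, (p : ℝ) ^ e := by positivity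
    have p2 : 0 ≤ ∏ p ∈ q.primeFactors \ T, (p : ℝ) ^ e := by positivity
    calc _ ≤ 2 * ((y : ℝ) ^ (e * k) * (y : ℝ) ^ (e * k)) * (y : ℝ) ^ (e * k) := by gcongr
      _ = _ := by ring
  · intro p hp d d' hd
    have hv := fac_le hq (hqy.trans hy) (hpr p hp)
    have c1 : ind (p ^ e) (d - t) = ind (p ^ e) (d' - t) := ind_congr (by simpa using hd)
    have c2 : ind (p ^ q.factorization p) (d - b) = ind (p ^ q.factorization p) (d' - b) := by
      refine ind_congr (dvd_trans ?_ (by simpa using hd))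
      exact_mod_cast pow_dvd_pow p hv
    simp only [ph_eq, c1, c2]
  · intro p hp d
    rw [abs_mul, abs_of_nonneg (ind_nonneg _ _)]
    refine le_trans (mul_le_of_le_one_right (abs_nonneg _) (ind_le _ _)) ?_
    split_ifs
    · have := abs_ph_le (Nat.one_le_pow e p (hpr p hp).pos) (d - t)
      exact_mod_cast this
    · simp

theorem one_I (h1 : S_Per) (h2 : S_Om) {y e k q : ℕ} (he : 1 ≤ e) (hq : 1 ≤ q) (hqy : q ≤ y)
    (hy : y ≤ 2 ^ e) (hek : e ≤ k) (a c t b : ℤ) :
    |∑ d ∈ Ico a c, ind q (d - b) * KK y e k (d - t) - ((Ico a c).card : ℝ) * ind q (t - b)| ≤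
      2 * ((y : ℝ) ^ (e * k)) ^ 4 := by
  rw [← sum_mu hq hqy hy hek (t - b)]
  unfold KK
  simp_rw [mul_sum]
  rw [sum_comm, ← sum_sub_distrib]
  refine (abs_sum_le_sum_abs _ _).trans ?_
  refine (sum_le_card_nsmul _ _ _ fun T hT => one_T h1 he hq hqy hy hek hT a c t b).trans ?_
  have hy1 : (1 : ℝ) ≤ y := by exact_mod_cast hq.trans hqy
  have c1 : ((sub y k).card : ℝ) ≤ (y : ℝ) ^ (e * k) := by
    have : ((sub y k).card : ℝ) ≤ (y : ℝ) ^ k := by exact_mod_cast h2.2.2.2.1 y k (hq.trans hqy)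
    exact this.trans (pow_le_pow_right₀ hy1 (Nat.le_mul_of_pos_left _ he))
  rw [nsmul_eq_mul]
  calc _ ≤ (y : ℝ) ^ (e * k) * (2 * ((y : ℝ) ^ (e * k)) ^ 3) := by gcongr
    _ = _ := by ring

/-- the window -/
noncomputable def JJ (X r : ℕ) (t : ℤ) (j : ℕ) : Finset ℤ :=
  Ico (max 3 (t - j)) (min ((X : ℤ) + 1) (t - j + r))

theorem swap (X r : ℕ) (t : ℤ) (G : ℤ → ℝ) :
    ∑ m ∈ Icc 3 X, om r ((m : ℤ) - t) * G m =
      (∑ j ∈ range r, ∑ d ∈ JJ X r t j, G d) / (r : ℝ) ^ 2 := by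
  have h1 : ∀ d : ℤ, om r d =
      (∑ j ∈ range r, if 0 ≤ d + j ∧ d + j < r then (1 : ℝ) else 0) / (r : ℝ) ^ 2 := by
    intro d
    unfold om
    rw [sum_comm]
    congr 1
    refine sum_congr rfl fun j _ => ?_
    split_ifs with h
    · rw [sum_eq_single (d + j).toNat]
      · rw [if_pos]; omega
      · intro i _ hi
        rw [if_neg]; omega
      · intro h0
        exact absurd (mem_range.2 (by omega)) h0
    · refine sum_eq_zero fun i hi => ?_
      rw [mem_range] at hi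
      rw [if_neg]; omega
  simp_rw [h1, div_mul_eq_mul_div, ← sum_div, sum_mul]
  rw [sum_comm]
  congr 1
  refine sum_congr rfl fun j _ => ?_
  simp_rw [ite_mul, one_mul, zero_mul]
  rw [← sum_filter]
  refine sum_nbij' (fun m => (m : ℤ)) (fun d => d.toNat) ?_ ?_ ?_ ?_ ?_
  · intro m hm
    simp only [JJ, mem_filter, mem_Icc, mem_Ico] at hm ⊢
    omega
  · intro d hd
    simp only [JJ, mem_filter, mem_Icc, mem_Ico] at hd ⊢
    omega
  · intro m _; simp
  · intro d hd
    simp only [JJ, mem_Ico] at hd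
    omega
  · intro m _; rfl

theorem weight (X r t : ℕ) (hr : 1 ≤ r) :
    |(if t ∈ Icc 3 X then (1 : ℝ) else 0) - (∑ j ∈ range r, ((JJ X r t j).card : ℝ)) / (r : ℝ) ^ 2| ≤
      if t ∈ range (r + 3) ∪ Ico (X + 1 - r) (X + r) then 1 else 0 := by
  have hr' : (0 : ℝ) < r := by exact_mod_cast hr
  by_cases hb : t ∈ range (r + 3) ∪ Ico (X + 1 - r) (X + r)
  · rw [if_pos hb]
    have c1 : ∑ j ∈ range r, ((JJ X r t j).card : ℝ) ≤ (r : ℝ) ^ 2 := by
      refine (sum_le_card_nsmul _ _ (r : ℝ) fun j _ => ?_).trans (by simp [sq])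
      have : (JJ X r t j).card ≤ r := by
        unfold JJ; rw [Int.card_Ico]; omega
      exact_mod_cast this
    have c2 : (∑ j ∈ range r, ((JJ X r t j).card : ℝ)) / (r : ℝ) ^ 2 ≤ 1 :=
      (div_le_one (by positivity)).2 c1
    have c3 : 0 ≤ (∑ j ∈ range r, ((JJ X r t j).card : ℝ)) / (r : ℝ) ^ 2 := by positivity
    rw [abs_le]
    split_ifs <;> constructor <;> linarith
  · rw [if_neg hb]
    simp only [mem_union, mem_range, mem_Ico, not_or] at hb
    by_cases ht : t ∈ Icc 3 X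
    · rw [if_pos ht]
      rw [mem_Icc] at ht
      have c1 : ∀ j ∈ range r, ((JJ X r t j).card : ℝ) = r := by
        intro j hj
        rw [mem_range] at hj
        have : (JJ X r t j).card = r := by
          unfold JJ; rw [Int.card_Ico]; omega
        exact_mod_cast this
      rw [sum_congr rfl c1, sum_const, card_range, nsmul_eq_mul, ← sq, div_self (by positivity)]
      simp
    · rw [if_neg ht]
      rw [mem_Icc] at ht
      have c1 : ∀ j ∈ range r, ((JJ X r t j).card : ℝ) = 0 := by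
        intro j hj
        rw [mem_range] at hj
        have : (JJ X r t j).card = 0 := by
          unfold JJ; rw [Int.card_Ico]; omega
        exact_mod_cast this
      rw [sum_eq_zero c1]
      simp

end APP

open APP in
theorem pAP (h1 : S_Per) (h2 : S_Om) : S_AP := by
  intro y e k r q X S b hr he hq hqy hy hek
  have hr' : (0 : ℝ) < r := by exact_mod_cast hr
  set Q : ℝ := 2 * ((y : ℝ) ^ (e * k)) ^ 4 with hQ
  have e1 : ∑ m ∈ (Icc 3 X).filter (fun m : ℕ => (q : ℤ) ∣ m - b),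
      ((if m ∈ S then (1 : ℝ) else 0) - gS y e k r S m) =
      ∑ t ∈ S, ((if t ∈ Icc 3 X then (1 : ℝ) else 0) * ind q (t - b) -
        (∑ j ∈ range r, ∑ d ∈ JJ X r t j, ind q (d - b) * KK y e k (d - t)) / (r : ℝ) ^ 2) := by
    rw [sum_sub_distrib, sum_sub_distrib]
    congr 1
    · rw [sum_filter]
      simp_rw [ite_mul, one_mul, zero_mul]
      rw [sum_ite_mem, inter_comm, ← sum_ite_mem]
      refine sum_congr rfl fun m _ => ?_
      unfold ind
      split_ifs <;> rfl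
    · simp_rw [← swap]
      rw [sum_comm, sum_filter]
      refine sum_congr rfl fun m _ => ?_
      unfold gS ind
      split_ifs
      · simp
      · simp
  rw [e1]
  have e2 : ∀ t ∈ S, |(if t ∈ Icc 3 X then (1 : ℝ) else 0) * ind q (t - b) -
      (∑ j ∈ range r, ∑ d ∈ JJ X r t j, ind q (d - b) * KK y e k (d - t)) / (r : ℝ) ^ 2| ≤
      (if t ∈ range (r + 3) ∪ Ico (X + 1 - r) (X + r) then 1 else 0) + Q / r := by
    intro t _
    have c1 := weight X r t hr
    have c2 : |∑ j ∈ range r, (∑ d ∈ JJ X r t j, ind q (d - b) * KK y e k (d - t) -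
        ((JJ X r t j).card : ℝ) * ind q (t - b))| ≤ r * Q := by
      refine (abs_sum_le_sum_abs _ _).trans ((sum_le_card_nsmul _ _ Q fun j _ => ?_).trans (by simp))
      exact one_I h1 h2 he hq hqy hy hek _ _ t b
    rw [sum_sub_distrib, ← sum_mul] at c2
    set A := ∑ j ∈ range r, ∑ d ∈ JJ X r t j, ind q (d - b) * KK y e k (d - t)
    set w := ∑ j ∈ range r, ((JJ X r t j).card : ℝ)
    set u := if t ∈ Icc 3 X then (1 : ℝ) else 0
    have c3 : u * ind q (t - b) - A / (r : ℝ) ^ 2 =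
        (u - w / (r : ℝ) ^ 2) * ind q (t - b) - (A - w * ind q (t - b)) / (r : ℝ) ^ 2 := by ring
    rw [c3]
    refine (abs_sub _ _).trans (add_le_add ?_ ?_)
    · rw [abs_mul, abs_of_nonneg (ind_nonneg _ _)]
      exact (mul_le_of_le_one_right (abs_nonneg _) (ind_le _ _)).trans c1
    · rw [abs_div, abs_of_pos (by positivity : (0 : ℝ) < (r : ℝ) ^ 2), div_le_div_iff₀ (by positivity) hr']
      nlinarith
  refine (abs_sum_le_sum_abs _ _).trans ((sum_le_sum e2).trans ?_)
  rw [sum_add_distrib, sum_const, nsmul_eq_mul, ← mul_div_assoc, sum_ite_mem, sum_const, nsmul_eq_mul,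
    mul_one]
  have c1 : (S ∩ (range (r + 3) ∪ Ico (X + 1 - r) (X + r))).card ≤ 4 * r + 4 := by
    refine (card_le_card inter_subset_right).trans ((card_union_le _ _).trans ?_)
    rw [card_range, Nat.card_Ico]; omega
  have c2 : ((S ∩ (range (r + 3) ∪ Ico (X + 1 - r) (X + r))).card : ℝ) ≤ 4 * r + 4 := by
    exact_mod_cast c1
  linarith

end Pool.Agent.P.MP_0ad054_nt.Clu
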