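import Pool.Agent.P.MP_0ad054_nt.Clu.Defs
import Pool.Agent.P.MP_0ad054_nt.Sun.SphereB

/-! The local densities at large primes. -/

namespace Pool.Agent.P.MP_0ad054_nt.Clu

open Finset Pool.Agent.Lib.H9 Pool.Agent.P.MP_0ad054_nt.Sun Pool.Agent.P.MP_0ad054_nt.Sun.SphereP

namespace BigP

/-- reduction modulo `p` -/
def rd (p : ℕ) (v : Fin 4 → ℤ) : Fin 4 → ℤ := fun j => v j % p

theorem dvd_rd (p : ℕ) (v : Fin 4 → ℤ) (i : Fin 4) : (p : ℤ) ∣ v i - rd p v i :=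
  Int.dvd_self_sub_emod

theorem rd_eq_iff {p : ℕ} (hp : p ≠ 0) {v v0 : Fin 4 → ℤ} (h0 : v0 ∈ res p) :
    rd p v = v0 ↔ ∀ i, (p : ℤ) ∣ v i - v0 i := by
  constructor
  · rintro rfl; exact dvd_rd p v
  · intro h
    refine eq_of_mem_res (emod_mem_res hp v) h0 fun j => ?_
    have := dvd_sub (h j) (dvd_rd p v j)
    simpa [rd] using this

theorem fib (p : ℕ) (A B : Finset (Fin 4 → ℤ)) (n : ℕ) (hAB : ∀ v ∈ A, rd p v ∈ B)
    (hB : ∀ v0 ∈ B, ∃ F : Finset (Fin 4 → ℤ), F.card = n ∧ ∀ v, v ∈ F ↔ v ∈ A ∧ rd p v = v0) :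
    A.card = n * B.card := by
  classical
  rw [card_eq_sum_card_fiberwise (f := rd p) (t := B) fun v hv => hAB v hv, mul_comm,
    ← smul_eq_mul, ← sum_const]
  refine sum_congr rfl fun v0 h0 => ?_
  obtain ⟨F, hF, hF'⟩ := hB v0 h0
  rw [← hF]
  congr 1
  ext v
  rw [mem_filter, hF']

theorem sq_congr {m a b : ℤ} (h : m ∣ a - b) : m ∣ a ^ 2 - b ^ 2 := by
  rw [sq_sub_sq]; exact Dvd.dvd.mul_left h _

theorem nsq_congr {m : ℤ} {v w : Fin 4 → ℤ} (h : ∀ i, m ∣ v i - w i) {c : ℤ}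
    (hc : m ∣ nsq v - c) : m ∣ nsq w - c := by
  have : nsq w - c = (nsq v - c) - ((v 0 ^ 2 - w 0 ^ 2) + (v 1 ^ 2 - w 1 ^ 2) +
      (v 2 ^ 2 - w 2 ^ 2) + (v 3 ^ 2 - w 3 ^ 2)) := by rw [nsq_eq', nsq_eq']; ring
  rw [this]
  exact dvd_sub hc (dvd_add (dvd_add (dvd_add (sq_congr (h 0)) (sq_congr (h 1)))
    (sq_congr (h 2))) (sq_congr (h 3)))

theorem Q2_congr {m : ℤ} {v w : Fin 4 → ℤ} (h : ∀ i, m ∣ v i - w i) {c : ℤ}
    (hc : m ∣ Q2 v - c) : m ∣ Q2 w - c := by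
  have : Q2 w - c = (Q2 v - c) - ((v 0 ^ 2 - w 0 ^ 2) + 3 * (v 1 ^ 2 - w 1 ^ 2) +
      5 * (v 2 ^ 2 - w 2 ^ 2) + 7 * (v 3 ^ 2 - w 3 ^ 2)) := by unfold Q2; ring
  rw [this]
  exact dvd_sub hc (dvd_add (dvd_add (dvd_add (sq_congr (h 0)) ((sq_congr (h 1)).mul_left _))
    ((sq_congr (h 2)).mul_left _)) ((sq_congr (h 3)).mul_left _))

theorem dvd_congr {m : ℤ} {v w : Fin 4 → ℤ} (h : ∀ i, m ∣ v i - w i) (i : Fin 4) :
    m ∣ v i ↔ m ∣ w i := by
  constructor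
  · intro h1; simpa using dvd_sub h1 (h i)
  · intro h1; simpa using dvd_add (h i) h1

theorem pr_of {p : ℕ} {t : ℤ} (ht : ¬ (p : ℤ) ∣ t) {v : Fin 4 → ℤ} (h : (p : ℤ) ∣ Q2 v - t) :
    pr p v := by
  intro h1
  apply ht
  have := Q2_congr (w := 0) (fun i => by simpa using h1 i) h
  simpa [Q2] using this

/-- exactly one unit coordinate -/
def one (p : ℕ) (v : Fin 4 → ℤ) : Prop := ∃ j, ¬ (p : ℤ) ∣ v j ∧ ∀ i, i ≠ j → (p : ℤ) ∣ v i

theorem one_congr {p : ℕ} {v w : Fin 4 → ℤ} (h : ∀ i, (p : ℤ) ∣ v i - w i) :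
    one p v ↔ one p w := by
  unfold one
  simp only [dvd_congr h]

theorem two_of {p : ℕ} (hp : p.Prime) (h5 : 5 ≤ p) {v : Fin 4 → ℤ} (h1 : pr p v) (h2 : ¬ one p v) :
    ∃ i j, ¬ (p : ℤ) ∣ v i * v j * (cz i - cz j) := by
  unfold pr at h1
  unfold one at h2
  push Not at h1 h2
  obtain ⟨j, hj⟩ := h1
  obtain ⟨i, hij, hi⟩ := h2 j hj
  have hp' : Prime (p : ℤ) := Nat.prime_iff_prime_int.1 hp
  refine ⟨i, j, fun h => ?_⟩
  rcases hp'.dvd_or_dvd h with h | h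
  · rcases hp'.dvd_or_dvd h with h | h
    · exact hi h
    · exact hj h
  · have h3 : cz i - cz j ∣ 12 := by
      revert hij
      fin_cases i <;> fin_cases j <;> simp [cz]
    have h4 : p ∣ 12 := by exact_mod_cast h.trans h3
    have h6 : p ≤ 12 := Nat.le_of_dvd (by norm_num) h4
    interval_cases p <;> first | omega | norm_num at hp

open Classical in
theorem card_lev (p : ℕ) [Fact p.Prime] (c : ℤ) :
    ((res p).filter (fun v => pr p v ∧ (p : ℤ) ∣ nsq v - c)).card = (lev p c).card := by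
  have h := sum_res_eq_sum_zmod (l := p) (fun w => if w ∈ lev p c then 1 else 0)
  rw [sum_boole, sum_boole, filter_mem_eq_inter, univ_inter] at h
  have h2 : ((res p).filter (fun u => (fun j => (u j : ZMod p)) ∈ lev p c)).card = (lev p c).card := by
    exact_mod_cast h
  rw [← h2]
  congr 1
  refine filter_congr fun v _ => ?_
  rw [mem_lev]
  refine and_congr ?_ ?_
  · unfold pr
    refine not_congr ?_
    rw [funext_iff]
    simp only [Pi.zero_apply, ZMod.intCast_zmod_eq_zero_iff_dvd]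
  · rw [← ZMod.intCast_zmod_eq_zero_iff_dvd]
    unfold nsq
    push_cast
    exact sub_eq_zero

theorem card_P0 (h1 : S_Fib) {p e : ℕ} [Fact p.Prime] (h5 : 5 ≤ p) (he : 1 ≤ e) (c : ℤ) :
    (P0 p e c).card = p ^ (3 * (e - 1)) * (lev p c).card := by
  have hp : p.Prime := Fact.out
  have hp2 : p ≠ 2 := by omega
  have hn : (nm p e : ℤ) = (p : ℤ) ^ e := by simp [nm, hp2]
  have hd : (p : ℤ) ∣ (p : ℤ) ^ e := dvd_pow_self _ (by omega)
  rw [← card_lev]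
  refine fib p _ _ _ ?_ ?_
  · intro v hv
    simp only [P0, mem_filter, hn] at hv ⊢
    refine ⟨emod_mem_res hp.ne_zero v, ?_, nsq_congr (dvd_rd p v) (hd.trans hv.2.2)⟩
    have := hv.2.1
    unfold pr at this ⊢
    simpa only [dvd_congr (dvd_rd p v)] using this
  · intro v0 h0
    simp only [mem_filter] at h0
    obtain ⟨h2, h3, h4⟩ := h0
    have h3' := h3
    unfold pr at h3'
    push Not at h3'
    obtain ⟨j, hj⟩ := h3'
    refine ⟨_, h1.1 p e c v0 j hp hp2 he hj h4, fun v => ?_⟩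
    simp only [P0, mem_filter, hn, rd_eq_iff hp.ne_zero h2]
    constructor
    · rintro ⟨a1, a2, a3⟩
      refine ⟨⟨a1, ?_, a3⟩, a2⟩
      unfold pr at h3 ⊢
      simpa only [dvd_congr a2] using h3
    · rintro ⟨⟨a1, _, a3⟩, a2⟩
      exact ⟨a1, a2, a3⟩

open Classical in
/-- points of the intersection with a prescribed type -/
noncomputable def NN (p e : ℕ) (c t : ℤ) (P : (Fin 4 → ℤ) → Prop) : Finset (Fin 4 → ℤ) :=
  (res (p ^ e)).filter (fun v => P v ∧ (p : ℤ) ^ e ∣ nsq v - c ∧ (p : ℤ) ^ e ∣ Q2 v - t)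

theorem mem_NN {p e : ℕ} {c t : ℤ} {P : (Fin 4 → ℤ) → Prop} {v : Fin 4 → ℤ} :
    v ∈ NN p e c t P ↔ v ∈ res (p ^ e) ∧ P v ∧ (p : ℤ) ^ e ∣ nsq v - c ∧ (p : ℤ) ^ e ∣ Q2 v - t := by
  unfold NN; simp only [mem_filter]

theorem card_split (p e : ℕ) (c t : ℤ) (A : Finset (Fin 4 → ℤ))
    (hA : ∀ v, v ∈ A ↔ v ∈ res (p ^ e) ∧ (p : ℤ) ^ e ∣ nsq v - c ∧ (p : ℤ) ^ e ∣ Q2 v - t) :
    A.card = (NN p e c t (one p)).card + (NN p e c t (fun v => ¬ one p v)).card := by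
  classical
  rw [← card_filter_add_card_filter_not (s := A) (one p)]
  congr 2
  · ext v; rw [mem_filter, hA, mem_NN]; tauto
  · ext v; rw [mem_filter, hA, mem_NN]; tauto

theorem card_one (h2 : S_Sing) {p e : ℕ} (hp : p.Prime) (h5 : 5 ≤ p) (he : 1 ≤ e) (c t : ℤ) :
    (NN p e c t (one p)).card ≤ 200 * p ^ (2 * e - 1) := by
  refine le_trans (card_le_card fun v hv => ?_) (h2 p e c t hp h5 he)
  rw [mem_NN] at hv
  rw [mem_filter]
  exact hv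

theorem card_two (h1 : S_Fib) {p e : ℕ} (hp : p.Prime) (h5 : 5 ≤ p) (he : 1 ≤ e) (c : ℤ) {t : ℤ}
    (ht : ¬ (p : ℤ) ∣ t) : (NN p e c t (fun v => ¬ one p v)).card =
      p ^ (2 * (e - 1)) * (NN p 1 c t (fun v => ¬ one p v)).card := by
  have hp2 : p ≠ 2 := by omega
  have hd : (p : ℤ) ∣ (p : ℤ) ^ e := dvd_pow_self _ (by omega)
  refine fib p _ _ _ ?_ ?_
  · intro v hv
    simp only [mem_NN, pow_one] at hv ⊢
    exact ⟨emod_mem_res hp.ne_zero v, fun h => hv.2.1 ((one_congr (dvd_rd p v)).2 h),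
      nsq_congr (dvd_rd p v) (hd.trans hv.2.2.1), Q2_congr (dvd_rd p v) (hd.trans hv.2.2.2)⟩
  · intro v0 h0
    simp only [mem_NN, pow_one] at h0
    obtain ⟨h2, h3, h4, h6⟩ := h0
    obtain ⟨i, j, hij⟩ := two_of hp h5 (pr_of ht h6) h3
    refine ⟨_, h1.2 p e c t v0 i j hp hp2 he hij h4 h6, fun v => ?_⟩
    simp only [mem_NN, mem_filter, rd_eq_iff hp.ne_zero h2]
    constructor
    · rintro ⟨a1, a2, a3⟩
      exact ⟨⟨a1, fun h => h3 ((one_congr a2).1 h), a3⟩, a2⟩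
    · rintro ⟨⟨a1, _, a3⟩, a2⟩
      exact ⟨a1, a2, a3⟩

theorem num {p u L a b b1 : ℝ} (h5 : 5 ≤ p) (hu : 0 < u) (hL1 : p ^ 3 - p ^ 2 - 1 ≤ L)
    (hL2 : L ≤ p ^ 3 + p ^ 2) (ha0 : 0 ≤ a) (ha : a ≤ 200 * (p * u ^ 2)) (hb0 : 0 ≤ b1)
    (hb1 : b1 ≤ 200 * p) (hb : |b1 + b - p ^ 2| ≤ 10 * p) :
    |p * u * (a + u ^ 2 * b) / (u ^ 3 * L) - 1| ≤ 1000 / p := by
  have hp : 0 < p := by linarith
  have h25 : 25 ≤ p ^ 2 := by nlinarith
  have h3 : 5 * p ^ 2 ≤ p ^ 3 := by nlinarith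
  have hL : 0 < L := by linarith
  obtain ⟨z, hz⟩ : ∃ z, z = a / u ^ 2 := ⟨_, rfl⟩
  have hz0 : 0 ≤ z := by rw [hz]; positivity
  have hz1 : z ≤ 200 * p := by rw [hz, div_le_iff₀ (by positivity)]; linarith
  have e1 : p * u * (a + u ^ 2 * b) / (u ^ 3 * L) - 1 = (p * (z + b) - L) / L := by
    rw [hz]; field_simp
  rw [e1, abs_div, abs_of_pos hL, div_le_div_iff₀ hL hp]
  rw [abs_le] at hb
  have c1 : |p * (z + b) - L| ≤ 212 * p ^ 2 := by
    rw [abs_le]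
    constructor <;> nlinarith
  have c2 : |p * (z + b) - L| * p ≤ 212 * p ^ 2 * p := by gcongr
  nlinarith

end BigP

open BigP in
theorem pBig (h1 : S_Fib) (h2 : S_Sing) (h3 : S_Gauss) : S_Big := by
  intro p e c t hp h5 he ht
  have : Fact p.Prime := ⟨hp⟩
  have hp2 : p ≠ 2 := by omega
  have hn : (nm p e : ℤ) = (p : ℤ) ^ e := by simp [nm, hp2]
  have hd : (p : ℤ) ∣ (p : ℤ) ^ e := dvd_pow_self _ (by omega)
  have a1 := card_split p e c t ((P0 p e c).filter (fun v => (p : ℤ) ^ e ∣ Q2 v - t)) (by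
    intro v
    simp only [P0, mem_filter, hn]
    constructor
    · rintro ⟨⟨b1, _, b2⟩, b3⟩
      exact ⟨b1, b2, b3⟩
    · rintro ⟨b1, b2, b3⟩
      exact ⟨⟨b1, pr_of ht (hd.trans b3), b2⟩, b3⟩)
  have a2 := card_split p 1 c t
    ((res p).filter (fun v => (p : ℤ) ∣ nsq v - c ∧ (p : ℤ) ∣ Q2 v - t)) (by
    intro v
    simp only [mem_filter, pow_one])
  have a3 := h3 p c t hp h5 ht
  have a4 := card_one h2 hp h5 he c t
  have a5 := card_one h2 hp h5 le_rfl c t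
  unfold rho
  rw [a2] at a3
  rw [a1, card_two h1 hp h5 he c ht, card_P0 h1 h5 he c]
  obtain ⟨f, rfl⟩ : ∃ f, e = f + 1 := ⟨e - 1, by omega⟩
  have hp5 : (5 : ℝ) ≤ p := by exact_mod_cast h5
  have key := num (p := p) (u := (p : ℝ) ^ f) (L := (lev p c).card)
    (a := (NN p (f + 1) c t (one p)).card) (b := (NN p 1 c t (fun v => ¬ one p v)).card)
    (b1 := (NN p 1 c t (one p)).card) hp5 (by positivity) (card_lev_ge p hp2 c)
    (card_lev_le p hp2 c) (by positivity) ?_ (by positivity) ?_ (by exact_mod_cast a3)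
  · convert key using 4
    · push_cast; ring
    · push_cast; ring
  · have e1 : 2 * (f + 1) - 1 = 2 * f + 1 := by omega
    rw [e1] at a4
    have : ((NN p (f + 1) c t (one p)).card : ℝ) ≤ 200 * (p : ℝ) ^ (2 * f + 1) := by
      exact_mod_cast a4
    refine this.trans (le_of_eq ?_)
    ring
  · simp only [mul_one, Nat.add_one_sub_one, pow_one] at a5
    exact_mod_cast a5

end Pool.Agent.P.MP_0ad054_nt.Clu
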