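import Pool.Agent.P.MP_0ad054_nt.Clu.CoreA

/-! The common engine. -/

namespace Pool.Agent.P.MP_0ad054_nt.Clu

open Finset Pool.Agent.Lib.H9 Pool.Agent.P.MP_0ad054_nt.Sun Pool.Agent.P.MP_0ad054_nt.Sun.SphereP
open Pool.Agent.P.MP_0ad054_nt.Sun.FinP

namespace CoreP

theorem num1 {u Q D L r s c C Z : ℝ} (hu : 1 ≤ u) (hQ0 : 0 ≤ Q) (hQ : Q ≤ u) (hD0 : 0 < D)
    (hD : D ≤ u) (hL0 : 0 ≤ L) (hL : L ≤ u) (hr : u ^ 199 ≤ r) (hs0 : 0 ≤ s) (hs : s ≤ 10 * u ^ 200)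
    (hc0 : 0 ≤ c) (hc : c ≤ Q) (hC : 0 ≤ C) (hZ0 : 0 < Z) (hZ : Z ≤ u) :
    s * (c * (2 * Q * (C * ((Q * D) ^ 8 * (u ^ 10) ^ 5 * u ^ 100 +
      (u ^ 200) ^ 3 * L / (r ^ 2 * u ^ 10))))) ≤ 40 * C * ((u ^ 200) ^ 2 / D) / Z := by
  have h1 : (u ^ 200) ^ 3 * L / (r ^ 2 * u ^ 10) ≤ u ^ 193 := by
    rw [div_le_iff₀ (by have : 0 < r := lt_of_lt_of_le (by positivity) hr
                        positivity)]
    calc (u ^ 200) ^ 3 * L ≤ (u ^ 200) ^ 3 * u := by gcongr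
      _ = u ^ 193 * ((u ^ 199) ^ 2 * u ^ 10) := by ring
      _ ≤ _ := by gcongr
  have h2 : (Q * D) ^ 8 * (u ^ 10) ^ 5 * u ^ 100 ≤ u ^ 193 := by
    calc _ ≤ (u * u) ^ 8 * (u ^ 10) ^ 5 * u ^ 100 := by gcongr
      _ = u ^ 166 := by ring
      _ ≤ _ := pow_le_pow_right₀ hu (by norm_num)
  rw [le_div_iff₀ hZ0, mul_div_assoc', le_div_iff₀ hD0]
  have h3 : 0 ≤ (u ^ 200) ^ 3 * L / (r ^ 2 * u ^ 10) := by positivity
  calc _ ≤ 10 * u ^ 200 * (u * (2 * u * (C * (u ^ 193 + u ^ 193)))) * u * u := by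
        gcongr; exact hc.trans hQ
    _ = 40 * C * u ^ 397 := by ring
    _ ≤ 40 * C * u ^ 400 := by gcongr; norm_num
    _ = _ := by ring

theorem num2 {N d L lam n2 : ℝ} {j kT : ℕ} (hN : 0 < N) (hL : 1 ≤ L)
    (hl : (L ^ (j + kT)) ^ 2 ≤ lam) (hd : lam ^ 2 ≤ d) (hn : n2 ≤ 1 / lam) :
    Real.sqrt (100 * N / N) * (Real.sqrt (lam / d) + n2 + (L ^ (16 * j)) ^ (-(1 / 16) : ℝ) +
      L ^ kT / Real.sqrt lam) + (L ^ (16 * j)) ^ 5 * (28 * N / L ^ (81 * j)) / N ≤ 68 / L ^ j := by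
  have hX1 : 1 ≤ L ^ (j + kT) := one_le_pow₀ hL
  have hXj : L ^ j ≤ L ^ (j + kT) := pow_le_pow_right₀ hL (by omega)
  have hXl : L ^ (j + kT) ≤ lam := (le_self_pow₀ hX1 two_ne_zero).trans hl
  have hl0 : 0 < lam := by linarith
  have e0 : Real.sqrt (100 * N / N) = 10 := by
    rw [mul_div_cancel_right₀ _ hN.ne', show (100 : ℝ) = 10 ^ 2 by norm_num,
      Real.sqrt_sq (by norm_num)]
  have t1 : Real.sqrt (lam / d) ≤ 1 / L ^ j := by
    refine Real.sqrt_le_iff.2 ⟨by positivity, ?_⟩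
    calc lam / d ≤ lam / lam ^ 2 := by gcongr
      _ = 1 / lam := by field_simp
      _ ≤ 1 / (L ^ j) ^ 2 := by gcongr; exact le_trans (by gcongr) hl
      _ = _ := by rw [div_pow, one_pow]
  have t2 : n2 ≤ 1 / L ^ j := hn.trans (by gcongr; exact hXj.trans hXl)
  have t3 : (L ^ (16 * j)) ^ (-(1 / 16) : ℝ) = 1 / L ^ j := by
    rw [← Real.rpow_natCast, ← Real.rpow_mul (by linarith), one_div (L ^ j),
      ← Real.rpow_natCast, ← Real.rpow_neg (by linarith)]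
    congr 1; push_cast; ring
  have t4 : L ^ kT / Real.sqrt lam ≤ 1 / L ^ j := by
    calc _ ≤ L ^ kT / L ^ (j + kT) := by gcongr; exact Real.le_sqrt_of_sq_le hl
      _ = _ := by field_simp; ring
  have t5 : (L ^ (16 * j)) ^ 5 * (28 * N / L ^ (81 * j)) / N = 28 * (1 / L ^ j) := by
    field_simp; ring
  rw [e0, t3, t5, div_eq_mul_one_div 68]
  linarith

theorem num3 {u Q r s X : ℝ} (hu : 1 ≤ u) (hQ0 : 0 ≤ Q) (hQ : Q ^ 2 ≤ u) (hr : u ^ 199 ≤ r)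
    (hs : s ≤ 10 * u ^ 200) (hX0 : 0 < X) (hX : X ≤ u) (hr2 : r ≤ u ^ 200 / X) :
    4 * r + 4 + s * (2 * Q ^ 4) / r ≤ 28 * u ^ 200 / X := by
  have hr0 : 0 < r := lt_of_lt_of_le (by positivity) hr
  have h1 : s * (2 * Q ^ 4) / r ≤ 20 * u ^ 3 := by
    rw [div_le_iff₀ hr0]
    calc s * (2 * Q ^ 4) = s * (2 * (Q ^ 2) ^ 2) := by ring
      _ ≤ 10 * u ^ 200 * (2 * u ^ 2) := by gcongr
      _ = 20 * u ^ 3 * u ^ 199 := by ring
      _ ≤ _ := by gcongr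
  have h2 : u ^ 3 ≤ u ^ 200 / X := by
    rw [le_div_iff₀ hX0]
    calc u ^ 3 * X ≤ u ^ 3 * u := by gcongr
      _ = u ^ 4 := by ring
      _ ≤ _ := pow_le_pow_right₀ hu (by norm_num)
  have h3 : 1 ≤ u ^ 3 := one_le_pow₀ hu
  rw [mul_div_assoc 28]
  linarith

end CoreP

open CoreP in
theorem pCore (hT : Chen.S_Trans2) (hΔ : S_Delta) (hPr : S_Primes) (hO : S_Om) (hAP : S_AP)
    (hL2 : S_L2) (hW : S_Win) (hP : S_Prod) (hLow : S_Low) : S_Core := by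
  classical
  obtain ⟨W, c, κ, l0, hW0, hW2, hc, hLow⟩ := hLow
  choose! cl hcl hLow using hLow
  obtain ⟨c2, hc2, CT, kT, hCT, hT⟩ := hT
  obtain ⟨CW, hCW, hW⟩ := hW
  obtain ⟨lD, hD⟩ := exists_D hPr hΔ
  refine ⟨W, cl, hW0, hW2, hcl, fun j ε hε => ?_⟩
  obtain ⟨j', hj'⟩ : ∃ j', j' = j + κ := ⟨_, rfl⟩
  obtain ⟨N0, hN0⟩ := params (ε := min c2 (min ε (1 / 200))) (by positivity)
    (81 * j' + 2 * kT + 1) (lD + l0 + 2)
  refine ⟨81 * j', (68 * CT + 40 * CW + 81) / c, N0 + 1, by positivity, by omega, fun N hN => ?_⟩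
  obtain ⟨l, hl0, hlL, hLl, hG⟩ := hN0 N (by omega)
  obtain ⟨D, hGD, hD1, hD2, -, hD4⟩ := hD l (by omega)
  have hN1 : (1 : ℝ) ≤ N := by exact_mod_cast (by omega : 1 ≤ N)
  have hN' : (0 : ℝ) < N := by linarith
  have hL := one_le_LL N
  set L := LL N with hLd
  set lam : ℝ := 2 ^ l with hlam
  set G : ℝ := 2 ^ (2 * l ^ 4) with hGd
  have hl4 : l ≤ l ^ 4 := Nat.le_self_pow (by norm_num) _
  have hlG : lam ≤ G := pow_le_pow_right₀ one_le_two (by omega)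
  have hGa : ∀ a : ℝ, min c2 (min ε (1 / 200)) ≤ a → G ≤ (N : ℝ) ^ a := fun a ha =>
    hG.trans (Real.rpow_le_rpow_of_exponent_le hN1 ha)
  have hG1 := hGa c2 (min_le_left _ _)
  have hG2 := hGa ε ((min_le_right _ _).trans (min_le_left _ _))
  have hG3 := hGa (1 / 200) ((min_le_right _ _).trans (min_le_right _ _))
  obtain ⟨u, hu⟩ : ∃ u : ℝ, u = (N : ℝ) ^ (1 / 200 : ℝ) := ⟨_, rfl⟩
  have hu1 : 1 ≤ u := hu ▸ Real.one_le_rpow hN1 (by norm_num)
  have huN : u ^ 200 = N := by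
    rw [hu, ← Real.rpow_natCast, ← Real.rpow_mul hN'.le]; norm_num
  rw [← hu] at hG3
  have hLa : ∀ a ≤ 81 * j' + 2 * kT + 1, L ^ a ≤ lam := fun a ha =>
    (pow_le_pow_right₀ hL ha).trans hLl
  have hlu : lam ≤ u := hlG.trans hG3
  have hDG : (D : ℝ) ≤ G := by rw [hGd]; exact_mod_cast hD1
  have hD0 : 1 ≤ D := Nat.pos_of_ne_zero hGD.1.ne_zero
  have hD0' : (0 : ℝ) < D := by exact_mod_cast hD0
  have huN' : u ≤ N := huN ▸ le_self_pow₀ hu1 (by norm_num)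
  have hDN : D ≤ N := by exact_mod_cast hDG.trans (hG3.trans huN')
  have hlam1 : (1 : ℝ) ≤ lam := one_le_pow₀ one_le_two
  have sy : ((2 ^ l : ℕ) : ℝ) = lam := by simp [hlam]
  have hd : lam ^ 2 ≤ (Del D).card := by rw [hlam]; exact_mod_cast hD4
  have hd0 : (0 : ℝ) < (Del D).card := lt_of_lt_of_le (by positivity) hd
  have hy1 : 1 ≤ 2 ^ l := Nat.one_le_two_pow
  refine ⟨D, 2 ^ l, hGD, hDG.trans hG2, card_pos.1 (by exact_mod_cast hd0),
    (hLa j (by omega)).trans_eq sy.symm, sy.trans_le (hlG.trans hG2),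
    fun n0 r S E hn0 hr1 hr2 hS hE => ?_⟩
  set Q : ℝ := ((2 ^ l : ℕ) : ℝ) ^ (l * l ^ 2) with hQd
  have hQ0 : 0 ≤ Q := by positivity
  have hQ1 : 1 ≤ Q := one_le_pow₀ (by exact_mod_cast hy1)
  have hQG : Q ^ 2 = G := by
    rw [hQd, sy, hlam, hGd, ← pow_mul, ← pow_mul]; congr 1; ring
  have hQu2 : Q ^ 2 ≤ u := hQG.trans_le hG3
  have hQu : Q ≤ u := (le_self_pow₀ hQ1 two_ne_zero).trans hQu2
  have hru : u ^ 199 ≤ r := by
    refine le_trans ?_ hr1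
    rw [le_div_iff₀ (by positivity), ← huN, pow_succ u 199]
    gcongr; exact (hLa _ (by omega)).trans hlu
  have hr0 : 1 ≤ r := by exact_mod_cast (one_le_pow₀ hu1).trans hru
  have hrN' : (r : ℝ) ≤ N := hr2.trans (div_le_self hN'.le (one_le_pow₀ hL))
  have hrN : r ≤ N := by exact_mod_cast hrN'
  have hE' : ∀ n ∈ E, 3 ≤ n ∧ n ≤ N := fun n hn => ⟨(hE n hn).1, (hE n hn).2.1⟩
  have hSc : (S.card : ℝ) ≤ 10 * u ^ 200 := by
    have h1 : S.card ≤ (range (9 * N + 1)).card :=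
      card_le_card fun t ht => mem_range.2 (by have := (hS t ht).2.2.1; omega)
    rw [card_range] at h1
    have h2 : (S.card : ℝ) ≤ 9 * N + 1 := by exact_mod_cast h1
    rw [huN]; linarith
  -- the transference estimate
  set F : ℕ → ℝ := fun m => (if m ∈ S then (1 : ℝ) else 0) - gS (2 ^ l) l (l ^ 2) r S m with hF
  have hTT := hT N D lam (L ^ (16 * j')) (100 * N) (28 * N / L ^ (81 * j'))
    (fun n => gam E n) (fun m => (F m : ℂ)) (by omega) hGD (hDG.trans hG1) hlam1 (hlG.trans hG1)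
    (one_le_pow₀ hL) (by positivity) (norm_gam E) (gam_supp hE')
    (by
      simp only [Complex.norm_real, Real.norm_eq_abs, sq_abs]
      have h1 := hL2 (2 ^ l) l (l ^ 2) r N S hy1 (by omega) (by
        have : Q ^ 6 ≤ r := by
          calc Q ^ 6 = (Q ^ 2) ^ 3 := by ring
            _ ≤ u ^ 3 := by gcongr
            _ ≤ u ^ 199 := pow_le_pow_right₀ hu1 (by norm_num)
            _ ≤ _ := hru
        rw [hQd] at this
        exact_mod_cast this)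
      calc _ ≤ ∑ m ∈ Icc 3 (7 * N), (2 + 2 * gS (2 ^ l) l (l ^ 2) r S (m : ℕ) ^ 2) := by
            refine sum_le_sum fun m _ => ?_
            simp only [hF]
            split_ifs <;> nlinarith [sq_nonneg (1 + gS (2 ^ l) l (l ^ 2) r S (m : ℕ)),
              sq_nonneg (gS (2 ^ l) l (l ^ 2) r S (m : ℕ))]
        _ ≤ _ := by
            rw [sum_add_distrib, ← mul_sum, sum_const, nsmul_eq_mul, Nat.card_Icc]
            have h2 : ((7 * N + 1 - 3 : ℕ) : ℝ) ≤ 7 * N := by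
              exact_mod_cast (by omega : 7 * N + 1 - 3 ≤ 7 * N)
            linarith)
    (fun q X b h1 h2 _ => by
      rw [← Complex.ofReal_sum, Complex.norm_real, Real.norm_eq_abs]
      have h4 : q ≤ 2 ^ l := by
        have := h2.trans (hLa _ (by omega))
        rw [← sy] at this
        exact_mod_cast this
      refine (hAP (2 ^ l) l (l ^ 2) r q X S b hr0 (by omega) h1 h4 le_rfl
        (Nat.le_self_pow two_ne_zero l)).trans ?_
      rw [← huN] at hr2 ⊢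
      exact num3 hu1 hQ0 hQu2 hru hSc (by positivity) ((hLa _ (by omega)).trans hlu) hr2)
  have hτ := num2 (j := j') (kT := kT) (n2 := (N : ℝ) ^ (-c2)) hN' hL
    (by rw [← pow_mul]; exact hLa _ (by omega)) hd (by
      rw [Real.rpow_neg hN'.le, ← one_div]; gcongr; exact hlG.trans hG1)
  have hTT2 := hTT.trans (mul_le_mul_of_nonneg_left hτ (by positivity))
  rw [TT_eq hGD.1 hE' (fun m => F m.toNat), Complex.norm_real, Real.norm_eq_abs] at hTT2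
  have hg : ∑ δ ∈ Del D, ∑ n ∈ E, ∑ v ∈ La D δ n, gS (2 ^ l) l (l ^ 2) r S (Q2 v) ≤
      CT * (Del D).card * ((N : ℝ) ^ 2 / D) * (68 / L ^ j') := by
    refine le_trans (le_of_eq ?_) ((neg_le_abs _).trans hTT2)
    simp_rw [← sum_neg_distrib]
    refine sum_congr rfl fun δ _ => sum_congr rfl fun n hn => sum_congr rfl fun v hv => ?_
    have hv' : nsq v = n := mem_sphere.1 (mem_filter.1 hv).1
    have h0 : 0 ≤ Q2 v := by unfold Q2; positivity
    simp only [hF]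
    rw [if_neg, Int.toNat_of_nonneg h0]
    · ring
    · intro h
      refine (hE n hn).2.2.2.2 ⟨v 0, v 1, v 2, v 3, (Q2 v).toNat, ?_, ?_, h⟩
      · rw [← hv', nsq_eq']
      · rw [Int.toNat_of_nonneg h0, Q2]
  have key := core1 (D := D) (y := 2 ^ l) (e := l) (k := l ^ 2) (r := r) (S := S) (E := E) hO
    (c1 := c / (l : ℝ) ^ κ) (τ := 1 / (2 ^ l) ^ 2) (by positivity)
    (fun n hn t ht v hv => hLow n0 hn0 l n t v (by omega) (by have := (hE n hn).1; omega)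
      (hE n hn).2.2.1 (hS t ht).2.2.2 (hS t ht).1 (hS t ht).2.1 hv (hE n hn).2.2.2.1)
    (fun δ _ t ht T hT => win hCW hW hP (R := u ^ 10) δ hy1 (by omega) (by omega) hD2 hr0 hrN
      (hS t ht).1 (hS t ht).2.1 (hS t ht).2.2.1 (one_le_pow₀ hu1) hE' hT)
    hg (card_La hGD.1 hDN hE')
  have hsq : Real.sqrt N = u ^ 100 := by
    rw [← huN, show u ^ 200 = (u ^ 100) ^ 2 by ring, Real.sqrt_sq (by positivity)]
  have hsub : ((sub (2 ^ l) (l ^ 2)).card : ℝ) ≤ Q := by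
    have h1 := (hO.2.2.2.1 (2 ^ l) (l ^ 2) hy1).trans
      (Nat.pow_le_pow_right hy1 (Nat.le_mul_of_pos_left _ (show 0 < l by omega)))
    rw [hQd]; exact_mod_cast h1
  have h1 := num1 (C := CW) (L := L) (Z := L ^ j') hu1 hQ0 hQu hD0' (hDG.trans hG3) (by linarith)
    ((pow_one L).symm.trans_le ((hLa 1 (by omega)).trans hlu)) hru (by positivity) hSc
    (by positivity) hsub hCW.le (by positivity) ((hLa _ (by omega)).trans hlu)
  rw [huN, ← hsq] at h1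
  have h2 : (1 : ℝ) / (2 ^ l) ^ 2 ≤ 1 / L ^ j' := by
    gcongr; exact (hLa _ (by omega)).trans (le_self_pow₀ hlam1 two_ne_zero)
  generalize ∑ δ ∈ Del D, ∑ n ∈ E,
      ∑ v ∈ (psphere n).filter (fun v => (D : ℤ) ∣ δ.1 * v 2 - δ.2 * v 1),
        ∑ t ∈ S, om r (Q2 v - t) = X at key ⊢
  have hl' : (0 : ℝ) < l := by exact_mod_cast (by omega : 0 < l)
  have h3 : c / (l : ℝ) ^ κ * X ≤
      (68 * CT + 40 * CW + 81) * (Del D).card * ((N : ℝ) ^ 2 / D) / L ^ j' := by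
    refine key.trans ?_
    calc _ ≤ CT * (Del D).card * ((N : ℝ) ^ 2 / D) * (68 / L ^ j') +
          (Del D).card * (40 * CW * ((N : ℝ) ^ 2 / D) / L ^ j') +
          1 / L ^ j' * ((Del D).card * (81 * ((N : ℝ) ^ 2 / D))) := by gcongr
      _ = _ := by ring
  rw [div_mul_eq_mul_div, div_le_iff₀ (by positivity), ← le_div_iff₀' hc] at h3
  refine h3.trans ?_
  calc _ ≤ (68 * CT + 40 * CW + 81) * (Del D).card * ((N : ℝ) ^ 2 / D) / L ^ j' * L ^ κ / c := by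
        gcongr
    _ = _ := by rw [hj']; field_simp; ring

end Pool.Agent.P.MP_0ad054_nt.Clu
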