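import Pool.Agent.P.MP_0ad054_nt.Clu.Defs

/-! A local condition modulo a prime power gives a cusp form. -/

namespace Pool.Agent.P.MP_0ad054_nt.Clu

open Finset Pool.Agent.Lib.H9 Pool.Agent.P.MP_0ad054_nt.Sun Pool.Agent.P.MP_0ad054_nt.Sun.SphereP

namespace CuspP

theorem sum_res_affine {P : ℕ} (hP : P ≠ 0) {G : (Fin 4 → ℤ) → ℂ} (hG : Per P G) {c : ℤ}
    (hc : IsCoprime c P) (v : Fin 4 → ℤ) :
    ∑ u ∈ res P, G (v + fun j => c * u j) = ∑ w ∈ res P, G w := by
  have : NeZero P := ⟨hP⟩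
  set G' : (Fin 4 → ZMod P) → ℂ := fun w => G (fun j => ((w j).val : ℤ)) with hG'
  have h1 : ∀ x : Fin 4 → ℤ, G x = G' (fun j => (x j : ZMod P)) := by
    intro x
    refine hG _ _ fun j => ?_
    rw [ZMod.val_intCast]; exact Int.dvd_self_sub_emod
  have hu : IsUnit (c : ZMod P) := (ZMod.coe_int_isUnit_iff_isCoprime c P).2 hc.symm
  obtain ⟨cu, hcu⟩ := hu
  have h2 : ∀ u : Fin 4 → ℤ, G (v + fun j => c * u j) =
      G' (fun j => (v j : ZMod P) + (cu : ZMod P) * (u j : ZMod P)) := by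
    intro u
    rw [h1]; congr 1; funext j; simp [hcu]
  simp_rw [h2]
  rw [sum_res_eq_sum_zmod (fun w => G' (fun j => (v j : ZMod P) + (cu : ZMod P) * w j))]
  rw [sum_congr rfl (fun w _ => h1 w), sum_res_eq_sum_zmod G']
  exact Fintype.sum_equiv (Equiv.piCongrRight fun j =>
    (Units.mulLeft cu).trans (Equiv.addLeft (v j : ZMod P))) _ _ fun w => rfl

theorem nm_pow (p e : ℕ) : ∃ k, nm p e = p ^ k := by
  unfold nm
  split_ifs with h
  · exact ⟨e + 1, by rw [h]⟩
  · exact ⟨e, rfl⟩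

theorem nm_dvd_nsq {p e : ℕ} (he : 1 ≤ e) {v w : Fin 4 → ℤ}
    (h : ∀ j, ((p ^ e : ℕ) : ℤ) ∣ v j - w j) : (nm p e : ℤ) ∣ nsq v - nsq w := by
  unfold nsq
  rw [← sum_sub_distrib]
  refine dvd_sum fun j _ => ?_
  obtain ⟨d, hd⟩ := h j
  have hv : v j = w j + ((p ^ e : ℕ) : ℤ) * d := by linarith
  unfold nm
  split_ifs with h2
  · subst h2
    obtain ⟨k, rfl⟩ := Nat.exists_eq_add_of_le he
    refine ⟨d * w j + 2 ^ k * d ^ 2, ?_⟩
    rw [hv]; push_cast; ring
  · refine ⟨d * (v j + w j), ?_⟩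
    rw [sq_sub_sq, hd]; ring

theorem shift_exists {p e M q : ℕ} (hp : p.Prime) (he : 2 ≤ e) (hpM : ¬ p ∣ M)
    (hq : p * nm p e ∣ q) : ∃ c k m : ℤ, ((p ^ e : ℕ) : ℤ) ∣ c ∧ (M : ℤ) ∣ c ∧
      2 * c * p = k * q ∧ ¬ (p : ℤ) ∣ k ∧ c ^ 2 = m * q := by
  obtain ⟨r, rfl⟩ := hq
  obtain ⟨i, rfl⟩ := Nat.exists_eq_add_of_le he
  unfold nm
  split_ifs with h2
  · subst h2
    refine ⟨2 ^ (2 + i) * r * M, M, 2 ^ i * r * M ^ 2, ⟨r * M, by push_cast; ring⟩,
      Dvd.intro_left _ rfl, by push_cast; ring, by exact_mod_cast hpM, by push_cast; ring⟩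
  · refine ⟨p ^ (2 + i) * r * M, 2 * M, p ^ (1 + i) * r * M ^ 2, ⟨r * M, by push_cast; ring⟩,
      Dvd.intro_left _ rfl, by push_cast; ring, ?_, by push_cast; ring⟩
    intro h
    have h' : p ∣ 2 * M := by exact_mod_cast h
    rcases hp.dvd_mul.1 h' with h3 | h3
    · exact h2 ((Nat.prime_dvd_prime_iff_eq hp Nat.prime_two).1 h3)
    · exact hpM h3

theorem cofactor_exists {p e q : ℕ} (hp : p.Prime) (hq0 : q ≠ 0) (hq : ¬ p * nm p e ∣ q) :
    ∃ q' : ℕ, ¬ p ∣ q' ∧ q ∣ nm p e * q' := by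
  obtain ⟨k, hk⟩ := nm_pow p e
  obtain ⟨j, q', hq', rfl⟩ := Nat.exists_eq_pow_mul_and_not_dvd hq0 p hp.ne_one
  refine ⟨q', hq', ?_⟩
  rw [hk] at hq ⊢
  refine mul_dvd_mul_right (pow_dvd_pow _ ?_) _
  by_contra hjk
  exact hq (Dvd.dvd.mul_right (by rw [← pow_succ']; exact pow_dvd_pow _ (by omega)) _)

end CuspP

open CuspP in
theorem pCusp : S_Cusp := by
  intro p e M f ψ hp he hM hpM hf hf0 hsum hψ q a hq ha
  have hp0 : p ≠ 0 := hp.ne_zero
  have hpz : Prime (p : ℤ) := Nat.prime_iff_prime_int.1 hp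
  have hq' : (q : ℂ) ≠ 0 := by exact_mod_cast hq
  have hp' : (p : ℂ) ≠ 0 := by exact_mod_cast hp0
  have hP0 : p ^ e ≠ 0 := pow_ne_zero _ hp0
  have hper : Per (p ^ e * M) (fun v => f v * ψ v) := by
    intro v w hvw
    simp only
    rw [hψ v w fun j => (Dvd.intro_left _ (by push_cast; rfl)).trans (hvw j),
      hf v w fun j => (Dvd.intro _ (by push_cast; rfl)).trans (hvw j)]
  have hMM : p ^ e * M * q ≠ 0 := by positivity
  by_cases hq2 : p * nm p e ∣ q
  · obtain ⟨c, k, m, hc1, hc2, hk, hpk, hm⟩ := shift_exists hp he hpM hq2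
    refine sum_res_eq_zero_of_avg hMM hp0 (per_twist hq hper a) c fun v => ?_
    have e1 : ∀ u : Fin 4 → ℤ,
        f (v + fun j => c * u j) * ψ (v + fun j => c * u j) *
          ee ((a * nsq (v + fun j => c * u j) : ℤ) / q) =
        f v * ψ v * ee ((a * nsq v : ℤ) / q) * ∏ j, ee ((a * k * v j * u j : ℤ) / p) := by
      intro u
      rw [hψ (v + fun j => c * u j) v (fun j => by
          simp only [Pi.add_apply, add_sub_cancel_left]
          exact hc2.mul_right _),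
        hf (v + fun j => c * u j) v (fun j => by
          simp only [Pi.add_apply, add_sub_cancel_left]
          exact hc1.mul_right _), ← ee_sum, mul_assoc _ (ee _), ← ee_add,
        ← mul_one (ee (_ + _)), ← ee_int (a * m * nsq u), ← ee_add, nsq_add_smul]
      congr 2
      have hk' : (2 * c * p : ℂ) = k * q := by exact_mod_cast hk
      have hm' : (c : ℂ) ^ 2 = m * q := by exact_mod_cast hm
      unfold dot
      push_cast
      simp only [Fin.sum_univ_four]
      field_simp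
      linear_combination (a * (v 0 * u 0 + v 1 * u 1 + v 2 * u 2 + v 3 * u 3) : ℂ) * hk' +
        (a * p * nsq u : ℂ) * hm'
    simp only
    simp_rw [e1]
    rw [← mul_sum, sum_res_prod p (fun j x => ee ((a * k * v j * x : ℤ) / p))]
    simp_rw [sum_ee_orth hp0]
    by_cases hv : ∀ j, (p : ℤ) ∣ v j
    · rw [hf0 v (not_not.2 hv)]; simp
    · push Not at hv
      obtain ⟨j, hj⟩ := hv
      rw [prod_eq_zero (mem_univ j), mul_zero]
      rw [if_neg]
      intro hd
      rcases hpz.dvd_or_dvd hd with h1 | h1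
      · rcases hpz.dvd_or_dvd h1 with h2 | h2
        · have h4 : (p : ℤ) ∣ q := by exact_mod_cast (Dvd.intro _ rfl).trans hq2
          exact hpz.not_isUnit (ha.isUnit_of_dvd' h2 h4)
        · exact hpk h2
      · exact hj h1
  · obtain ⟨q', hq1, hq3⟩ := cofactor_exists hp hq hq2
    have hcop : IsCoprime (p : ℤ) q' :=
      hpz.irreducible.coprime_iff_not_dvd.2 (by exact_mod_cast hq1)
    have hcopM : IsCoprime (p : ℤ) M :=
      hpz.irreducible.coprime_iff_not_dvd.2 (by exact_mod_cast hpM)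
    obtain ⟨α, β, hαβ⟩ : IsCoprime (nm p e : ℤ) q' := by
      obtain ⟨k, hk⟩ := nm_pow p e
      rw [hk]; push_cast; exact hcop.pow_left
    have hq3' : (q : ℤ) ∣ nm p e * q' := by exact_mod_cast hq3
    refine sum_res_eq_zero_of_avg hMM hP0 (per_twist hq hper a) (M * q') fun v => ?_
    set H : ℤ → ℂ := fun s => ee ((a * (α * nm p e * nsq v + β * q' * s) : ℤ) / q) with hH
    have hHp : ∀ s s' : ℤ, (nm p e : ℤ) ∣ s - s' → H s = H s' := by
      rintro s s' ⟨y, hy⟩
      refine ee_congr hq (hq3'.trans ⟨a * β * y, ?_⟩)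
      linear_combination a * β * q' * hy
    set G : (Fin 4 → ℤ) → ℂ := fun w => f w * H (nsq w) with hG
    have hGp : Per (p ^ e) G := by
      intro x y hxy
      simp only [hG]
      rw [hf x y hxy, hHp _ _ (nm_dvd_nsq (by omega) hxy)]
    have e1 : ∀ u : Fin 4 → ℤ,
        f (v + fun j => (M * q' : ℤ) * u j) * ψ (v + fun j => (M * q' : ℤ) * u j) *
          ee ((a * nsq (v + fun j => (M * q' : ℤ) * u j) : ℤ) / q) =
        ψ v * G (v + fun j => (M * q' : ℤ) * u j) := by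
      intro u
      rw [hψ (v + fun j => (M * q' : ℤ) * u j) v (fun j => by
        simp only [Pi.add_apply, add_sub_cancel_left]
        exact Dvd.dvd.mul_right (Dvd.intro _ rfl) _)]
      simp only [hG]
      rw [mul_comm (f _) (ψ v), mul_assoc]
      congr 2
      simp only [hH]
      refine ee_congr hq (hq3'.trans
        ⟨a * α * (2 * M * dot v u + M ^ 2 * q' * nsq u), ?_⟩)
      rw [nsq_add_smul]
      linear_combination
        (-a * (nsq v + 2 * (M * q') * dot v u + (M * q') ^ 2 * nsq u)) * hαβ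
    simp only
    simp_rw [e1]
    rw [← mul_sum, sum_res_affine hP0 hGp (by
      push_cast; exact (IsCoprime.mul_right hcopM hcop).symm.pow_right), hsum H hHp, mul_zero]

end Pool.Agent.P.MP_0ad054_nt.Clu
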