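import Pool.Agent.P.MP_0ad054_nt.Clu.Defs

/-! Fibres over nonsingular points. -/

namespace Pool.Agent.P.MP_0ad054_nt.Clu

open Finset Pool.Agent.Lib.H9 Pool.Agent.P.MP_0ad054_nt.Sun Pool.Agent.P.MP_0ad054_nt.Sun.SphereP

namespace FibP

/-- a diagonal form -/
def QF (μ v : Fin 4 → ℤ) : ℤ := ∑ l, μ l * v l ^ 2

theorem QF_split (μ v : Fin 4 → ℤ) (i : Fin 4) :
    QF μ v = μ i * v i ^ 2 + ∑ l ∈ univ.erase i, μ l * v l ^ 2 := by
  rw [QF, ← add_sum_erase _ _ (mem_univ i)]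

theorem QF_update (μ v : Fin 4 → ℤ) (i : Fin 4) (x : ℤ) :
    QF μ (Function.update v i x) = μ i * x ^ 2 + ∑ l ∈ univ.erase i, μ l * v l ^ 2 := by
  rw [QF_split μ _ i, Function.update_self]
  congr 1
  refine sum_congr rfl fun l hl => ?_
  rw [Function.update_of_ne (ne_of_mem_erase hl)]

/-- the residues modulo `p ^ e` above a residue modulo `p` -/
noncomputable def box (p e : ℕ) (v0 : Fin 4 → ℤ) (l : Fin 4) : Finset ℤ :=
  (Ico (0 : ℤ) ((p : ℤ) ^ e)).filter (fun x => (p : ℤ) ∣ x - v0 l)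

theorem card_box (h : S_Sq) {p e : ℕ} (hp : p.Prime) (he : 1 ≤ e) (v0 : Fin 4 → ℤ) (l : Fin 4) :
    (box p e v0 l).card = p ^ (e - 1) := by
  have h1 := h.1 (p ^ e) p (v0 l) (pow_ne_zero _ hp.ne_zero) (dvd_pow_self _ (by omega))
  have h2 : p ^ e / p = p ^ (e - 1) := by
    have := Nat.pow_div he hp.pos
    rwa [pow_one] at this
  rw [h2] at h1
  rw [← h1]
  simp [box]

open Classical in
theorem step (h : S_Sq) (S : Fin 4 → Finset ℤ) (j : Fin 4) (A B : (Fin 4 → ℤ) → Prop)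
    (hA : ∀ v x, A (Function.update v j x) ↔ A v)
    (hB : ∀ v ∈ Fintype.piFinset S, ((S j).filter (fun x => B (Function.update v j x))).card = 1) :
    (S j).card * ((Fintype.piFinset S).filter (fun v => A v ∧ B v)).card =
      ((Fintype.piFinset S).filter A).card := by
  have h1 := h.2.2.2.2.2 S j (fun v => if A v ∧ B v then 1 else 0)
  rw [card_filter, card_filter, ← h1]
  refine sum_congr rfl fun v hv => ?_
  by_cases hv' : A v
  · rw [if_pos hv']
    refine Eq.trans ?_ (hB v hv)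
    rw [card_filter]
    refine sum_congr rfl fun x _ => ?_
    simp [hA, hv']
  · rw [if_neg hv']
    refine sum_eq_zero fun x _ => ?_
    simp [hA, hv']

open Classical in
theorem one (h : S_Sq) {p e : ℕ} (hp : p.Prime) (h2 : p ≠ 2) (he : 1 ≤ e) (μ v0 : Fin 4 → ℤ)
    (c : ℤ) (j : Fin 4) (hu : ¬ (p : ℤ) ∣ μ j * v0 j) (h0 : (p : ℤ) ∣ QF μ v0 - c) :
    ∀ v ∈ Fintype.piFinset (box p e v0), ((box p e v0 j).filter
      (fun x => (p : ℤ) ^ e ∣ QF μ (Function.update v j x) - c)).card = 1 := by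
  intro v hv
  have hv' : ∀ l, (p : ℤ) ∣ v l - v0 l := fun l =>
    (mem_filter.mp (Fintype.mem_piFinset.mp hv l)).2
  have h3 : (p : ℤ) ∣ ∑ l ∈ univ.erase j, μ l * v l ^ 2 - ∑ l ∈ univ.erase j, μ l * v0 l ^ 2 := by
    rw [← sum_sub_distrib]
    refine dvd_sum fun l _ => ?_
    have : μ l * v l ^ 2 - μ l * v0 l ^ 2 = (v l - v0 l) * (μ l * (v l + v0 l)) := by ring
    rw [this]
    exact Dvd.dvd.mul_right (hv' l) _
  have h4 : (p : ℤ) ∣ μ j * v0 j ^ 2 - (c - ∑ l ∈ univ.erase j, μ l * v l ^ 2) := by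
    have h5 := dvd_add h0 h3
    rw [QF_split μ v0 j] at h5
    have h6 : ∀ a b d c : ℤ, a + b - c + (d - b) = a - (c - d) := fun a b d c => by ring
    rwa [h6] at h5
  rw [← h.2.2.1 p e (μ j) _ (v0 j) hp h2 he hu h4, box, filter_filter]
  congr 1
  refine filter_congr fun x _ => ?_
  rw [QF_update]
  have : μ j * x ^ 2 + ∑ l ∈ univ.erase j, μ l * v l ^ 2 - c =
      μ j * x ^ 2 - (c - ∑ l ∈ univ.erase j, μ l * v l ^ 2) := by ring
  rw [this]

theorem nsq_QF (v : Fin 4 → ℤ) : nsq v = QF (fun _ => 1) v := by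
  simp [nsq, QF]

theorem Q2_QF (v : Fin 4 → ℤ) (j : Fin 4) :
    QF (fun l => cz l - cz j) v = Q2 v - cz j * nsq v := by
  rw [nsq_eq', Q2, QF, Fin.sum_univ_four]
  have h0 : cz 0 = 1 := rfl
  have h1 : cz 1 = 3 := rfl
  have h2 : cz 2 = 5 := rfl
  have h3 : cz 3 = 7 := rfl
  rw [h0, h1, h2, h3]
  ring

theorem mem_box {p e : ℕ} {v0 v : Fin 4 → ℤ} :
    v ∈ Fintype.piFinset (box p e v0) ↔ v ∈ res (p ^ e) ∧ ∀ l, (p : ℤ) ∣ v l - v0 l := by
  rw [mem_res, Fintype.mem_piFinset]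
  simp only [box, mem_filter, mem_Ico, Nat.cast_pow]
  exact ⟨fun h => ⟨fun l => (h l).1, fun l => (h l).2⟩, fun h l => ⟨h.1 l, h.2 l⟩⟩

theorem card_all (h : S_Sq) {p e : ℕ} (hp : p.Prime) (he : 1 ≤ e) (v0 : Fin 4 → ℤ) :
    (Fintype.piFinset (box p e v0)).card = (p ^ (e - 1)) ^ 4 := by
  rw [Fintype.card_piFinset]
  simp [card_box h hp he]

open Classical in
theorem cube (h : S_Sq) {p e : ℕ} (hp : p.Prime) (h2 : p ≠ 2) (he : 1 ≤ e) (μ v0 : Fin 4 → ℤ)
    (c : ℤ) (j : Fin 4) (hu : ¬ (p : ℤ) ∣ μ j * v0 j) (h0 : (p : ℤ) ∣ QF μ v0 - c) :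
    ((Fintype.piFinset (box p e v0)).filter (fun v => (p : ℤ) ^ e ∣ QF μ v - c)).card =
      (p ^ (e - 1)) ^ 3 := by
  have h1 := step h (box p e v0) j (fun _ => True) (fun v => (p : ℤ) ^ e ∣ QF μ v - c)
    (fun _ _ => Iff.rfl) (by convert one h hp h2 he μ v0 c j hu h0)
  simp only [true_and, filter_true] at h1
  rw [card_all h hp he, card_box h hp he] at h1
  have hq : 0 < p ^ (e - 1) := pow_pos hp.pos _
  refine Nat.eq_of_mul_eq_mul_left hq ?_
  rw [← pow_succ', ← h1]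

end FibP

open FibP

theorem pFib (h : S_Sq) : S_Fib := by
  classical
  refine ⟨fun p e c v0 j hp h2 he hu h0 => ?_, fun p e c t v0 i j hp h2 he hu h0 ht => ?_⟩
  · have h1 := cube h hp h2 he (fun _ => 1) v0 c j (by simpa using hu) (by rwa [← nsq_QF])
    rw [mul_comm, pow_mul, ← h1]
    congr 1
    ext v
    rw [mem_filter, mem_filter, mem_box, nsq_QF, and_assoc]
  · have hj : ¬ (p : ℤ) ∣ 1 * v0 j := fun hd => hu (by
      rw [one_mul] at hd
      exact Dvd.dvd.mul_right (Dvd.dvd.mul_left hd _) _)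
    have hi : ¬ (p : ℤ) ∣ (cz i - cz j) * v0 i := fun hd => hu (by
      have : v0 i * v0 j * (cz i - cz j) = (cz i - cz j) * v0 i * v0 j := by ring
      rw [this]
      exact Dvd.dvd.mul_right hd _)
    have h3 : (p : ℤ) ∣ QF (fun l => cz l - cz j) v0 - (t - cz j * c) := by
      have : QF (fun l => cz l - cz j) v0 - (t - cz j * c) =
          (Q2 v0 - t) - cz j * (nsq v0 - c) := by rw [Q2_QF]; ring
      rw [this]
      exact dvd_sub ht (Dvd.dvd.mul_left h0 _)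
    have h4 := cube h hp h2 he (fun l => cz l - cz j) v0 (t - cz j * c) i hi h3
    have h5 := step h (box p e v0) j
      (fun v => (p : ℤ) ^ e ∣ QF (fun l => cz l - cz j) v - (t - cz j * c))
      (fun v => (p : ℤ) ^ e ∣ QF (fun _ => 1) v - c)
      (fun v x => by rw [QF_update, QF_split _ v j]; simp)
      (by convert one h hp h2 he (fun _ => 1) v0 c j hj (by rwa [← nsq_QF]))
    have h6 : p ^ (e - 1) * ((Fintype.piFinset (box p e v0)).filter (fun v =>
        (p : ℤ) ^ e ∣ QF (fun l => cz l - cz j) v - (t - cz j * c) ∧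
          (p : ℤ) ^ e ∣ QF (fun _ => 1) v - c)).card = (p ^ (e - 1)) ^ 3 := by
      rw [← h4, ← card_box h hp he v0 j]
      convert h5
    have hq : 0 < p ^ (e - 1) := pow_pos hp.pos _
    refine Nat.eq_of_mul_eq_mul_left hq ?_
    rw [mul_comm 2, pow_mul, ← pow_succ', ← h6]
    congr 2
    ext v
    rw [mem_filter, mem_filter, mem_box, ← nsq_QF, Q2_QF, and_assoc]
    have e1 : Q2 v - cz j * nsq v - (t - cz j * c) = (Q2 v - t) - cz j * (nsq v - c) := by ring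
    rw [e1]
    refine and_congr_right fun _ => and_congr_right fun _ => ⟨fun hh => ?_, fun hh => ?_⟩
    · exact ⟨dvd_sub hh.2 (Dvd.dvd.mul_left hh.1 _), hh.1⟩
    · refine ⟨hh.2, ?_⟩
      have := dvd_add hh.1 (Dvd.dvd.mul_left hh.2 (cz j))
      rwa [sub_add_cancel] at this

end Pool.Agent.P.MP_0ad054_nt.Clu
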