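import Pool.Agent.P.MP_0ad054_nt.Clu.Defs

/-! The number of points modulo a prime on the intersection of the two quadrics. -/

namespace Pool.Agent.P.MP_0ad054_nt.Clu

open Finset Pool.Agent.Lib.H9 Pool.Agent.P.MP_0ad054_nt.Sun Pool.Agent.P.MP_0ad054_nt.Sun.SphereP

namespace GaussP

variable {F : Type*} [Field F] [Fintype F] [DecidableEq F]

/-- the quadratic character with complex values -/
noncomputable def et (F : Type*) [Field F] [Fintype F] [DecidableEq F] : MulChar F ℂ :=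
  (quadraticChar F).ringHomComp (Int.castRingHom ℂ)

/-- the quadratic exponential sum -/
noncomputable def GG (ψ : AddChar F ℂ) (u : F) : ℂ := ∑ x : F, ψ (u * x ^ 2)

theorem et_quad : (et F).IsQuadratic := (quadraticChar_isQuadratic F).comp _

theorem et_ne_one (hF : ringChar F ≠ 2) : et F ≠ 1 :=
  (MulChar.ringHomComp_ne_one_iff (RingHom.injective_int _)).2 (quadraticChar_ne_one hF)

theorem norm_et_le (u : F) : ‖et F u‖ ≤ 1 := by
  rcases et_quad (F := F) u with h | h | h <;> rw [h] <;> simp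

theorem et_sq {u : F} (hu : u ≠ 0) : et F u ^ 2 = 1 := by
  have h := quadraticChar_sq_one hu
  have h3 := congrArg (fun z : ℤ => (z : ℂ)) h
  simpa [et] using h3

theorem shift_eq (ψ : AddChar F ℂ) {u : F} (hu : u ≠ 0) :
    gaussSum (et F) (ψ.mulShift u) = et F u * gaussSum (et F) ψ := by
  have h := gaussSum_mulShift (et F) ψ (Units.mk0 u hu)
  simp only [Units.val_mk0] at h
  rw [← h, ← mul_assoc, ← sq, et_sq hu, one_mul]

theorem GG_eq (hF : ringChar F ≠ 2) (ψ : AddChar F ℂ) (hψ : ψ.IsPrimitive) {a : F} (ha : a ≠ 0) :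
    GG ψ a = et F a * gaussSum (et F) ψ := by
  rw [← shift_eq ψ ha]
  unfold GG
  rw [← sum_fiberwise (s := univ) (g := fun t : F => t ^ 2)]
  have : ∀ s : F, ∑ t ∈ univ.filter (fun t : F => t ^ 2 = s), ψ (a * t ^ 2) =
      (et F s + 1) * ψ (a * s) := by
    intro s
    rw [sum_congr rfl (g := fun _ => ψ (a * s))]
    · rw [sum_const, nsmul_eq_mul]
      congr 1
      have := quadraticChar_card_sqrts hF s
      have h2 : ({x : F | x ^ 2 = s}.toFinset) = univ.filter (fun t : F => t ^ 2 = s) := by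
        ext; simp
      rw [h2] at this
      simp only [et, MulChar.ringHomComp_apply]
      have h3 := congrArg (fun z : ℤ => (z : ℂ)) this
      simpa using h3
    · intro t ht
      rw [(mem_filter.1 ht).2]
  simp_rw [this, add_mul, sum_add_distrib, one_mul]
  have h0 : ∑ s : F, ψ (a * s) = 0 := by
    simp_rw [mul_comm a]
    rw [AddChar.sum_mulShift _ hψ]; simp [ha]
  rw [h0, add_zero]
  rfl

omit [DecidableEq F] in
theorem GG_zero (ψ : AddChar F ℂ) : GG ψ 0 = Fintype.card F := by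
  simp [GG]

theorem norm_g_sq (hF : ringChar F ≠ 2) (ψ : AddChar F ℂ) (hψ : ψ.IsPrimitive) :
    ‖gaussSum (et F) ψ‖ ^ 2 = Fintype.card F := by
  have h := gaussSum_sq (et_ne_one hF) et_quad hψ
  have h1 : ‖et F (-1)‖ = 1 := by
    have := et_sq (F := F) (u := -1) (by simp)
    have h2 := congrArg norm this
    rw [norm_pow, norm_one] at h2
    nlinarith [norm_nonneg (et F (-1))]
  rw [← norm_pow, h, norm_mul, h1]
  simp

theorem norm_twist_le (hF : ringChar F ≠ 2) (ψ : AddChar F ℂ) (k : F) :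
    ‖∑ s ∈ univ.erase (0 : F), ψ (s * k) * et F s‖ ≤ ‖gaussSum (et F) ψ‖ := by
  have h1 : ∑ s ∈ univ.erase (0 : F), ψ (s * k) * et F s = gaussSum (et F) (ψ.mulShift k) := by
    rw [sum_erase _ (by simp [MulChar.map_zero])]
    unfold gaussSum
    refine sum_congr rfl fun s _ => ?_
    rw [AddChar.mulShift_apply, mul_comm k s, mul_comm]
  rw [h1]
  by_cases hk : k = 0
  · subst hk
    have : gaussSum (et F) (ψ.mulShift 0) = 0 := by
      unfold gaussSum
      simp only [AddChar.mulShift_apply, zero_mul, AddChar.map_zero_eq_one, mul_one]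
      exact MulChar.sum_eq_zero_of_ne_one (et_ne_one hF)
    rw [this]; simp
  · rw [shift_eq ψ hk, norm_mul]
    exact mul_le_of_le_one_left (norm_nonneg _) (norm_et_le k)

theorem norm_plain_le (ψ : AddChar F ℂ) (hψ : ψ.IsPrimitive) (k : F) :
    ‖∑ s ∈ univ.erase (0 : F), ψ (s * k)‖ ≤
      (if k = 0 then (Fintype.card F : ℝ) else 0) + 1 := by
  rw [sum_erase_eq_sub (mem_univ _), AddChar.sum_mulShift _ hψ]
  refine (norm_sub_le _ _).trans ?_
  split_ifs <;> simp

theorem norm_prod_le (ψ : AddChar F ℂ) (u : Fin 4 → F) (T : Finset (Fin 4)) :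
    ‖∏ i ∈ T, et F (u i) * gaussSum (et F) ψ‖ ≤ ‖gaussSum (et F) ψ‖ ^ T.card := by
  rw [norm_prod, ← prod_const]
  refine prod_le_prod (fun _ _ => norm_nonneg _) fun i _ => ?_
  rw [norm_mul]
  exact mul_le_of_le_one_left (norm_nonneg _) (norm_et_le _)

/-- the sum over the nonzero multiples of a point -/
theorem norm_line_le (hF : ringChar F ≠ 2) (ψ : AddChar F ℂ) (hψ : ψ.IsPrimitive) (k : F)
    (u : Fin 4 → F) (hu : ∀ i j, u i = 0 → u j = 0 → i = j) :
    ‖∑ s ∈ univ.erase (0 : F), ψ (s * k) * ∏ j, GG ψ (s * u j)‖ ≤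
      (Fintype.card F : ℝ) ^ 2 * ((if k = 0 then (Fintype.card F : ℝ) else 0) + 1) +
        (Fintype.card F : ℝ) ^ 3 * ∑ j, if u j = 0 then (1 : ℝ) else 0 := by
  have hg := norm_g_sq hF ψ hψ
  have hq : (0 : ℝ) ≤ Fintype.card F := by positivity
  have hi : (0 : ℝ) ≤ (if k = 0 then (Fintype.card F : ℝ) else 0) + 1 := by
    split_ifs <;> positivity
  have hs0 : (0 : ℝ) ≤ ∑ j, if u j = 0 then (1 : ℝ) else 0 :=
    sum_nonneg fun j _ => by split_ifs <;> norm_num
  have key : ∀ (T : Finset (Fin 4)), (∀ i ∈ T, u i ≠ 0) → ∀ s : F, s ≠ 0 →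
      ∏ j ∈ T, GG ψ (s * u j) = et F s ^ T.card * ∏ j ∈ T, et F (u j) * gaussSum (et F) ψ := by
    intro T hT s hs
    rw [← prod_const, ← prod_mul_distrib]
    refine prod_congr rfl fun j hj => ?_
    rw [GG_eq hF ψ hψ (mul_ne_zero hs (hT j hj)), map_mul, mul_assoc]
  by_cases h : ∀ j, u j ≠ 0
  · have e1 : ∑ s ∈ univ.erase (0 : F), ψ (s * k) * ∏ j, GG ψ (s * u j) =
        (∑ s ∈ univ.erase (0 : F), ψ (s * k)) * ∏ j, et F (u j) * gaussSum (et F) ψ := by
      rw [sum_mul]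
      refine sum_congr rfl fun s hs => ?_
      have hs' := ne_of_mem_erase hs
      rw [key univ (fun i _ => h i) s hs', card_univ, Fintype.card_fin,
        show et F s ^ 4 = (et F s ^ 2) ^ 2 by ring, et_sq hs', one_pow, one_mul]
    rw [e1, norm_mul]
    have h1 := norm_plain_le ψ hψ k
    have h2 := norm_prod_le ψ u univ
    rw [card_univ, Fintype.card_fin, show ‖gaussSum (et F) ψ‖ ^ 4 = (‖gaussSum (et F) ψ‖ ^ 2) ^ 2 by
      ring, hg] at h2
    have h3 := mul_le_mul h1 h2 (norm_nonneg _) hi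
    have h4 : 0 ≤ (Fintype.card F : ℝ) ^ 3 * ∑ j, if u j = 0 then (1 : ℝ) else 0 := by positivity
    linarith
  · push Not at h
    obtain ⟨j, hj⟩ := h
    have hT : ∀ i ∈ univ.erase j, u i ≠ 0 := fun i hi h0 => ne_of_mem_erase hi (hu i j h0 hj)
    have hc : (univ.erase j).card = 3 := by rw [card_erase_of_mem (mem_univ _)]; simp
    have e1 : ∑ s ∈ univ.erase (0 : F), ψ (s * k) * ∏ j, GG ψ (s * u j) =
        (∑ s ∈ univ.erase (0 : F), ψ (s * k) * et F s) * ((Fintype.card F : ℂ) *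
          ∏ i ∈ univ.erase j, et F (u i) * gaussSum (et F) ψ) := by
      rw [sum_mul]
      refine sum_congr rfl fun s hs => ?_
      have hs' := ne_of_mem_erase hs
      rw [← mul_prod_erase univ _ (mem_univ j), key _ hT s hs', hc, hj, mul_zero, GG_zero,
        pow_succ, et_sq hs']
      ring
    rw [e1, norm_mul, norm_mul]
    have h1 := norm_twist_le hF ψ k
    have h2 := norm_prod_le ψ u (univ.erase j)
    rw [hc] at h2
    have h3 : (1 : ℝ) ≤ ∑ j, if u j = 0 then (1 : ℝ) else 0 := by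
      have := single_le_sum (f := fun j => if u j = 0 then (1 : ℝ) else 0)
        (fun j _ => by split_ifs <;> norm_num) (mem_univ j)
      simpa [hj] using this
    have h4 : ‖(Fintype.card F : ℂ)‖ = Fintype.card F := by simp
    rw [h4]
    set g := ‖gaussSum (et F) ψ‖
    have hg0 : 0 ≤ g := norm_nonneg _
    calc _ ≤ g * ((Fintype.card F : ℝ) * g ^ 3) := by gcongr
      _ = (Fintype.card F : ℝ) * (g ^ 2) ^ 2 := by ring
      _ = (Fintype.card F : ℝ) ^ 3 * 1 := by rw [hg]; ring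
      _ ≤ (Fintype.card F : ℝ) ^ 3 * ∑ j, if u j = 0 then (1 : ℝ) else 0 := by gcongr
      _ ≤ _ := le_add_of_nonneg_left (by positivity)

theorem count_eq (ψ : AddChar F ℂ) (hψ : ψ.IsPrimitive) (μ : Fin 4 → F) (c t : F) :
    ∑ x : F × F, ψ (-(x.1 * c + x.2 * t)) * ∏ j, GG ψ (x.1 + μ j * x.2) =
      (Fintype.card F : ℂ) ^ 2 * (univ.filter (fun w : Fin 4 → F =>
        ∑ j, w j ^ 2 = c ∧ ∑ j, μ j * w j ^ 2 = t)).card := by
  have e1 : ∀ x : F × F, ψ (-(x.1 * c + x.2 * t)) * ∏ j, GG ψ (x.1 + μ j * x.2) =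
      ∑ w : Fin 4 → F, ψ (x.1 * (∑ j, w j ^ 2 - c)) * ψ (x.2 * (∑ j, μ j * w j ^ 2 - t)) := by
    intro x
    unfold GG
    rw [prod_univ_sum, Fintype.piFinset_univ, mul_sum]
    refine sum_congr rfl fun w _ => ?_
    simp only [Fin.prod_univ_four, Fin.sum_univ_four, ← AddChar.map_add_eq_mul]
    congr 1; ring
  simp_rw [e1]
  rw [sum_comm, card_filter]
  push_cast
  rw [mul_sum]
  refine sum_congr rfl fun w _ => ?_
  rw [Fintype.sum_prod_type]
  dsimp only
  rw [← sum_mul_sum, AddChar.sum_mulShift _ hψ, AddChar.sum_mulShift _ hψ]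
  simp only [sub_eq_zero]
  by_cases h1 : ∑ j, w j ^ 2 = c <;> by_cases h2 : ∑ j, μ j * w j ^ 2 = t <;>
    simp [h1, h2, sq (Fintype.card F : ℂ)]

theorem count_bound (hF : ringChar F ≠ 2) (ψ : AddChar F ℂ) (hψ : ψ.IsPrimitive) (μ : Fin 4 → F)
    (hμ : Function.Injective μ) (c t : F) (ht : t ≠ 0) :
    ((Fintype.card F : ℝ) - 1) * (Fintype.card F : ℝ) ^ 2 *
      |((univ.filter (fun w : Fin 4 → F =>
        ∑ j, w j ^ 2 = c ∧ ∑ j, μ j * w j ^ 2 = t)).card : ℝ) - (Fintype.card F : ℝ) ^ 2| ≤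
      6 * (Fintype.card F : ℝ) ^ 4 := by
  set N := (univ.filter (fun w : Fin 4 → F => ∑ j, w j ^ 2 = c ∧ ∑ j, μ j * w j ^ 2 = t)).card
    with hN
  set q := Fintype.card F with hq
  have hq1 : (1 : ℝ) ≤ q := by exact_mod_cast Fintype.card_pos
  set U : F × F → ℂ := fun x => ∑ s ∈ univ.erase (0 : F),
    ψ (s * -(x.1 * c + x.2 * t)) * ∏ j, GG ψ (s * (x.1 + μ j * x.2)) with hU
  have hc : ((univ.erase (0 : F)).card : ℂ) = q - 1 := by
    rw [card_erase_of_mem (mem_univ _), card_univ, Nat.cast_sub Fintype.card_pos]; simp [hq]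
  have h1 : ∑ x, U x = ((q : ℂ) - 1) * ((q : ℂ) ^ 2 * N) := by
    simp only [hU]
    rw [sum_comm, ← hc, ← nsmul_eq_mul, ← sum_const]
    refine sum_congr rfl fun s hs => ?_
    have hs' := ne_of_mem_erase hs
    rw [← count_eq ψ hψ μ c t]
    refine Fintype.sum_equiv ((Equiv.mulLeft₀ s hs').prodCongr (Equiv.mulLeft₀ s hs')) _ _
      fun x => ?_
    simp only [Equiv.prodCongr_apply, Prod.map_fst, Prod.map_snd, Equiv.mulLeft₀_apply]
    congr 1
    · congr 1; ring
    · refine prod_congr rfl fun j _ => ?_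
      congr 1; ring
  have h2 : U 0 = ((q : ℂ) - 1) * (q : ℂ) ^ 4 := by
    simp only [hU, Prod.fst_zero, Prod.snd_zero, zero_mul, mul_zero, add_zero, neg_zero,
      AddChar.map_zero_eq_one, one_mul, GG_zero, prod_const, card_univ, Fintype.card_fin,
      sum_const, nsmul_eq_mul, hc, hq]
  have h3 : ∑ x ∈ univ.erase 0, U x = ((((q : ℝ) - 1) * (q : ℝ) ^ 2 * (N - (q : ℝ) ^ 2) : ℝ) : ℂ) := by
    rw [sum_erase_eq_sub (mem_univ _), h1, h2]; push_cast; ring
  have c1 : ∑ x : F × F, (if -(x.1 * c + x.2 * t) = 0 then (q : ℝ) else 0) = (q : ℝ) ^ 2 := by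
    rw [Fintype.sum_prod_type]
    have : ∀ a : F, ∑ b : F, (if -(a * c + b * t) = 0 then (q : ℝ) else 0) = q := by
      intro a
      have e : ∀ b : F, (-(a * c + b * t) = 0) ↔ b = -(a * c) / t := by
        intro b
        rw [eq_div_iff ht]
        constructor <;> intro h <;> linear_combination -h
      simp_rw [e]
      simp
    simp_rw [this]
    simp [hq, sq]
  have c2 : ∀ j, ∑ x : F × F, (if x.1 + μ j * x.2 = 0 then (1 : ℝ) else 0) = q := by
    intro j
    rw [Fintype.sum_prod_type_right]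
    simp_rw [add_eq_zero_iff_eq_neg]
    simp [hq]
  have h4 : ‖∑ x ∈ univ.erase 0, U x‖ ≤ 6 * (q : ℝ) ^ 4 := by
    calc _ ≤ ∑ x ∈ univ.erase 0, ‖U x‖ := norm_sum_le _ _
      _ ≤ ∑ x ∈ univ.erase (0 : F × F),
          ((q : ℝ) ^ 2 * ((if -(x.1 * c + x.2 * t) = 0 then (q : ℝ) else 0) + 1) +
            (q : ℝ) ^ 3 * ∑ j, if x.1 + μ j * x.2 = 0 then (1 : ℝ) else 0) := by
        refine sum_le_sum fun x hx => ?_
        refine norm_line_le hF ψ hψ _ (fun j => x.1 + μ j * x.2) fun i j hi hj => ?_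
        by_contra hij
        have hm : μ i - μ j ≠ 0 := sub_ne_zero.2 fun h => hij (hμ h)
        have hb : x.2 = 0 := by
          have : (μ i - μ j) * x.2 = 0 := by linear_combination hi - hj
          exact (mul_eq_zero.1 this).resolve_left hm
        have ha : x.1 = 0 := by simpa [hb] using hi
        exact ne_of_mem_erase hx (Prod.ext ha hb)
      _ ≤ ∑ x : F × F,
          ((q : ℝ) ^ 2 * ((if -(x.1 * c + x.2 * t) = 0 then (q : ℝ) else 0) + 1) +
            (q : ℝ) ^ 3 * ∑ j, if x.1 + μ j * x.2 = 0 then (1 : ℝ) else 0) := by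
        refine sum_le_sum_of_subset_of_nonneg (erase_subset _ _) fun x _ _ => ?_
        have a1 : (0 : ℝ) ≤ (if -(x.1 * c + x.2 * t) = 0 then (q : ℝ) else 0) := by
          split_ifs <;> positivity
        have a2 : (0 : ℝ) ≤ ∑ j, if x.1 + μ j * x.2 = 0 then (1 : ℝ) else 0 :=
          sum_nonneg fun j _ => by split_ifs <;> norm_num
        positivity
      _ = 6 * (q : ℝ) ^ 4 := by
        rw [sum_add_distrib, ← mul_sum, ← mul_sum, sum_add_distrib, c1, sum_comm]
        simp_rw [c2]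
        simp [hq]
        ring
  rw [h3, Complex.norm_real, Real.norm_eq_abs, abs_mul,
    abs_of_nonneg (mul_nonneg (by linarith) (by positivity))] at h4
  exact h4

end GaussP

open GaussP in
theorem pGauss : S_Gauss := by
  intro p c t hp h5 ht
  have : Fact p.Prime := ⟨hp⟩
  have hF : ringChar (ZMod p) ≠ 2 := by rw [ZMod.ringChar_zmod_n]; omega
  have ht' : (t : ZMod p) ≠ 0 := fun h => ht ((ZMod.intCast_zmod_eq_zero_iff_dvd t p).1 h)
  have h2 : (2 : ZMod p) ≠ 0 := Ring.two_ne_zero hF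
  have h3 : (3 : ZMod p) ≠ 0 := by
    intro h
    have : p ∣ 3 := (ZMod.natCast_eq_zero_iff 3 p).1 (by exact_mod_cast h)
    have := Nat.le_of_dvd (by norm_num) this
    omega
  have h4 : (4 : ZMod p) ≠ 0 := by
    rw [show (4 : ZMod p) = 2 * 2 by norm_num]; exact mul_ne_zero h2 h2
  have h6 : (6 : ZMod p) ≠ 0 := by
    rw [show (6 : ZMod p) = 2 * 3 by norm_num]; exact mul_ne_zero h2 h3
  have hμ : Function.Injective (![1, 3, 5, 7] : Fin 4 → ZMod p) := by
    intro i j h
    fin_cases i <;> fin_cases j <;> simp at h ⊢ <;>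
      first
      | exact h2 (by linear_combination h)
      | exact h2 (by linear_combination -h)
      | exact h4 (by linear_combination h)
      | exact h4 (by linear_combination -h)
      | exact h6 (by linear_combination h)
      | exact h6 (by linear_combination -h)
  have hb := count_bound hF ZMod.stdAddChar (ZMod.isPrimitive_stdAddChar p) _ hμ (c : ZMod p)
    (t : ZMod p) ht'
  rw [ZMod.card] at hb
  have hN : ((res p).filter (fun v => (p : ℤ) ∣ nsq v - c ∧ (p : ℤ) ∣ Q2 v - t)).card =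
      (univ.filter (fun w : Fin 4 → ZMod p => ∑ j, w j ^ 2 = c ∧
        ∑ j, (![1, 3, 5, 7] : Fin 4 → ZMod p) j * w j ^ 2 = t)).card := by
    have h := sum_res_eq_sum_zmod (l := p) (fun w => if ∑ j, w j ^ 2 = c ∧
      ∑ j, (![1, 3, 5, 7] : Fin 4 → ZMod p) j * w j ^ 2 = t then 1 else 0)
    rw [sum_boole, sum_boole] at h
    rw [← Nat.cast_inj (R := ℂ), ← h]
    congr 2
    refine filter_congr fun v _ => ?_
    rw [← ZMod.intCast_zmod_eq_zero_iff_dvd, ← ZMod.intCast_zmod_eq_zero_iff_dvd]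
    unfold nsq Q2
    simp only [Fin.sum_univ_four]
    push_cast
    simp [sub_eq_zero]
  rw [hN]
  set A := |((univ.filter (fun w : Fin 4 → ZMod p => ∑ j, w j ^ 2 = c ∧
        ∑ j, (![1, 3, 5, 7] : Fin 4 → ZMod p) j * w j ^ 2 = t)).card : ℝ) - (p : ℝ) ^ 2|
  have hp5 : (5 : ℝ) ≤ p := by exact_mod_cast h5
  have hpos : 0 < ((p : ℝ) - 1) * (p : ℝ) ^ 2 := mul_pos (by linarith) (by positivity)
  refine le_of_mul_le_mul_left (hb.trans ?_) hpos
  have : (0 : ℝ) < (p : ℝ) ^ 3 := by positivity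
  nlinarith

end Pool.Agent.P.MP_0ad054_nt.Clu
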