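import Pool.Agent.P.MP_0ad054_nt.Clu.Defs

/-! The mean square of the model. -/

namespace Pool.Agent.P.MP_0ad054_nt.Clu

open Finset Pool.Agent.Lib.H9 Pool.Agent.P.MP_0ad054_nt.Sun Pool.Agent.P.MP_0ad054_nt.Sun.SphereP

namespace L2P

lemma card_cls (m : ℕ) (hm : 0 < m) (t : ℤ) :
    ((Ico (0 : ℤ) m).filter (fun d => (m : ℤ) ∣ d - t)).card = 1 := by
  have hm' : (0 : ℤ) < m := by exact_mod_cast hm
  rw [Finset.card_eq_one]
  refine ⟨t % m, ?_⟩
  ext d
  simp only [mem_filter, mem_Ico, mem_singleton]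
  constructor
  · rintro ⟨⟨h0, h1⟩, h2⟩
    have h3 : d % m = t % m := Int.ModEq.symm ((Int.modEq_iff_dvd).2 h2)
    rw [← h3, Int.emod_eq_of_lt h0 h1]
  · rintro rfl
    refine ⟨⟨Int.emod_nonneg _ hm'.ne', Int.emod_lt_of_pos _ hm'⟩, ?_⟩
    exact (Int.modEq_iff_dvd).1 (Int.mod_modEq t m).symm

lemma sum_ind (m : ℕ) (hm : 0 < m) (t : ℤ) (c : ℝ) :
    ∑ d ∈ Ico (0 : ℤ) m, (if (m : ℤ) ∣ d - t then c else 0) = c := by
  rw [← Finset.sum_filter, Finset.sum_const, card_cls m hm t, one_smul]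

lemma card_Ico0 (m : ℕ) : (Ico (0 : ℤ) m).card = m := by simp

lemma sum_ph (m : ℕ) (hm : 0 < m) (t : ℤ) : ∑ d ∈ Ico (0 : ℤ) m, ph m (d - t) = 0 := by
  unfold ph
  rw [Finset.sum_sub_distrib, sum_ind m hm t, Finset.sum_const, card_Ico0]
  simp

lemma sum_ph_mul (m : ℕ) (hm : 0 < m) (t u : ℤ) :
    ∑ d ∈ Ico (0 : ℤ) m, ph m (d - t) * ph m (d - u) = m * ph m (t - u) := by
  have h : ∀ d : ℤ, ph m (d - t) * ph m (d - u) =
      (if (m : ℤ) ∣ d - t then (m : ℝ) * ph m (t - u) else 0) - ph m (d - u) := by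
    intro d
    by_cases h1 : (m : ℤ) ∣ d - t
    · have h2 : ph m (d - u) = ph m (t - u) := by
        unfold ph
        have : ((m : ℤ) ∣ d - u) ↔ ((m : ℤ) ∣ t - u) := by
          have e : d - u = (d - t) + (t - u) := by ring
          rw [e]
          exact (dvd_add_right h1)
        simp only [this]
      rw [if_pos h1, h2]
      have : ph m (d - t) = m - 1 := by unfold ph; rw [if_pos h1]
      rw [this]; ring
    · rw [if_neg h1]
      have : ph m (d - t) = -1 := by unfold ph; rw [if_neg h1]; ring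
      rw [this]; ring
  simp_rw [h]
  rw [Finset.sum_sub_distrib, sum_ind m hm t, sum_ph m hm u, sub_zero]

lemma abs_ph (m : ℕ) (hm : 0 < m) (d : ℤ) : |ph m d| ≤ m := by
  have : (1 : ℝ) ≤ m := by exact_mod_cast hm
  unfold ph
  split_ifs
  · rw [abs_le]; constructor <;> linarith
  · rw [abs_le]; constructor <;> linarith

lemma ph_per (m : ℕ) (d d' t : ℤ) (h : (m : ℤ) ∣ d - d') : ph m (d - t) = ph m (d' - t) := by
  unfold ph
  have : ((m : ℤ) ∣ d - t) ↔ ((m : ℤ) ∣ d' - t) := by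
    have e : d - t = (d - d') + (d' - t) := by ring
    rw [e]
    exact (dvd_add_right h)
  simp only [this]

lemma mem_sub {y k : ℕ} {T : Finset ℕ} (h : T ∈ sub y k) :
    (∀ p ∈ T, p.Prime ∧ p ≤ y) ∧ T.card ≤ k := by
  unfold sub at h
  rw [mem_filter, mem_powerset] at h
  refine ⟨fun p hp => ?_, h.2⟩
  have := h.1 hp
  rw [Nat.mem_primesLE] at this
  exact ⟨this.2, this.1⟩

lemma prod_le {y e k : ℕ} (hy : 1 ≤ y) {T : Finset ℕ} (h : T ∈ sub y k) :
    ∏ p ∈ T, (p : ℝ) ^ e ≤ (y : ℝ) ^ (e * k) := by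
  obtain ⟨h1, h2⟩ := mem_sub h
  have hy' : (1 : ℝ) ≤ y := by exact_mod_cast hy
  calc ∏ p ∈ T, (p : ℝ) ^ e ≤ ∏ _p ∈ T, (y : ℝ) ^ e := by
        refine Finset.prod_le_prod (fun p _ => by positivity) (fun p hp => ?_)
        exact pow_le_pow_left₀ (by positivity) (by exact_mod_cast (h1 p hp).2) e
    _ = (y : ℝ) ^ (e * T.card) := by rw [Finset.prod_const, ← pow_mul]
    _ ≤ _ := pow_le_pow_right₀ hy' (Nat.mul_le_mul_left e h2)

lemma prod_union_ite (T U : Finset ℕ) (f g : ℕ → ℝ) :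
    ∏ p ∈ T ∪ U, ((if p ∈ T then f p else 1) * (if p ∈ U then g p else 1)) =
      (∏ p ∈ T, f p) * ∏ p ∈ U, g p := by
  rw [Finset.prod_mul_distrib, Finset.prod_ite_mem, Finset.prod_ite_mem,
    Finset.union_inter_cancel_left, Finset.union_inter_cancel_right]

/-- one pair of sets of primes -/
lemma pair (h1 : S_Per) {y e k : ℕ} (hy : 1 ≤ y) {T U : Finset ℕ} (hT : T ∈ sub y k)
    (hU : U ∈ sub y k) (a b t u : ℤ) :
    ∑ d ∈ Ico a b, (∏ p ∈ T, ph (p ^ e) (d - t)) * ∏ p ∈ U, ph (p ^ e) (d - u) ≤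
      ((Ico a b).card : ℝ) * (if T = U then ∏ p ∈ T, ph (p ^ e) (t - u) else 0) +
        2 * ((y : ℝ) ^ (e * k)) ^ 4 := by
  have hp : ∀ p ∈ T ∪ U, p.Prime := by
    intro p hp
    rcases mem_union.1 hp with h | h
    · exact ((mem_sub hT).1 p h).1
    · exact ((mem_sub hU).1 p h).1
  have key := h1 (T ∪ U) e
    (fun p d => (if p ∈ T then ph (p ^ e) (d - t) else 1) * (if p ∈ U then ph (p ^ e) (d - u) else 1))
    (fun p => (if p ∈ T then (p : ℝ) ^ e else 1) * (if p ∈ U then (p : ℝ) ^ e else 1)) a b hp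
    (by
      intro p _ d d' hd
      have hd' : ((p ^ e : ℕ) : ℤ) ∣ d - d' := by exact_mod_cast hd
      simp only [ph_per (p ^ e) d d' _ hd'])
    (by
      intro p hpp d
      have h0 : 0 < p ^ e := pow_pos (hp p hpp).pos e
      have hb : ∀ x : ℤ, |ph (p ^ e) x| ≤ (p : ℝ) ^ e := fun x => by
        have := abs_ph (p ^ e) h0 x
        rwa [Nat.cast_pow] at this
      rw [abs_mul]
      refine mul_le_mul ?_ ?_ (abs_nonneg _) (by split_ifs <;> positivity)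
      · split_ifs
        · exact hb _
        · simp
      · split_ifs
        · exact hb _
        · simp)
  simp only [prod_union_ite] at key
  have hmean : ∏ p ∈ T ∪ U, ((∑ d ∈ Ico (0 : ℤ) ((p : ℤ) ^ e),
      (if p ∈ T then ph (p ^ e) (d - t) else 1) * (if p ∈ U then ph (p ^ e) (d - u) else 1)) /
        (p : ℝ) ^ e) = (if T = U then ∏ p ∈ T, ph (p ^ e) (t - u) else 0) := by
    split_ifs with hTU
    · subst hTU
      rw [Finset.union_self]
      refine Finset.prod_congr rfl (fun p hpp => ?_)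
      have h0 : 0 < p ^ e := pow_pos ((mem_sub hT).1 p hpp).1.pos e
      simp only [if_pos hpp]
      have := sum_ph_mul (p ^ e) h0 t u
      push_cast at this
      rw [this]
      have h3 : (0 : ℝ) < (p : ℝ) ^ e := by exact_mod_cast h0
      field_simp
    · have : ∃ p, ¬ (p ∈ T ↔ p ∈ U) := by
        by_contra hc
        push Not at hc
        exact hTU (Finset.ext hc)
      obtain ⟨p, hp'⟩ := this
      by_cases hpT : p ∈ T
      · have hpU : p ∉ U := fun h => hp' ⟨fun _ => h, fun _ => hpT⟩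
        refine Finset.prod_eq_zero (mem_union_left U hpT) ?_
        have h0 : 0 < p ^ e := pow_pos ((mem_sub hT).1 p hpT).1.pos e
        simp only [if_pos hpT, if_neg hpU, mul_one]
        have := sum_ph (p ^ e) h0 t
        push_cast at this
        rw [this, zero_div]
      · have hpU : p ∈ U := by
          by_contra h
          exact hp' ⟨fun h' => absurd h' hpT, fun h' => absurd h' h⟩
        refine Finset.prod_eq_zero (mem_union_right T hpU) ?_
        have h0 : 0 < p ^ e := pow_pos ((mem_sub hU).1 p hpU).1.pos e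
        simp only [if_neg hpT, if_pos hpU, one_mul]
        have := sum_ph (p ^ e) h0 u
        push_cast at this
        rw [this, zero_div]
  rw [hmean] at key
  have hA := prod_le (e := e) hy hT
  have hB := prod_le (e := e) hy hU
  have hA0 : 0 ≤ ∏ p ∈ T, (p : ℝ) ^ e := Finset.prod_nonneg (fun p _ => by positivity)
  have hB0 : 0 ≤ ∏ p ∈ U, (p : ℝ) ^ e := Finset.prod_nonneg (fun p _ => by positivity)
  have hQ : 0 ≤ (y : ℝ) ^ (e * k) := by positivity
  have hAB : (∏ p ∈ T, (p : ℝ) ^ e) * ∏ p ∈ U, (p : ℝ) ^ e ≤ ((y : ℝ) ^ (e * k)) ^ 2 := by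
    rw [sq]; exact mul_le_mul hA hB hB0 hQ
  have hUn : ∏ p ∈ T ∪ U, (p : ℝ) ^ e ≤ (∏ p ∈ T, (p : ℝ) ^ e) * ∏ p ∈ U, (p : ℝ) ^ e := by
    rw [← prod_union_ite]
    refine Finset.prod_le_prod (fun p _ => by positivity) (fun p hpp => ?_)
    have h4 : (1 : ℝ) ≤ (p : ℝ) ^ e := one_le_pow₀ (by exact_mod_cast (hp p hpp).one_le)
    rcases mem_union.1 hpp with h | h
    · rw [if_pos h]
      refine le_mul_of_one_le_right (by positivity) ?_
      split_ifs
      · exact h4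
      · exact le_rfl
    · rw [if_pos h]
      refine le_mul_of_one_le_left (by positivity) ?_
      split_ifs
      · exact h4
      · exact le_rfl
  have hfin : 2 * (∏ p ∈ T ∪ U, (p : ℝ) ^ e) * ((∏ p ∈ T, (p : ℝ) ^ e) * ∏ p ∈ U, (p : ℝ) ^ e) ≤
      2 * ((y : ℝ) ^ (e * k)) ^ 4 := by
    have h5 : (∏ p ∈ T ∪ U, (p : ℝ) ^ e) * ((∏ p ∈ T, (p : ℝ) ^ e) * ∏ p ∈ U, (p : ℝ) ^ e) ≤
        ((y : ℝ) ^ (e * k)) ^ 2 * ((y : ℝ) ^ (e * k)) ^ 2 :=
      mul_le_mul (hUn.trans hAB) hAB (mul_nonneg hA0 hB0) (by positivity)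
    nlinarith
  have := (abs_le.1 key).2
  linarith

/-- the kernel reproduces itself on an interval -/
lemma conv (h1 : S_Per) (h2 : S_Om) {y e k r : ℕ} (hy : 1 ≤ y) (he : 1 ≤ e)
    (hr : (y ^ (e * k)) ^ 6 ≤ r) (s t u : ℤ) :
    ∑ d ∈ Ico s (s + r), KK y e k (d - t) * KK y e k (d - u) ≤ r * KK y e k (t - u) + 2 * r := by
  have hc : (((Ico s (s + r)).card : ℕ) : ℝ) = r := by simp
  have hy' : (1 : ℝ) ≤ y := by exact_mod_cast hy
  have hsub : ((sub y k).card : ℝ) ≤ (y : ℝ) ^ (e * k) := by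
    have h3 : ((sub y k).card : ℝ) ≤ (y : ℝ) ^ k := by exact_mod_cast h2.2.2.2.1 y k hy
    exact h3.trans (pow_le_pow_right₀ hy' (Nat.le_mul_of_pos_left k he))
  have hr' : ((y : ℝ) ^ (e * k)) ^ 6 ≤ r := by exact_mod_cast hr
  unfold KK
  simp_rw [Finset.sum_mul_sum]
  rw [Finset.sum_comm]
  calc ∑ T ∈ sub y k, ∑ d ∈ Ico s (s + r), ∑ U ∈ sub y k,
        (∏ p ∈ T, ph (p ^ e) (d - t)) * ∏ p ∈ U, ph (p ^ e) (d - u)
      ≤ ∑ T ∈ sub y k, ∑ U ∈ sub y k,
        ((r : ℝ) * (if T = U then ∏ p ∈ T, ph (p ^ e) (t - u) else 0) +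
          2 * ((y : ℝ) ^ (e * k)) ^ 4) := by
        refine Finset.sum_le_sum (fun T hT => ?_)
        rw [Finset.sum_comm]
        refine Finset.sum_le_sum (fun U hU => ?_)
        have := pair h1 (e := e) hy hT hU s (s + r) t u
        rwa [hc] at this
    _ = r * ∑ T ∈ sub y k, ∏ p ∈ T, ph (p ^ e) (t - u) +
          ((sub y k).card : ℝ) * (((sub y k).card : ℝ) * (2 * ((y : ℝ) ^ (e * k)) ^ 4)) := by
        simp_rw [Finset.sum_add_distrib, Finset.sum_const, nsmul_eq_mul]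
        congr 1
        rw [Finset.mul_sum]
        refine Finset.sum_congr rfl (fun T hT => ?_)
        rw [← Finset.mul_sum, Finset.sum_ite_eq, if_pos hT]
    _ ≤ _ := by
        have hQ : 0 ≤ (y : ℝ) ^ (e * k) := by positivity
        have h6 : ((sub y k).card : ℝ) * (((sub y k).card : ℝ) * (2 * ((y : ℝ) ^ (e * k)) ^ 4)) ≤
            (y : ℝ) ^ (e * k) * ((y : ℝ) ^ (e * k) * (2 * ((y : ℝ) ^ (e * k)) ^ 4)) := by
          gcongr
        nlinarith

/-- one window -/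
lemma window (h1 : S_Per) (h2 : S_Om) {y e k r : ℕ} (hy : 1 ≤ y) (he : 1 ≤ e)
    (hr : (y ^ (e * k)) ^ 6 ≤ r) (s : ℤ) (A : Finset ℤ) (hA : A ⊆ Ico s (s + r)) :
    ∑ d ∈ Ico s (s + r), (∑ t ∈ A, KK y e k (d - t)) ^ 2 ≤ 5 * (r : ℝ) ^ 3 := by
  have hcA : (A.card : ℝ) ≤ r := by
    have := Finset.card_le_card hA
    simp only [Int.card_Ico, add_sub_cancel_left, Int.toNat_natCast] at this
    exact_mod_cast this
  have hr0 : (0 : ℝ) ≤ r := by positivity
  have hA0 : (0 : ℝ) ≤ A.card := by positivity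
  set X := ∑ d ∈ Ico s (s + r), (∑ t ∈ A, KK y e k (d - t)) ^ 2 with hX
  have e1 : X ≤ ∑ t ∈ A, ((r : ℝ) * ∑ u ∈ A, KK y e k (t - u) + A.card * (2 * r)) := by
    rw [hX]
    simp_rw [sq, Finset.sum_mul_sum]
    rw [Finset.sum_comm]
    refine Finset.sum_le_sum (fun t _ => ?_)
    rw [Finset.sum_comm, Finset.mul_sum, ← nsmul_eq_mul, ← Finset.sum_const,
      ← Finset.sum_add_distrib]
    exact Finset.sum_le_sum (fun u _ => conv h1 h2 hy he hr s t u)
  have e2 : ∑ t ∈ A, ((r : ℝ) * ∑ u ∈ A, KK y e k (t - u) + A.card * (2 * r)) ≤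
      ∑ t ∈ A, ((∑ u ∈ A, KK y e k (t - u)) ^ 2 / 2 + 5 / 2 * (r : ℝ) ^ 2) := by
    refine Finset.sum_le_sum (fun t _ => ?_)
    nlinarith [sq_nonneg ((∑ u ∈ A, KK y e k (t - u)) - r), mul_le_mul_of_nonneg_right hcA hr0]
  have e3 : ∑ t ∈ A, (∑ u ∈ A, KK y e k (t - u)) ^ 2 ≤ X :=
    Finset.sum_le_sum_of_subset_of_nonneg hA (fun _ _ _ => sq_nonneg _)
  replace e2 := e1.trans e2
  rw [Finset.sum_add_distrib, ← Finset.sum_div, Finset.sum_const, nsmul_eq_mul] at e2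
  have e4 : (A.card : ℝ) * (5 / 2 * (r : ℝ) ^ 2) ≤ r * (5 / 2 * (r : ℝ) ^ 2) := by gcongr
  nlinarith

/-- the part of `S` in a window -/
noncomputable def wn (S : Finset ℕ) (r : ℕ) (s : ℤ) : Finset ℤ :=
  (S.image (fun t : ℕ => (t : ℤ))).filter (fun t => t ∈ Ico s (s + r))

lemma gS_eq (y e k r : ℕ) (S : Finset ℕ) (m : ℤ) :
    gS y e k r S m = (∑ i ∈ range r, ∑ t ∈ wn S r (m - i), KK y e k (m - t)) / (r : ℝ) ^ 2 := by
  unfold gS om wn
  simp_rw [Finset.sum_filter]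
  have hinj : Set.InjOn (fun t : ℕ => (t : ℤ)) S := fun a _ b _ h => Int.ofNat_inj.1 h
  simp_rw [Finset.sum_image hinj]
  rw [Finset.sum_comm, Finset.sum_div]
  refine Finset.sum_congr rfl (fun t _ => ?_)
  rw [div_mul_eq_mul_div, Finset.sum_mul]
  congr 1
  refine Finset.sum_congr rfl (fun i _ => ?_)
  by_cases h : (t : ℤ) ∈ Ico (m - i) (m - i + r)
  · rw [if_pos h]
    rw [mem_Ico] at h
    rw [Finset.sum_eq_single (t - (m - i)).toNat]
    · rw [if_pos (by omega), one_mul]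
    · intro j _ hj
      rw [if_neg (by omega)]
    · intro hj
      exact absurd (mem_range.2 (by omega)) hj
  · rw [if_neg h]
    rw [mem_Ico] at h
    rw [Finset.sum_eq_zero, zero_mul]
    intro j hj
    rw [mem_range] at hj
    rw [if_neg (by omega)]

end L2P

open L2P in
theorem pL2 (h1 : S_Per) (h2 : S_Om) : S_L2 := by
  intro y e k r N S hy he hr
  have hr1 : 1 ≤ r := le_trans (Nat.one_le_pow _ _ (Nat.pow_pos hy)) hr
  have hr0 : (0 : ℝ) < r := by exact_mod_cast hr1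
  set G : ℤ → ℤ → ℝ := fun s m => (∑ t ∈ wn S r s, KK y e k (m - t)) ^ 2 with hG
  have a1 : ∀ m : ℤ, gS y e k r S m ^ 2 ≤ (∑ i ∈ range r, G (m - i) m) / (r : ℝ) ^ 3 := by
    intro m
    rw [gS_eq, div_pow, div_le_div_iff₀ (by positivity) (by positivity)]
    have := sq_sum_le_card_mul_sum_sq (s := range r)
      (f := fun i : ℕ => ∑ t ∈ wn S r (m - i), KK y e k (m - t))
    rw [card_range] at this
    calc _ ≤ ((r : ℝ) * ∑ i ∈ range r, G (m - i) m) * (r : ℝ) ^ 3 := by gcongr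
      _ = _ := by ring
  have a2 : ∑ m ∈ Icc 3 (7 * N), ∑ i ∈ range r, G ((m : ℕ) - (i : ℕ)) (m : ℕ) ≤
      ∑ s ∈ Ico (-(r : ℤ)) (7 * N), ∑ d ∈ Ico (s + 1) (s + 1 + r), G (s + 1) d := by
    rw [Finset.sum_sigma', Finset.sum_sigma']
    have hinj : Set.InjOn
        (fun x : (_ : ℕ) × ℕ => (⟨(x.1 : ℤ) - x.2 - 1, (x.1 : ℤ)⟩ : (_ : ℤ) × ℤ))
        ((Icc 3 (7 * N)).sigma (fun _ => range r) : Finset ((_ : ℕ) × ℕ)) := by
      rintro ⟨a, b⟩ _ ⟨c, d⟩ _ h
      simp only [Sigma.mk.injEq, heq_eq_eq] at h ⊢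
      omega
    have hs := Finset.sum_image (f := fun x : (_ : ℤ) × ℤ => G (x.1 + 1) x.2) hinj
    simp only [sub_add_cancel] at hs
    rw [← hs]
    refine Finset.sum_le_sum_of_subset_of_nonneg ?_ (fun _ _ _ => sq_nonneg _)
    intro x hx
    obtain ⟨⟨a, b⟩, hab, rfl⟩ := Finset.mem_image.1 hx
    simp only [mem_sigma, mem_Icc, mem_range, mem_Ico] at hab ⊢
    omega
  have a3 : ∑ s ∈ Ico (-(r : ℤ)) (7 * N), ∑ d ∈ Ico (s + 1) (s + 1 + r), G (s + 1) d ≤
      (7 * N + r) * (5 * (r : ℝ) ^ 3) := by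
    calc _ ≤ ∑ _s ∈ Ico (-(r : ℤ)) (7 * N), 5 * (r : ℝ) ^ 3 :=
          Finset.sum_le_sum (fun s _ => window h1 h2 hy he hr (s + 1) _
            (fun t ht => (mem_filter.1 ht).2))
      _ = _ := by
          rw [Finset.sum_const, nsmul_eq_mul, Int.card_Ico]
          congr 1
          have : (7 * (N : ℤ) - -(r : ℤ)).toNat = 7 * N + r := by omega
          rw [this]; push_cast; ring
  calc _ ≤ ∑ m ∈ Icc 3 (7 * N), (∑ i ∈ range r, G ((m : ℕ) - (i : ℕ)) (m : ℕ)) / (r : ℝ) ^ 3 :=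
        Finset.sum_le_sum (fun m _ => a1 _)
    _ ≤ _ := by
        rw [← Finset.sum_div, div_le_iff₀ (by positivity)]
        calc _ ≤ _ := a2.trans a3
          _ = _ := by ring

end Pool.Agent.P.MP_0ad054_nt.Clu
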