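import Pool.Agent.P.MP_0ad054_nt.Clu.Defs

/-! The truncated product of the local means is bounded below. -/

namespace Pool.Agent.P.MP_0ad054_nt.Clu

open Finset Pool.Agent.Lib.H9 Pool.Agent.P.MP_0ad054_nt.Sun Pool.Agent.P.MP_0ad054_nt.Sun.SphereP

namespace LowP

/-- exponential growth is beaten by two to the square -/
theorem grow (a b : ℕ) (E : ℝ) (hE : 1 ≤ E) : ∃ l0 : ℕ, ∀ l : ℕ, l0 ≤ l →
    (3 * 2000 ^ l : ℝ) ^ a * (E * (l : ℝ) ^ b) * 3 ^ l * (2 ^ l) ^ 2 ≤ 2 ^ (l ^ 2) := by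
  obtain ⟨l0, h0⟩ := pow_unbounded_of_one_lt ((6000 : ℝ) ^ a * (E * 2 ^ b) * 3 * 4)
    (by norm_num : (1 : ℝ) < 2)
  refine ⟨l0 + 1, fun l hl => ?_⟩
  have hl0 : l ≠ 0 := by omega
  have a1 : (3 * 2000 ^ l : ℝ) ≤ 6000 ^ l := by
    rw [show (6000 : ℝ) = 3 * 2000 by norm_num, mul_pow]
    gcongr
    exact le_self_pow₀ (by norm_num) hl0
  have a2 : E ≤ E ^ l := le_self_pow₀ hE hl0
  have a3 : (l : ℝ) ≤ 2 ^ l := by exact_mod_cast (Nat.lt_two_pow_self (n := l)).le
  have a4 : (2 : ℝ) ^ l0 ≤ 2 ^ l := pow_le_pow_right₀ (by norm_num) (by omega)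
  calc (3 * 2000 ^ l : ℝ) ^ a * (E * (l : ℝ) ^ b) * 3 ^ l * (2 ^ l) ^ 2
      ≤ (6000 ^ l : ℝ) ^ a * (E ^ l * (2 ^ l) ^ b) * 3 ^ l * (2 ^ l) ^ 2 := by gcongr
    _ = ((6000 : ℝ) ^ a * (E * 2 ^ b) * 3 * 4) ^ l := by
        rw [show (4 : ℝ) = 2 ^ 2 by norm_num]
        simp only [mul_pow, ← pow_mul, mul_comm l]
    _ ≤ (2 ^ l) ^ l := by gcongr; linarith
    _ = 2 ^ (l ^ 2) := by rw [← pow_mul, sq]

/-- the exponential of the sum of reciprocals of primes -/
theorem exp_sum {l : ℕ} (hl : 4 ≤ l) :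
    ∏ p ∈ Nat.primesLE (2 ^ l), Real.exp (2000 / p) ≤ Real.exp 16000 * (l : ℝ) ^ 8000 := by
  have hl' : (4 : ℝ) ≤ l := by exact_mod_cast hl
  have h1 := sum_inv_primes_le (y := 2 ^ l) (le_self_pow₀ (by norm_num) (by omega))
  have h2 : Real.log (Real.log ((2 ^ l : ℕ) : ℝ) + 1) ≤ Real.log l := by
    have := Real.log_two_lt_d9
    have := Real.log_two_gt_d9
    push_cast
    rw [Real.log_pow]
    exact Real.log_le_log (by positivity) (by nlinarith)
  rw [← Real.exp_sum, ← Real.exp_log (by linarith : (0 : ℝ) < l), ← Real.exp_nat_mul,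
    ← Real.exp_add, Real.exp_le_exp]
  have : ∑ p ∈ Nat.primesLE (2 ^ l), (2000 / p : ℝ) =
      2000 * ∑ p ∈ Nat.primesLE (2 ^ l), 1 / (p : ℝ) := by
    rw [mul_sum]
    exact sum_congr rfl fun p _ => by ring
  rw [this]
  push_cast at h1 h2 ⊢
  linarith

/-- at most 2001 numbers are small -/
theorem prod_small (S : Finset ℕ) (x : ℝ) :
    ∃ m ≤ 2001, ∏ p ∈ S, (if p ≤ 2000 then x else 1) = x ^ m := by
  refine ⟨(S.filter (· ≤ 2000)).card, ?_, by rw [← prod_filter, prod_const]⟩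
  refine (card_le_card (t := range 2001) fun p hp => ?_).trans (by simp)
  have := (mem_filter.1 hp).2
  exact mem_range.2 (by omega)

open Classical in
/-- few primes divide all coordinates -/
theorem prod_bad {l n : ℕ} {v : Fin 4 → ℤ} (S : Finset ℕ) (hS : ∀ p ∈ S, p.Prime)
    (hv : nsq v = n) (hd : ∀ d : ℕ, 2 ^ l < d → ¬ d ^ 2 ∣ n) :
    ∏ p ∈ S, (if pr p v then (1 : ℝ) else 3) ≤ 3 ^ l := by
  rw [prod_ite, prod_const_one, one_mul, prod_const]
  refine pow_le_pow_right₀ (by norm_num) ?_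
  set T := S.filter (fun p => ¬ pr p v)
  have h1 : ∏ p ∈ T, p ∣ cont v :=
    Finset.prod_primes_dvd _ (fun p hp => (hS p (mem_filter.1 hp).1).prime)
      fun p hp => dvd_cont.2 (not_not.1 (mem_filter.1 hp).2)
  have h2 := sq_dvd_nsq (dvd_cont.1 h1)
  rw [hv] at h2
  have h3 : ∏ p ∈ T, p ≤ 2 ^ l := not_lt.1 fun h => hd _ h (by exact_mod_cast h2)
  have h4 : 2 ^ T.card ≤ ∏ p ∈ T, p :=
    pow_card_le_prod _ _ _ fun p hp => (hS p (mem_filter.1 hp).1).two_le
  exact (Nat.pow_le_pow_iff_right (by norm_num)).1 (h4.trans h3)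

theorem exp_low {x : ℝ} (h0 : 0 ≤ x) (h : x ≤ 1 / 2) : (Real.exp (2 * x))⁻¹ ≤ 1 - x := by
  have h1 := Real.add_one_le_exp (2 * x)
  rw [inv_le_iff_one_le_mul₀ (Real.exp_pos _)]
  nlinarith

end LowP

open Classical in
theorem pLow (h1 : S_Om) (h2 : S_Prod) (h3 : S_Big) (h4 : S_Small) : S_Low := by
  obtain ⟨W, c0, hW, hW2, hc0, hc1, hS⟩ := h4 2000
  obtain ⟨l0, hl0⟩ := LowP.grow 2001 8000 (Real.exp 16000) (Real.one_le_exp (by norm_num))
  refine ⟨W, c0 ^ 2001 / Real.exp 16000, 8000, l0 + 6, hW, hW2, by positivity, fun n0 hn0 => ?_⟩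
  obtain ⟨a, ha, hrho⟩ := hS n0 hn0
  refine ⟨a, ha, fun l n t v hl hn hWn hWt ht hlt hv hd => ?_⟩
  have hP : ∀ p ∈ Nat.primesLE (2 ^ l), p.Prime := fun p hp => (Nat.mem_primesLE.1 hp).2
  have hbig : ∀ p ∈ Nat.primesLE (2 ^ l), ¬ p ≤ 2000 → |rho p l n t - 1| ≤ 1000 / p := by
    intro p hp h
    refine h3 p l n t (hP p hp) (by omega) (by omega) fun hpt => ?_
    have := (Nat.prime_dvd_prime_iff_eq (hP p hp) ht).1 (by exact_mod_cast hpt)
    have := (Nat.mem_primesLE.1 hp).1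
    omega
  have hE := LowP.exp_sum (l := l) (by omega)
  have hlpos : (0 : ℝ) < l := by exact_mod_cast (by omega : 0 < l)
  have hA : (if cont v = 1 then c0 ^ 2001 / Real.exp 16000 / (l : ℝ) ^ 8000 else 0) ≤
      ∏ p ∈ Nat.primesLE (2 ^ l), (1 + aa p l t v) := by
    split_ifs with hc
    · have hpr : ∀ p ∈ Nat.primesLE (2 ^ l), pr p v := fun p hp h =>
        (hP p hp).one_lt.ne' (Nat.dvd_one.1 (hc ▸ dvd_cont.2 h))
      obtain ⟨m, hm, e⟩ := LowP.prod_small (Nat.primesLE (2 ^ l)) c0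
      calc c0 ^ 2001 / Real.exp 16000 / (l : ℝ) ^ 8000
          = c0 ^ 2001 * (Real.exp 16000 * (l : ℝ) ^ 8000)⁻¹ := by rw [div_div, div_eq_mul_inv]
        _ ≤ c0 ^ m * (∏ p ∈ Nat.primesLE (2 ^ l), Real.exp (2000 / p))⁻¹ :=
            mul_le_mul (pow_le_pow_of_le_one hc0.le hc1 hm)
              (inv_anti₀ (prod_pos fun _ _ => Real.exp_pos _) hE) (by positivity) (by positivity)
        _ = ∏ p ∈ Nat.primesLE (2 ^ l),
              ((if p ≤ 2000 then c0 else 1) * (Real.exp (2000 / p))⁻¹) := by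
            rw [prod_mul_distrib, e, prod_inv_distrib]
        _ ≤ _ := by
            refine prod_le_prod (fun p _ => by split_ifs <;> positivity) fun p hp => ?_
            rw [aa, if_pos (hpr p hp), hv, add_sub_cancel]
            split_ifs with h
            · refine le_trans ?_ (hrho p l n t (hP p hp) h (by omega) hWn hWt)
              exact mul_le_of_le_one_right hc0.le
                (inv_le_one_of_one_le₀ (Real.one_le_exp (by positivity)))
            · have hp' : (2000 : ℝ) ≤ p := by exact_mod_cast (not_le.1 h).le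
              have b1 := LowP.exp_low (x := 1000 / p) (by positivity)
                (by rw [div_le_iff₀ (by linarith)]; linarith)
              have b2 := (abs_le.1 (hbig p hp h)).1
              rw [show (2 * (1000 / p) : ℝ) = 2000 / p by ring] at b1
              linarith
    · refine prod_nonneg fun p _ => ?_
      rw [aa, add_sub_cancel]
      split_ifs
      · exact (h2.1 _ _ _ _).1
      · exact le_rfl
  have hB : ∏ p ∈ Nat.primesLE (2 ^ l), (1 + 2 * |aa p l t v|) ≤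
      (3 * 2000 ^ l : ℝ) ^ 2001 * (Real.exp 16000 * (l : ℝ) ^ 8000) * 3 ^ l := by
    obtain ⟨m, hm, e⟩ := LowP.prod_small (Nat.primesLE (2 ^ l)) (3 * 2000 ^ l)
    have g1 : (1 : ℝ) ≤ 2000 ^ l := one_le_pow₀ (by norm_num)
    calc ∏ p ∈ Nat.primesLE (2 ^ l), (1 + 2 * |aa p l t v|)
        ≤ ∏ p ∈ Nat.primesLE (2 ^ l), ((if p ≤ 2000 then (3 * 2000 ^ l : ℝ) else 1) *
            Real.exp (2000 / p) * (if pr p v then (1 : ℝ) else 3)) := by
          refine prod_le_prod (fun p _ => by positivity) fun p hp => ?_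
          have b0 : (1 : ℝ) ≤ Real.exp (2000 / p) := Real.one_le_exp (by positivity)
          rw [aa, hv]
          by_cases hq : pr p v
          · rw [if_pos hq, if_pos hq, mul_one]
            split_ifs with h
            · have b1 := h2.1 p l n t
              have b2 : (p : ℝ) ^ l ≤ 2000 ^ l := by gcongr; exact_mod_cast h
              have b3 : |rho p l n t - 1| ≤ 2000 ^ l := abs_le.2 ⟨by linarith, by linarith⟩
              nlinarith
            · have b1 := hbig p hp h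
              have b2 := Real.add_one_le_exp (2000 / p : ℝ)
              have b3 : (2000 / p : ℝ) = 2 * (1000 / p) := by ring
              linarith
          · rw [if_neg hq, if_neg hq, zero_sub, abs_neg, abs_one]
            split_ifs <;> nlinarith
      _ ≤ _ := by
          rw [prod_mul_distrib, prod_mul_distrib, e]
          refine mul_le_mul (mul_le_mul (pow_le_pow_right₀ (by linarith) hm) hE
            (prod_nonneg fun _ _ => (Real.exp_pos _).le) (by positivity))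
            (LowP.prod_bad _ hP hv hd) (prod_nonneg fun _ _ => by split_ifs <;> norm_num)
            (by positivity)
  have hT := (abs_le.1 (h1.2.2.2.2 (2 ^ l) (l ^ 2) fun p => aa p l t v)).1
  have hC : (∏ p ∈ Nat.primesLE (2 ^ l), (1 + 2 * |aa p l t v|)) / 2 ^ (l ^ 2) ≤
      1 / ((2 : ℝ) ^ l) ^ 2 := by
    rw [div_le_div_iff₀ (by positivity) (by positivity), one_mul]
    exact (mul_le_mul_of_nonneg_right hB (by positivity)).trans (hl0 l (by omega))
  linarith

end Pool.Agent.P.MP_0ad054_nt.Clu
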