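import Pool.Agent.P.MP_0ad054_nt.Clu.Defs
import Pool.Agent.P.MP_0ad054_nt.Main

/-! The local density at an odd prime is positive in a suitable residue class. -/

namespace Pool.Agent.P.MP_0ad054_nt.Clu

open Finset Pool.Agent.Lib.H9 Pool.Agent.P.MP_0ad054_nt.Sun Pool.Agent.P.MP_0ad054_nt.Sun.SphereP

namespace OddP

/-- a good point modulo `p` on every sphere -/
def Key (p : ℕ) : Prop :=
  ∀ c : ZMod p, ∃ (w : Fin 4 → ZMod p) (i j : Fin 4),
    w i * w j * ((cz i - cz j : ℤ) : ZMod p) ≠ 0 ∧ ∑ l, w l ^ 2 = c ∧ ¬ bad p w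

theorem small {p : ℕ} (h : ∀ c : ZMod p, ∃ x y z u : ZMod p, (x * y * 2 ≠ 0 ∨ x * z * 4 ≠ 0) ∧
    x ^ 2 + y ^ 2 + z ^ 2 + u ^ 2 = c ∧ x ^ 2 + 3 * y ^ 2 + 5 * z ^ 2 + 7 * u ^ 2 ≠ 0 ∧
    x ^ 2 + 3 * y ^ 2 + 5 * z ^ 2 + 7 * u ^ 2 ≠ 2) : Key p := by
  intro c
  obtain ⟨x, y, z, u, h1, h2, h3, h4⟩ := h c
  have a2 : ∑ l, (![x, y, z, u] : Fin 4 → ZMod p) l ^ 2 = c := by
    simpa [Fin.sum_univ_four] using h2
  have a3 : ¬ bad p ![x, y, z, u] := by
    rintro (e | e)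
    · exact h3 (by simpa using e)
    · exact h4 (by simpa using e)
  rcases h1 with h1 | h1
  · refine ⟨_, 1, 0, fun e => h1 ?_, a2, a3⟩
    have : (cz 1 - cz 0 : ℤ) = 2 := by decide
    rw [this] at e
    simpa [mul_comm y x] using e
  · refine ⟨_, 2, 0, fun e => h1 ?_, a2, a3⟩
    have : (cz 2 - cz 0 : ℤ) = 4 := by decide
    rw [this] at e
    simpa [mul_comm z x] using e

theorem cz_ne {p : ℕ} (hp : 11 ≤ p) {i j : Fin 4} (h : i ≠ j) : ¬ (p : ℤ) ∣ cz i - cz j := by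
  intro e
  have h1 : ∀ i j : Fin 4, i ≠ j → 0 < |cz i - cz j| ∧ |cz i - cz j| ≤ 6 := by decide
  have := Int.le_of_dvd (h1 i j h).1 ((dvd_abs _ _).2 e)
  have := (h1 i j h).2
  omega

theorem large {p : ℕ} [Fact p.Prime] (hp : 11 ≤ p) : Key p := by
  classical
  intro c
  have h2 : p ≠ 2 := by omega
  set A := (lev p c).filter (bad p)
  set B : Finset (Fin 4 → ZMod p) :=
    (univ : Finset (Fin 4 × ZMod p)).image fun x => Pi.single x.1 x.2
  have hA : A.card ≤ 8 * p ^ 2 := by convert card_bad_le p h2 c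
  have hB : B.card ≤ 4 * p := card_image_le.trans (by simp [ZMod.card])
  have hl : (A ∪ B).card < (lev p c).card := by
    have h1 := card_lev_ge p h2 c
    have h3 : ((A ∪ B).card : ℝ) ≤ 8 * (p : ℝ) ^ 2 + 4 * p := by
      exact_mod_cast (card_union_le A B).trans (add_le_add hA hB)
    have h4 : (11 : ℝ) ≤ p := by exact_mod_cast hp
    have h5 : ((A ∪ B).card : ℝ) < (lev p c).card := by
      nlinarith [mul_nonneg (sub_nonneg.2 h4) (sq_nonneg (p : ℝ)),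
        mul_nonneg (sub_nonneg.2 h4) (sub_nonneg.2 h4)]
    exact_mod_cast h5
  obtain ⟨w, hw, hn⟩ := exists_mem_notMem_of_card_lt_card hl
  rw [mem_union, not_or] at hn
  obtain ⟨i, hi⟩ := Function.ne_iff.1 (mem_lev.1 hw).1
  have : ∃ j, j ≠ i ∧ w j ≠ 0 := by
    by_contra hc
    refine hn.2 (mem_image.2 ⟨(i, w i), mem_univ _, funext fun j => ?_⟩)
    rcases eq_or_ne j i with rfl | e
    · simp
    · rw [Pi.single_eq_of_ne e]
      exact (not_not.1 fun e' => hc ⟨j, e, e'⟩).symm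
  obtain ⟨j, hj, hj'⟩ := this
  refine ⟨w, j, i, mul_ne_zero (mul_ne_zero hj' hi) fun e => cz_ne hp hj ?_, (mem_lev.1 hw).2,
    fun e => hn.1 (mem_filter.2 ⟨hw, e⟩)⟩
  exact (ZMod.intCast_zmod_eq_zero_iff_dvd _ _).1 e

theorem key {p : ℕ} (hp : p.Prime) (h2 : p ≠ 2) : Key p := by
  have := Fact.mk hp
  by_cases h : 11 ≤ p
  · exact large h
  have h3 : p = 3 ∨ p = 5 ∨ p = 7 := by
    rw [not_le] at h
    interval_cases p <;> simp_all (config := {decide := true})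
  rcases h3 with rfl | rfl | rfl <;> exact small (by decide +kernel)

theorem card_P0 (h : S_Fib) {p e : ℕ} (hp : p.Prime) (h2 : p ≠ 2) (he : 1 ≤ e) (n : ℤ) :
    (P0 p e n).card ≤ p ^ (3 * (e - 1)) * p ^ 4 := by
  classical
  rw [← card_res p]
  refine card_le_mul_card_image_of_maps_to (f := fun (v : Fin 4 → ℤ) j => v j % (p : ℤ))
    (fun v _ => emod_mem_res hp.ne_zero v) _ fun r _ => ?_
  rcases ((P0 p e n).filter fun v => (fun j => v j % (p : ℤ)) = r).eq_empty_or_nonempty with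
    h0 | ⟨v, hv⟩
  · simp [h0]
  simp only [P0, mem_filter, nm, if_neg h2, Nat.cast_pow] at hv
  obtain ⟨⟨-, hv1, hv2⟩, hv3⟩ := hv
  obtain ⟨j, hj⟩ := not_forall.1 hv1
  rw [← h.1 p e n v j hp h2 he hj ((dvd_pow_self _ (by omega)).trans hv2)]
  refine card_le_card fun u hu => ?_
  simp only [P0, mem_filter, nm, if_neg h2, Nat.cast_pow] at hu ⊢
  refine ⟨hu.1.1, fun i => ?_, hu.1.2.2⟩
  exact Int.modEq_iff_dvd.1 (congrFun (hv3.trans hu.2.symm) i)

end OddP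

open OddP in
theorem pOdd (h : S_Fib) : S_Odd := by
  classical
  intro p n0 hp h2
  have := Fact.mk hp
  obtain ⟨w, i, j, h1, h3, h4⟩ := key hp h2 (n0 : ZMod p)
  obtain ⟨v0, hv⟩ : ∃ v0 : Fin 4 → ℤ, ∀ l, (v0 l : ZMod p) = w l :=
    ⟨fun l => (ZMod.intCast_surjective (w l)).choose, fun l =>
      (ZMod.intCast_surjective (w l)).choose_spec⟩
  have b1 : ¬ (p : ℤ) ∣ v0 i * v0 j * (cz i - cz j) := fun e => h1 (by
    rw [← hv, ← hv]
    exact_mod_cast (ZMod.intCast_zmod_eq_zero_iff_dvd _ _).2 e)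
  have b2 : (p : ℤ) ∣ nsq v0 - n0 := (ZMod.intCast_zmod_eq_zero_iff_dvd _ _).1 (by
    simp only [nsq, Int.cast_sub, Int.cast_sum, Int.cast_pow, hv, h3, sub_self])
  refine ⟨Q2 v0, fun e => h4 ?_, fun e n t he hn ht => ?_⟩
  · have e' := (ZMod.intCast_zmod_eq_zero_iff_dvd _ _).2 e
    simp only [Q2] at e'
    push_cast at e'
    simp only [hv, mul_eq_zero, sub_eq_zero] at e'
    exact e'
  have c1 := h.2 p e n t v0 i j hp h2 he b1 (by simpa using b2.sub hn)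
    (by simpa using ht.neg_right)
  have c2 : p ^ (2 * (e - 1)) ≤ ((P0 p e n).filter fun v => (p : ℤ) ^ e ∣ Q2 v - t).card := by
    rw [← c1]
    refine card_le_card fun u hu => ?_
    simp only [P0, mem_filter, nm, if_neg h2, Nat.cast_pow] at hu ⊢
    refine ⟨⟨hu.1, fun e' => b1 ?_, hu.2.2.1⟩, hu.2.2.2⟩
    have : (p : ℤ) ∣ v0 i := by simpa using (e' i).sub (hu.2.1 i)
    exact (this.mul_right _).mul_right _
  have c3 := card_P0 h hp h2 he n
  have c4 : 0 < (P0 p e n).card :=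
    (pow_pos hp.pos _).trans_le (c2.trans (card_filter_le _ _))
  obtain ⟨e, rfl⟩ := Nat.exists_eq_add_of_le' he
  rw [Nat.add_sub_cancel] at c2 c3
  have hp' : (0 : ℝ) < p := by exact_mod_cast hp.pos
  have d2 : (p : ℝ) ^ (2 * e) ≤
      ((P0 p (e + 1) n).filter fun v => (p : ℤ) ^ (e + 1) ∣ Q2 v - t).card := by exact_mod_cast c2
  have d3 : ((P0 p (e + 1) n).card : ℝ) ≤ (p : ℝ) ^ (3 * e) * p ^ 4 := by exact_mod_cast c3
  rw [rho, div_le_div_iff₀ (by positivity) (by exact_mod_cast c4), one_mul]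
  refine d3.trans (le_trans (le_of_eq (by ring)) (mul_le_mul_of_nonneg_right
    (mul_le_mul_of_nonneg_left d2 (by positivity)) (by positivity)))

end Pool.Agent.P.MP_0ad054_nt.Clu
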