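import Pool.Agent.P.MP_0ad054_nt.Clu.Defs

/-! Products of periodic functions on an interval. -/

namespace Pool.Agent.P.MP_0ad054_nt.Clu

open Finset Pool.Agent.Lib.H9 Pool.Agent.P.MP_0ad054_nt.Sun Pool.Agent.P.MP_0ad054_nt.Sun.SphereP

namespace PerP

theorem dvd_emod (Q d : ℤ) : Q ∣ d - d % Q := Int.dvd_self_sub_emod

theorem eq_of_dvd {Q a x y : ℤ} (hx : x ∈ Ico a (a + Q)) (hy : y ∈ Ico a (a + Q))
    (h : Q ∣ x - y) : x = y := by
  rw [mem_Ico] at hx hy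
  refine sub_eq_zero.1 (Int.eq_zero_of_abs_lt_dvd h (abs_lt.2 ⟨?_, ?_⟩)) <;> omega

theorem emod_mem {Q : ℤ} (hQ : 0 < Q) (d : ℤ) : d % Q ∈ Ico 0 Q :=
  mem_Ico.2 ⟨Int.emod_nonneg _ hQ.ne', Int.emod_lt_of_pos _ hQ⟩

theorem shift {Q : ℤ} (hQ : 0 < Q) {G : ℤ → ℝ} (h : ∀ d d', Q ∣ d - d' → G d = G d') (a : ℤ) :
    ∑ d ∈ Ico a (a + Q), G d = ∑ d ∈ Ico 0 Q, G d := by
  have hi : ∀ x ∈ Ico a (a + Q), ∀ y ∈ Ico a (a + Q), x % Q = y % Q → x = y := fun x hx y hy e =>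
    eq_of_dvd hx hy (Int.ModEq.dvd e.symm)
  refine sum_bij (fun d _ => d % Q) (fun d _ => emod_mem hQ d) (fun x hx y hy => hi x hx y hy)
    (fun b hb => ?_) fun d _ => h _ _ (dvd_emod Q d)
  obtain ⟨x, hx, e⟩ := surj_on_of_inj_on_of_card_le (s := Ico a (a + Q)) (t := Ico 0 Q)
    (fun d _ => d % Q) (fun d _ => emod_mem hQ d) (fun x y hx hy => hi x hx y hy) (by simp) b hb
  exact ⟨x, hx, e.symm⟩

theorem abs_sum_le {G : ℤ → ℝ} {b : ℝ} (hb : ∀ d, |G d| ≤ b) (s : Finset ℤ) :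
    |∑ d ∈ s, G d| ≤ s.card * b :=
  (abs_sum_le_sum_abs _ _).trans ((sum_le_card_nsmul _ _ _ fun d _ => hb d).trans_eq
    (nsmul_eq_mul _ _))

theorem cut {Q : ℤ} (hQ : 0 < Q) {G : ℤ → ℝ} (h : ∀ d d', Q ∣ d - d' → G d = G d') {b : ℝ}
    (hb : ∀ d, |G d| ≤ b) (n : ℕ) : ∀ a : ℤ,
    |∑ d ∈ Ico a (a + n), G d - n * ((∑ d ∈ Ico 0 Q, G d) / Q)| ≤ 2 * Q * b := by
  have hQ' : (0 : ℝ) < Q := by exact_mod_cast hQ
  have hb0 : 0 ≤ b := (abs_nonneg _).trans (hb 0)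
  induction n using Nat.strong_induction_on with
  | _ n ih =>
    intro a
    by_cases hn : (n : ℤ) < Q
    · have h1 := abs_sum_le hb (Ico a (a + n))
      have h2 := abs_sum_le hb (Ico 0 Q)
      have h3 : ((Ico (0 : ℤ) Q).card : ℝ) = Q := by
        rw [Int.card_Ico, sub_zero]
        exact_mod_cast Int.toNat_of_nonneg hQ.le
      rw [Int.card_Ico, add_sub_cancel_left, Int.toNat_natCast] at h1
      rw [h3] at h2
      have h4 : |(n : ℝ) * ((∑ d ∈ Ico 0 Q, G d) / Q)| ≤ n * b := by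
        rw [abs_mul, abs_div, Nat.abs_cast, abs_of_pos hQ']
        exact mul_le_mul_of_nonneg_left ((div_le_iff₀' hQ').2 h2) (Nat.cast_nonneg _)
      have h5 : (n : ℝ) ≤ Q := by exact_mod_cast hn.le
      have h6 := mul_le_mul_of_nonneg_right h5 hb0
      exact (abs_sub _ _).trans (by linarith)
    · obtain ⟨m, hm⟩ : ∃ m : ℕ, (n : ℤ) = Q + m := ⟨(n - Q).toNat, by omega⟩
      have h1 := ih m (by omega) (a + Q)
      have h2 : (n : ℝ) = Q + m := by exact_mod_cast hm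
      rw [hm, ← add_assoc, ← Ico_union_Ico_eq_Ico (b := a + Q) (by omega) (by omega),
        sum_union (Ico_disjoint_Ico_consecutive _ _ _), shift hQ h, h2]
      convert h1 using 2
      field_simp
      ring

theorem crt {Q R : ℤ} (hQ : 0 < Q) (hR : 0 < R) (hc : IsCoprime Q R) {G H : ℤ → ℝ}
    (hG : ∀ d d', Q ∣ d - d' → G d = G d') (hH : ∀ d d', R ∣ d - d' → H d = H d') :
    ∑ d ∈ Ico 0 (Q * R), G d * H d = (∑ d ∈ Ico 0 Q, G d) * ∑ d ∈ Ico 0 R, H d := by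
  have hi : ∀ x ∈ Ico 0 (Q * R), ∀ y ∈ Ico 0 (Q * R), (x % Q, x % R) = (y % Q, y % R) → x = y :=
    fun x hx y hy e => eq_of_dvd (a := 0) (Q := Q * R) (by rwa [zero_add]) (by rwa [zero_add])
      (hc.mul_dvd (Int.ModEq.dvd (Prod.ext_iff.1 e).1.symm)
        (Int.ModEq.dvd (Prod.ext_iff.1 e).2.symm))
  have hm : ∀ d : ℤ, (d % Q, d % R) ∈ Ico 0 Q ×ˢ Ico 0 R := fun d =>
    mem_product.2 ⟨emod_mem hQ d, emod_mem hR d⟩
  rw [sum_mul_sum, ← sum_product']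
  refine sum_bij (fun d _ => (d % Q, d % R)) (fun d _ => hm d) (fun x hx y hy => hi x hx y hy)
    (fun b hb => ?_) fun d _ => by rw [hG _ _ (dvd_emod Q d), hH _ _ (dvd_emod R d)]
  obtain ⟨x, hx, e⟩ := surj_on_of_inj_on_of_card_le (s := Ico 0 (Q * R))
    (t := Ico 0 Q ×ˢ Ico 0 R) (fun d _ => (d % Q, d % R)) (fun d _ => hm d)
    (fun x y hx hy => hi x hx y hy) (by simp [Int.toNat_mul hQ.le hR.le]) b hb
  exact ⟨x, hx, e.symm⟩

theorem per_prod {T : Finset ℕ} {e : ℕ} {F : ℕ → ℤ → ℝ}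
    (hF : ∀ p ∈ T, ∀ d d' : ℤ, (p : ℤ) ^ e ∣ d - d' → F p d = F p d') (d d' : ℤ)
    (h : ∏ p ∈ T, (p : ℤ) ^ e ∣ d - d') : ∏ p ∈ T, F p d = ∏ p ∈ T, F p d' :=
  prod_congr rfl fun p hp => hF p hp d d' ((dvd_prod_of_mem _ hp).trans h)

theorem prod_pos' {T : Finset ℕ} (e : ℕ) (hT : ∀ p ∈ T, p.Prime) : 0 < ∏ p ∈ T, (p : ℤ) ^ e :=
  prod_pos fun p hp => pow_pos (by exact_mod_cast (hT p hp).pos) e

theorem sum_prod (T : Finset ℕ) (e : ℕ) (F : ℕ → ℤ → ℝ) (hT : ∀ p ∈ T, p.Prime)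
    (hF : ∀ p ∈ T, ∀ d d' : ℤ, (p : ℤ) ^ e ∣ d - d' → F p d = F p d') :
    ∑ d ∈ Ico 0 (∏ p ∈ T, (p : ℤ) ^ e), ∏ p ∈ T, F p d =
      ∏ p ∈ T, ∑ d ∈ Ico (0 : ℤ) ((p : ℤ) ^ e), F p d := by
  induction T using Finset.induction_on with
  | empty => simp
  | insert q T hq ih =>
    have h1 : ∀ p ∈ T, p.Prime := fun p hp => hT p (mem_insert_of_mem hp)
    have h2 := fun p hp => hF p (mem_insert_of_mem (a := p) (b := q) (s := T) hp)
    have h3 := hT q (mem_insert_self _ _)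
    simp only [prod_insert hq]
    rw [crt (pow_pos (by exact_mod_cast h3.pos) e) (prod_pos' e h1)
      (IsCoprime.prod_right fun p hp => IsCoprime.pow (Nat.isCoprime_iff_coprime.2
        ((Nat.coprime_primes h3 (h1 p hp)).2 fun h => hq (h ▸ hp))))
      (hF q (mem_insert_self _ _)) (per_prod h2), ih h1 h2]

end PerP

open PerP in
theorem pPer : S_Per := by
  intro T e F B a b hT hF hB
  have h := cut (prod_pos' e hT) (per_prod hF) (b := ∏ p ∈ T, B p) (fun d => by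
    rw [abs_prod]
    exact prod_le_prod (fun _ _ => abs_nonneg _) fun p hp => hB p hp d) (b - a).toNat a
  have h1 : Ico a (a + ((b - a).toNat : ℤ)) = Ico a b := by
    ext x
    simp only [mem_Ico]
    omega
  rw [h1, sum_prod T e F hT hF] at h
  rw [Int.card_Ico, prod_div_distrib]
  simpa only [Int.cast_prod, Int.cast_pow, Int.cast_natCast] using h

end Pool.Agent.P.MP_0ad054_nt.Clu
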