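import Pool.Agent.P.MP_0ad054_nt.Clu.Defs
import Pool.Agent.P.MP_0ad054_nt.Sun.SphereB

/-! Primitive points of a sublattice on a sphere. -/

namespace Pool.Agent.P.MP_0ad054_nt.Clu

open Finset Pool.Agent.Lib.H9 Pool.Agent.P.MP_0ad054_nt.Sun Pool.Agent.P.MP_0ad054_nt.Sun.SphereP

namespace PrimP

/-- the local condition -/
def ln (δ : ℤ × ℤ) (l : ℕ) (w : Fin 4 → ZMod l) : Prop := (δ.1 : ZMod l) * w 2 - δ.2 * w 1 = 0

theorem lat_iff {D : ℕ} (hD : Squarefree D) (δ : ℤ × ℤ) (v : Fin 4 → ℤ) :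
    (D : ℤ) ∣ δ.1 * v 2 - δ.2 * v 1 ↔ ∀ l ∈ D.primeFactors, ln δ l (fun j => v j) := by
  have h1 : ∀ l : ℕ, ln δ l (fun j => v j) ↔ (l : ℤ) ∣ δ.1 * v 2 - δ.2 * v 1 := by
    intro l
    unfold ln
    rw [← ZMod.intCast_zmod_eq_zero_iff_dvd]
    push_cast; rfl
  constructor
  · intro h l hl
    exact (h1 l).2 ((Int.natCast_dvd_natCast.2 (Nat.dvd_of_mem_primeFactors hl)).trans h)
  · intro h
    rw [← Nat.prod_primeFactors_of_squarefree hD, Int.natCast_dvd]
    refine Finset.prod_primes_dvd _ (fun l hl => (Nat.prime_of_mem_primeFactors hl).prime)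
      fun l hl => Int.natCast_dvd.1 ((h1 l).1 (h l hl))

end PrimP

open PrimP in
theorem pPrim : S_Prim := by
  classical
  obtain ⟨C, hC, hrem⟩ := sphere_remainder
  refine ⟨C, hC, fun D n δ hG hδ hodd => ?_⟩
  have h2 : ∀ l ∈ D.primeFactors, l.Prime ∧ l ≠ 2 := fun l hl =>
    ⟨Nat.prime_of_mem_primeFactors hl, by
      rintro rfl
      exact (Nat.not_even_iff_odd.2 hG.2.1)
        (even_iff_two_dvd.2 (Nat.dvd_of_mem_primeFactors hl))⟩
  have h4 := hrem (ln δ) n D.primeFactors (by exact_mod_cast hodd.pos) h2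
  rw [Nat.prod_primeFactors_of_squarefree hG.1] at h4
  have a1 : (n : ℝ) ≤ (psphere n).card := by exact_mod_cast le_card_psphere hodd
  have a2 : 1 / (2 * (D : ℝ)) ≤ ∏ l ∈ D.primeFactors, dens (ln δ) n l := by
    refine (prod_line_ge hG).trans (prod_le_prod (fun l hl => ?_) fun l hl => ?_)
    · have : (2 : ℝ) ≤ l := by exact_mod_cast (h2 l hl).1.two_le
      refine div_nonneg ?_ (by positivity)
      rw [sub_nonneg, div_le_one (by positivity)]; linarith
    · have hd := Nat.dvd_of_mem_primeFactors hl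
      refine dens_line n (h2 l hl).1 (h2 l hl).2 (d1 := δ.1) (d2 := δ.2) ?_ ?_ fun w hw => hw
      · rw [Ne, ZMod.intCast_zmod_eq_zero_iff_dvd]
        exact not_dvd_fst hG.1 hδ (h2 l hl).1 hd
      · have h1 := congrArg (Int.cast : ℤ → ZMod l) (mem_Del hδ)
        push_cast at h1
        rw [h1, ZMod.natCast_eq_zero_iff]; exact hd
  have a3 := mul_le_mul a1 a2 (by positivity) (by positivity)
  have a4 := (abs_le.1 h4).1
  rw [mul_one_div] at a3
  rw [Int.cast_natCast, ← filter_congr fun v _ => lat_iff hG.1 δ v] at a4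
  linarith

end Pool.Agent.P.MP_0ad054_nt.Clu
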