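import Pool.Agent.P.MP_0ad054_nt.Clu.Defs

/-! Products of local kernels minus their spherical means are cusp forms. -/

namespace Pool.Agent.P.MP_0ad054_nt.Clu

open Finset Pool.Agent.Lib.H9 Pool.Agent.P.MP_0ad054_nt.Sun Pool.Agent.P.MP_0ad054_nt.Sun.SphereP

namespace ProdP

theorem sq_cong {p e : ℕ} (he : 1 ≤ e) {x y : ℤ} (h : ((p ^ e : ℕ) : ℤ) ∣ x - y) :
    (nm p e : ℤ) ∣ x ^ 2 - y ^ 2 := by
  unfold nm
  split_ifs with hp
  · subst hp
    obtain ⟨c, hc⟩ := h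
    obtain ⟨k, rfl⟩ : ∃ k, e = k + 1 := ⟨e - 1, by omega⟩
    have hx : x = y + 2 ^ (k + 1) * c := by push_cast at hc; linarith
    refine ⟨c * y + 2 ^ k * c ^ 2, ?_⟩
    rw [hx]; push_cast; ring
  · have : x ^ 2 - y ^ 2 = (x - y) * (x + y) := by ring
    rw [this]; exact h.mul_right _

theorem nsq_cong {p e : ℕ} (he : 1 ≤ e) {v w : Fin 4 → ℤ}
    (h : ∀ j, ((p ^ e : ℕ) : ℤ) ∣ v j - w j) : (nm p e : ℤ) ∣ nsq v - nsq w := by
  unfold nsq
  rw [← sum_sub_distrib]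
  exact dvd_sum fun j _ => sq_cong he (h j)

theorem Q2_cong {m : ℤ} {v w : Fin 4 → ℤ} (h : ∀ j, m ∣ v j - w j) : m ∣ Q2 v - Q2 w := by
  have : Q2 v - Q2 w = (v 0 - w 0) * (v 0 + w 0) + (v 1 - w 1) * (3 * (v 1 + w 1)) +
      (v 2 - w 2) * (5 * (v 2 + w 2)) + (v 3 - w 3) * (7 * (v 3 + w 3)) := by
    unfold Q2; ring
  rw [this]
  exact dvd_add (dvd_add (dvd_add ((h 0).mul_right _) ((h 1).mul_right _)) ((h 2).mul_right _))
    ((h 3).mul_right _)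

theorem dvd_cong {m a b c : ℤ} (h : m ∣ a - b) : m ∣ a - c ↔ m ∣ b - c := by
  have : a - c = (a - b) + (b - c) := by ring
  rw [this]; exact dvd_add_right h

theorem pr_cong {p e : ℕ} (he : 1 ≤ e) {v w : Fin 4 → ℤ}
    (h : ∀ j, ((p ^ e : ℕ) : ℤ) ∣ v j - w j) : pr p v ↔ pr p w := by
  unfold pr
  refine not_congr (forall_congr' fun j => ?_)
  have h1 : (p : ℤ) ∣ v j - w j :=
    Dvd.dvd.trans (by push_cast; exact dvd_pow_self _ (by omega)) (h j)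
  simpa using dvd_cong (c := 0) h1

theorem P0_cong {p e : ℕ} {c c' : ℤ} (h : (nm p e : ℤ) ∣ c - c') : P0 p e c = P0 p e c' := by
  ext v
  simp only [P0, mem_filter]
  refine and_congr_right fun _ => and_congr_right fun _ => ?_
  rw [dvd_sub_comm, dvd_cong h, dvd_sub_comm]

theorem ph_cong {p e : ℕ} (t : ℤ) {v w : Fin 4 → ℤ}
    (h : ∀ j, ((p ^ e : ℕ) : ℤ) ∣ v j - w j) :
    ph (p ^ e) (Q2 v - t) = ph (p ^ e) (Q2 w - t) := by
  unfold ph
  simp only [dvd_cong (c := t) (Q2_cong h)]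

theorem aa_cong {p e : ℕ} (he : 1 ≤ e) (t : ℤ) {v w : Fin 4 → ℤ}
    (h : ∀ j, ((p ^ e : ℕ) : ℤ) ∣ v j - w j) : aa p e t v = aa p e t w := by
  unfold aa rho
  rw [P0_cong (nsq_cong he h)]
  by_cases hv : pr p v
  · rw [if_pos hv, if_pos ((pr_cong he h).1 hv)]
  · rw [if_neg hv, if_neg (fun hw => hv ((pr_cong he h).2 hw))]

theorem pr_of_dvd {p e : ℕ} (he : 1 ≤ e) {t : ℤ} (ht : ¬ (p : ℤ) ∣ t) {v : Fin 4 → ℤ}
    (h : (p : ℤ) ^ e ∣ Q2 v - t) : pr p v := by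
  intro hv
  apply ht
  have h1 : (p : ℤ) ∣ Q2 v - t := Dvd.dvd.trans (dvd_pow_self _ (by omega)) h
  have h2 : (p : ℤ) ∣ Q2 v - Q2 0 := Q2_cong fun j => by simpa using hv j
  have h3 : Q2 0 = 0 := by simp [Q2]
  rw [h3, sub_zero] at h2
  have := dvd_sub h2 h1
  simpa using this

open Classical in
theorem mean_zero {p e : ℕ} (he : 1 ≤ e) {t : ℤ} (ht : ¬ (p : ℤ) ∣ t) (h : ℤ → ℂ)
    (hh : ∀ s s' : ℤ, (nm p e : ℤ) ∣ s - s' → h s = h s') :
    ∑ v ∈ res (p ^ e), ((ph (p ^ e) (Q2 v - t) - aa p e t v : ℝ) : ℂ) * h (nsq v) = 0 := by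
  set R := res (p ^ e) with hR
  set g : (Fin 4 → ℤ) → ℂ := fun w =>
    if (p : ℤ) ^ e ∣ Q2 w - t then (p : ℂ) ^ e * h (nsq w) / (P0 p e (nsq w)).card else 0 with hg
  have e1 : ∀ v ∈ R, (((if pr p v then rho p e (nsq v) t else 0 : ℝ) : ℝ) : ℂ) * h (nsq v) =
      ∑ w ∈ R, if pr p v ∧ (nm p e : ℤ) ∣ nsq v - nsq w then g w else 0 := by
    intro v _
    by_cases hv : pr p v
    · rw [if_pos hv]
      unfold rho
      have e2 : ((((P0 p e (nsq v)).filter (fun w => (p : ℤ) ^ e ∣ Q2 w - t)).card : ℕ) : ℂ) =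
          ∑ w ∈ R, if (nm p e : ℤ) ∣ nsq v - nsq w ∧ (p : ℤ) ^ e ∣ Q2 w - t then 1 else 0 := by
        rw [sum_boole]
        congr 2
        ext w
        simp only [P0, mem_filter, hR]
        constructor
        · rintro ⟨⟨h1, -, h3⟩, h4⟩
          exact ⟨h1, dvd_sub_comm.1 h3, h4⟩
        · rintro ⟨h1, h3, h4⟩
          exact ⟨⟨h1, pr_of_dvd he ht h4, dvd_sub_comm.1 h3⟩, h4⟩
      push_cast
      rw [e2, mul_sum, sum_div, sum_mul]
      refine sum_congr rfl fun w _ => ?_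
      by_cases h1 : (nm p e : ℤ) ∣ nsq v - nsq w
      · by_cases h2 : (p : ℤ) ^ e ∣ Q2 w - t
        · rw [if_pos ⟨h1, h2⟩, if_pos ⟨hv, h1⟩, hg]
          simp only [if_pos h2]
          rw [P0_cong h1, hh _ _ h1]; ring
        · rw [if_neg (fun h => h2 h.2), if_pos ⟨hv, h1⟩, hg]
          simp [h2]
      · rw [if_neg (fun h => h1 h.1), if_neg (fun h => h1 h.2)]; simp
    · simp [hv]
  have e3 : ∀ w ∈ R, (∑ v ∈ R, if pr p v ∧ (nm p e : ℤ) ∣ nsq v - nsq w then g w else 0) =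
      (((if ((p ^ e : ℕ) : ℤ) ∣ Q2 w - t then ((p ^ e : ℕ) : ℝ) else 0 : ℝ) : ℝ) : ℂ) *
        h (nsq w) := by
    intro w hw
    rw [← sum_filter, sum_const, nsmul_eq_mul]
    have e4 : R.filter (fun v => pr p v ∧ (nm p e : ℤ) ∣ nsq v - nsq w) = P0 p e (nsq w) := by
      ext v; simp only [P0, mem_filter, hR]
    rw [e4, hg]
    push_cast
    by_cases h2 : (p : ℤ) ^ e ∣ Q2 w - t
    · simp only [if_pos h2]
      have h5 : (P0 p e (nsq w)).card ≠ 0 := by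
        refine card_ne_zero.2 ⟨w, ?_⟩
        rw [← e4, mem_filter]
        exact ⟨hw, pr_of_dvd he ht h2, by simp⟩
      have h6 : ((P0 p e (nsq w)).card : ℂ) ≠ 0 := by exact_mod_cast h5
      push_cast
      field_simp
    · simp [h2]
  have e5 : ∀ v ∈ R, ((ph (p ^ e) (Q2 v - t) - aa p e t v : ℝ) : ℂ) * h (nsq v) =
      (((if ((p ^ e : ℕ) : ℤ) ∣ Q2 v - t then ((p ^ e : ℕ) : ℝ) else 0 : ℝ) : ℝ) : ℂ) * h (nsq v) -
      (((if pr p v then rho p e (nsq v) t else 0 : ℝ) : ℝ) : ℂ) * h (nsq v) := by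
    intro v _
    unfold ph aa
    rw [← sub_mul, ← Complex.ofReal_sub]
    congr 2
    ring
  rw [sum_congr rfl e5, sum_sub_distrib, sum_congr rfl e1, sum_comm, sum_congr rfl e3, sub_self]

theorem cusp_add {M : ℕ} {f g F : (Fin 4 → ℤ) → ℂ} (hf : Cusp M f) (hg : Cusp M g)
    (hF : ∀ v, F v = f v + g v) : Cusp M F := by
  intro q a hq ha
  simp only [hF, add_mul, sum_add_distrib]
  rw [hf q a hq ha, hg q a hq ha, add_zero]

theorem cong_of {T : Finset ℕ} {e D p : ℕ} (hp : p ∈ T) {v w : Fin 4 → ℤ}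
    (h : ∀ j, (((∏ p ∈ T, p ^ e) * D : ℕ) : ℤ) ∣ v j - w j) :
    ∀ j, ((p ^ e : ℕ) : ℤ) ∣ v j - w j := fun j =>
  Dvd.dvd.trans (Int.natCast_dvd_natCast.2
    ((dvd_prod_of_mem (fun p => p ^ e) hp).mul_right D)) (h j)

theorem cong_D {M D : ℕ} {v w : Fin 4 → ℤ} (h : ∀ j, ((M * D : ℕ) : ℤ) ∣ v j - w j) :
    ∀ j, (D : ℤ) ∣ v j - w j := fun j =>
  Dvd.dvd.trans (Int.natCast_dvd_natCast.2 (dvd_mul_left D M)) (h j)

theorem cong_M {M D : ℕ} {v w : Fin 4 → ℤ} (h : ∀ j, ((M * D : ℕ) : ℤ) ∣ v j - w j) :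
    ∀ j, (M : ℤ) ∣ v j - w j := fun j =>
  Dvd.dvd.trans (Int.natCast_dvd_natCast.2 (dvd_mul_right M D)) (h j)

theorem cusp_prod (h : S_Cusp) (e : ℕ) (he : 2 ≤ e) (t : ℤ) (T : Finset ℕ) :
    ∀ (D : ℕ) (χ : (Fin 4 → ℤ) → ℂ), (∀ p ∈ T, p.Prime ∧ ¬ p ∣ D ∧ ¬ (p : ℤ) ∣ t) → D ≠ 0 →
      Per D χ → Cusp ((∏ p ∈ T, p ^ e) * D) (fun v =>
      ((∏ p ∈ T, ph (p ^ e) (Q2 v - t) - ∏ p ∈ T, aa p e t v : ℝ) : ℂ) * χ v) := by
  have he1 : 1 ≤ e := by omega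
  induction T using Finset.induction_on with
  | empty => intro D χ _ _ _ q a _ _; simp
  | insert p T hpT ih =>
    intro D χ hT hD hχ
    obtain ⟨hp, hpD, hpt⟩ := hT p (mem_insert_self _ _)
    have hT' : ∀ q ∈ T, q.Prime ∧ ¬ q ∣ D ∧ ¬ (q : ℤ) ∣ t :=
      fun q hq => hT q (mem_insert_of_mem hq)
    have hM0 : (∏ q ∈ T, q ^ e) * D ≠ 0 :=
      mul_ne_zero (prod_ne_zero_iff.2 fun q hq => pow_ne_zero _ (hT' q hq).1.ne_zero) hD
    have hpM : ¬ p ∣ (∏ q ∈ T, q ^ e) * D := by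
      intro hd
      rcases (Nat.Prime.dvd_mul hp).1 hd with h1 | h1
      · obtain ⟨q, hq, h2⟩ := (Prime.dvd_finsetProd_iff hp.prime _).1 h1
        have := (Nat.prime_dvd_prime_iff_eq hp (hT' q hq).1).1 (hp.dvd_of_dvd_pow h2)
        exact hpT (this ▸ hq)
      · exact hpD h1
    have c1 := h p e ((∏ q ∈ T, q ^ e) * D)
      (fun v => ((ph (p ^ e) (Q2 v - t) - aa p e t v : ℝ) : ℂ))
      (fun v => ((∏ q ∈ T, ph (q ^ e) (Q2 v - t) : ℝ) : ℂ) * χ v) hp he hM0 hpM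
      (fun v w hvw => by simp only [ph_cong t hvw, aa_cong he1 t hvw])
      (fun v hv => by
        have h1 : ¬ ((p ^ e : ℕ) : ℤ) ∣ Q2 v - t := fun h2 =>
          hv (pr_of_dvd he1 hpt (by exact_mod_cast h2))
        simp only [ph, aa, if_neg h1, if_neg hv, sub_self, Complex.ofReal_zero])
      (fun g hg => mean_zero he1 hpt g hg)
      (fun v w hvw => by
        simp only
        rw [hχ v w (cong_D hvw), prod_congr rfl fun q hq => ph_cong t (cong_of hq hvw)])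
    have c2 := ih (p ^ e * D) (fun v => ((aa p e t v : ℝ) : ℂ) * χ v)
      (fun q hq => ⟨(hT' q hq).1, fun hd => by
        rcases (Nat.Prime.dvd_mul (hT' q hq).1).1 hd with h1 | h1
        · have := (Nat.prime_dvd_prime_iff_eq (hT' q hq).1 hp).1 ((hT' q hq).1.dvd_of_dvd_pow h1)
          exact hpT (this ▸ hq)
        · exact (hT' q hq).2.1 h1, (hT' q hq).2.2⟩)
      (mul_ne_zero (pow_ne_zero _ hp.ne_zero) hD)
      (fun v w hvw => by
        simp only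
        rw [hχ v w (cong_D hvw), aa_cong he1 t (cong_M hvw)])
    rw [mul_left_comm] at c2
    rw [prod_insert hpT, mul_assoc]
    refine cusp_add c1 c2 fun v => ?_
    simp only [prod_insert hpT]
    push_cast
    ring

end ProdP

open ProdP in
theorem pProd (h : S_Cusp) : S_Prod := by
  refine ⟨fun p e c t => ⟨by unfold rho; positivity, ?_⟩, fun T e D t χ hT he hD hχ => ⟨?_, ?_⟩⟩
  · unfold rho
    rw [mul_div_assoc]
    refine mul_le_of_le_one_right (by positivity) (div_le_one_of_le₀ ?_ (by positivity))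
    exact_mod_cast card_filter_le _ _
  · intro v w hvw
    simp only
    rw [hχ v w (cong_D hvw), prod_congr rfl fun q hq => ph_cong t (cong_of hq hvw),
      prod_congr rfl fun q hq => aa_cong (by omega) t (cong_of hq hvw)]
  · exact cusp_prod h e he t T D χ hT hD hχ

end Pool.Agent.P.MP_0ad054_nt.Clu
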