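import Pool.Agent.P.MP_0ad054_nt.Clu.Defs

/-! Points with exactly one unit coordinate. -/

namespace Pool.Agent.P.MP_0ad054_nt.Clu

open Finset Pool.Agent.Lib.H9 Pool.Agent.P.MP_0ad054_nt.Sun Pool.Agent.P.MP_0ad054_nt.Sun.SphereP

namespace SingP

theorem step (P : ℕ → Prop) (h1 : P 1) :
    ∀ e : ℕ, 1 ≤ e → P e ∨ ∃ a, a < e ∧ P (a + 1) ∧ ¬ P (a + 2) := by
  intro e he
  induction e, he using Nat.le_induction with
  | base => exact Or.inl h1
  | succ n hn ih =>
    rcases ih with h | ⟨a, ha, h2, h3⟩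
    · by_cases h4 : P (n + 1)
      · exact Or.inl h4
      · refine Or.inr ⟨n - 1, by omega, ?_, ?_⟩
        · rwa [Nat.sub_add_cancel hn]
        · rwa [show n - 1 + 2 = n + 1 by omega]
    · exact Or.inr ⟨a, by omega, h2, h3⟩

theorem geo (p N : ℕ) (hp : 2 ≤ p) :
    ∀ n : ℕ, n ≤ N → ∑ a ∈ range n, p ^ (N - a) + 2 * p ^ (N - n) ≤ 2 * p ^ N := by
  intro n
  induction n with
  | zero => intro _; simp
  | succ n ih =>
    intro hn
    have h1 := ih (by omega)
    have h2 : p ^ (N - n) = p * p ^ (N - (n + 1)) := by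
      rw [← pow_succ']; congr 1; omega
    have h3 : 2 * p ^ (N - (n + 1)) ≤ p * p ^ (N - (n + 1)) := Nat.mul_le_mul_right _ hp
    rw [sum_range_succ]
    omega

theorem Q2_eq (v : Fin 4 → ℤ) : Q2 v = ∑ l, cz l * v l ^ 2 := by
  simp [Q2, cz, Fin.sum_univ_four]

theorem sum_update (μ : Fin 4 → ℤ) (v : Fin 4 → ℤ) (i : Fin 4) (x : ℤ) :
    ∑ l, μ l * Function.update v i x l ^ 2 =
      μ i * x ^ 2 + ∑ l ∈ univ.erase i, μ l * v l ^ 2 := by
  rw [← add_sum_erase _ _ (mem_univ i), Function.update_self]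
  congr 1
  refine sum_congr rfl fun l hl => ?_
  rw [Function.update_of_ne (ne_of_mem_erase hl)]

theorem unit_cz {p : ℕ} (hp : p.Prime) (h5 : 5 ≤ p) {i j : Fin 4} (hij : i ≠ j) :
    ¬ (p : ℤ) ∣ cz i - cz j := by
  have h2 : ¬ (p : ℤ) ∣ 2 := fun h => by
    have := Int.le_of_dvd (by norm_num) h; omega
  have h4 : ¬ (p : ℤ) ∣ 4 := fun h => by
    have := Int.le_of_dvd (by norm_num) h; omega
  have h6 : ¬ (p : ℤ) ∣ 6 := fun h => by
    have hpi : Prime (p : ℤ) := Nat.prime_iff_prime_int.mp hp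
    rcases hpi.dvd_or_dvd (a := 2) (b := 3) (by simpa using h) with h' | h'
    · exact h2 h'
    · have := Int.le_of_dvd (by norm_num) h'; omega
  have n2 : ¬ (p : ℤ) ∣ -2 := fun h => h2 ((dvd_neg).mp h)
  have n4 : ¬ (p : ℤ) ∣ -4 := fun h => h4 ((dvd_neg).mp h)
  have n6 : ¬ (p : ℤ) ∣ -6 := fun h => h6 ((dvd_neg).mp h)
  fin_cases i <;> fin_cases j <;> simp_all [cz]

/-- the box: coordinate `j` is free, the others are multiples of `p ^ a` -/
noncomputable def box (p e a : ℕ) (j l : Fin 4) : Finset ℤ :=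
  if l = j then Ico (0 : ℤ) ((p : ℤ) ^ e)
  else (Ico (0 : ℤ) ((p : ℤ) ^ e)).filter (fun x => (p : ℤ) ^ a ∣ x)

theorem card_box_self (p e a : ℕ) (j : Fin 4) : (box p e a j j).card = p ^ e := by
  rw [box, if_pos rfl, Int.card_Ico, sub_zero, ← Nat.cast_pow, Int.toNat_natCast]

theorem card_box_ne (h : S_Sq) {p e a : ℕ} (hp : p.Prime) (ha : a ≤ e) {j l : Fin 4}
    (hl : l ≠ j) : (box p e a j l).card = p ^ (e - a) := by
  have h1 := h.1 (p ^ e) (p ^ a) 0 (pow_ne_zero _ hp.ne_zero) (pow_dvd_pow _ ha)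
  rw [Nat.pow_div ha hp.pos] at h1
  rw [← h1]
  simp [box, hl]

theorem card_pi (h : S_Sq) {p e a : ℕ} (hp : p.Prime) (ha : a ≤ e) (j : Fin 4) :
    (Fintype.piFinset (box p e a j)).card = p ^ e * (p ^ (e - a)) ^ 3 := by
  rw [Fintype.card_piFinset, ← mul_prod_erase _ _ (mem_univ j), card_box_self]
  congr 1
  rw [prod_congr rfl (fun l hl => card_box_ne h hp ha (ne_of_mem_erase hl)), prod_const]
  simp

theorem avg (h : S_Sq) (S : Fin 4 → Finset ℤ) (i : Fin 4) (P Q : (Fin 4 → ℤ) → Prop)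
    [DecidablePred P] [DecidablePred Q] (K : ℕ)
    (h1 : ∀ v x, P (Function.update v i x) → Q v)
    (h2 : ∀ v, ((S i).filter (fun x => P (Function.update v i x))).card ≤ K) :
    (S i).card * ((Fintype.piFinset S).filter P).card ≤
      K * ((Fintype.piFinset S).filter Q).card := by
  have h6 := h.2.2.2.2.2 S i (fun v => if P v then 1 else 0)
  rw [card_filter, card_filter, ← h6, mul_sum]
  refine sum_le_sum fun v _ => ?_
  rw [← card_filter]
  by_cases hq : Q v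
  · simpa [hq] using h2 v
  · have : (S i).filter (fun x => P (Function.update v i x)) = ∅ :=
      filter_eq_empty_iff.mpr fun x _ hx => hq (h1 v x hx)
    simp [this]

theorem unit_le (h : S_Sq) {p e : ℕ} (hp : p.Prime) (h5 : 5 ≤ p) (a : ℕ) (c : ℤ) (j : Fin 4)
    (v : Fin 4 → ℤ) (P : ℤ → Prop) [DecidablePred P]
    (hP : ∀ x, P x → ¬ (p : ℤ) ∣ x ∧ (p : ℤ) ^ e ∣ nsq (Function.update v j x) - c) :
    ((box p e a j j).filter P).card ≤ 2 := by
  have h2 := h.2.1 p e 0 1 (c - ∑ l ∈ univ.erase j, 1 * v l ^ 2) hp (by omega) (Nat.zero_le _)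
    (fun hd => by have := Int.le_of_dvd (by norm_num) hd; omega)
  rw [pow_zero p, mul_one] at h2
  refine le_trans (card_le_card ?_) h2
  intro x hx
  rw [mem_filter] at hx
  obtain ⟨h3, h4⟩ := hP x hx.2
  have h7 : nsq (Function.update v j x) = 1 * x ^ 2 + ∑ l ∈ univ.erase j, 1 * v l ^ 2 := by
    rw [← sum_update (fun _ => 1) v j x]; simp [nsq]
  rw [h7] at h4
  have h8 : x ∈ Ico (0 : ℤ) ((p : ℤ) ^ e) := by simpa [box] using hx.1
  simp only [mem_filter]
  refine ⟨h8, by simp, by simpa using h3, ?_⟩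
  convert h4 using 1
  ring

theorem card_top (h : S_Sq) {p e : ℕ} (hp : p.Prime) (h5 : 5 ≤ p) (c : ℤ) (j : Fin 4) :
    ((Fintype.piFinset (box p e e j)).filter
      (fun v => ¬ (p : ℤ) ∣ v j ∧ (p : ℤ) ^ e ∣ nsq v - c)).card ≤ 2 := by
  have h1 := avg h (box p e e j) j (fun v => ¬ (p : ℤ) ∣ v j ∧ (p : ℤ) ^ e ∣ nsq v - c)
    (fun _ => True) 2 (fun _ _ _ => trivial)
    (fun v => unit_le h hp h5 e c j v _ (fun x hx => by simpa using hx))
  rw [filter_true, card_pi h hp le_rfl, card_box_self] at h1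
  simp only [Nat.sub_self, pow_zero, one_pow, mul_one] at h1
  rw [mul_comm 2] at h1
  exact Nat.le_of_mul_le_mul_left h1 (pow_pos hp.pos _)

theorem arith {q m s X Y : ℕ} (hq : 0 < q) (hm : 0 < m) (h1 : m * X ≤ 2 * Y)
    (h2 : q * Y ≤ 2 * s * (m * q ^ 3)) : X ≤ 4 * (s * q ^ 2) := by
  have h3 : Y ≤ 2 * s * m * q ^ 2 := by
    refine Nat.le_of_mul_le_mul_left (c := q) (h2.trans (le_of_eq ?_)) hq
    ring
  refine Nat.le_of_mul_le_mul_left (c := m) (h1.trans ?_) hm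
  calc 2 * Y ≤ 2 * (2 * s * m * q ^ 2) := Nat.mul_le_mul_left _ h3
    _ = m * (4 * (s * q ^ 2)) := by ring

theorem card_mid (h : S_Sq) {p e a : ℕ} (hp : p.Prime) (h5 : 5 ≤ p) (ha : a ≤ e) (c t : ℤ)
    {i j : Fin 4} (hij : i ≠ j) :
    ((Fintype.piFinset (box p e a j)).filter
      (fun v => ¬ (p : ℤ) ∣ v j ∧ ¬ (p : ℤ) ^ (a + 1) ∣ v i ∧ (p : ℤ) ^ e ∣ nsq v - c ∧
        (p : ℤ) ^ e ∣ Q2 v - t)).card ≤ 4 * p ^ (2 * e - a) := by
  have h1 := avg h (box p e a j) j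
    (fun v => ¬ (p : ℤ) ∣ v j ∧ ¬ (p : ℤ) ^ (a + 1) ∣ v i ∧ (p : ℤ) ^ e ∣ nsq v - c ∧
        (p : ℤ) ^ e ∣ Q2 v - t)
    (fun v => ¬ (p : ℤ) ^ (a + 1) ∣ v i ∧
      (p : ℤ) ^ e ∣ ∑ l, (cz l - cz j) * v l ^ 2 - (t - cz j * c)) 2
    (fun v x hx => by
      obtain ⟨-, h2, h3, h4⟩ := hx
      rw [Function.update_of_ne hij] at h2
      refine ⟨h2, ?_⟩
      have h6 := dvd_sub h4 (Dvd.dvd.mul_left h3 (cz j))
      have h7 := sum_update (fun l => cz l - cz j) v j x
      have h8 := sum_update (fun l => cz l - cz j) v j (v j)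
      rw [Function.update_eq_self] at h8
      simp only [sub_self, zero_mul, zero_add] at h7 h8
      rw [h8, ← h7]
      have h9 : ∑ l, (cz l - cz j) * Function.update v j x l ^ 2 - (t - cz j * c) =
          Q2 (Function.update v j x) - t - cz j * (nsq (Function.update v j x) - c) := by
        rw [Q2_eq, nsq]
        simp only [sub_mul, sum_sub_distrib, ← mul_sum]
        ring
      rw [h9]
      exact h6)
    (fun v => unit_le h hp h5 a c j v _ (fun x hx => ⟨by simpa using hx.1, hx.2.2.1⟩))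
  have h2 := avg h (box p e a j) i
    (fun v => ¬ (p : ℤ) ^ (a + 1) ∣ v i ∧
      (p : ℤ) ^ e ∣ ∑ l, (cz l - cz j) * v l ^ 2 - (t - cz j * c))
    (fun _ => True) (2 * p ^ a) (fun _ _ _ => trivial)
    (fun v => by
      have h3 := h.2.1 p e a (cz i - cz j)
        ((t - cz j * c) - ∑ l ∈ univ.erase i, (cz l - cz j) * v l ^ 2) hp (by omega) ha
        (unit_cz hp h5 hij)
      refine le_trans (card_le_card ?_) h3
      intro x hx
      rw [mem_filter] at hx
      obtain ⟨h4, h6, h7⟩ := hx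
      rw [Function.update_self] at h6
      rw [sum_update (fun l => cz l - cz j) v i x] at h7
      simp only [box, if_neg hij, mem_filter] at h4
      simp only [mem_filter]
      refine ⟨h4.1, h4.2, h6, ?_⟩
      convert h7 using 1
      ring)
  rw [filter_true, card_pi h hp ha, card_box_ne h hp ha hij] at h2
  rw [card_box_self] at h1
  have hq : 0 < p ^ (e - a) := pow_pos hp.pos _
  have hm : 0 < p ^ e := pow_pos hp.pos _
  have h9 : p ^ (2 * e - a) = p ^ a * (p ^ (e - a)) ^ 2 := by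
    rw [← pow_mul, ← pow_add]; congr 1; omega
  rw [h9]
  exact arith hq hm h1 h2

theorem mem_pi {p e a : ℕ} {j : Fin 4} {v : Fin 4 → ℤ} (hv : v ∈ res (p ^ e))
    (ha : ∀ i, i ≠ j → (p : ℤ) ^ a ∣ v i) : v ∈ Fintype.piFinset (box p e a j) := by
  rw [Fintype.mem_piFinset]
  intro l
  have h1 : v l ∈ Ico (0 : ℤ) ((p : ℤ) ^ e) := by
    have := mem_res.mp hv l
    rw [mem_Ico]
    exact_mod_cast this
  by_cases hl : l = j
  · rw [box, if_pos hl]
    exact h1
  · simp only [box, if_neg hl, mem_filter]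
    exact ⟨h1, ha l hl⟩

end SingP

open SingP in
theorem pSing (h : S_Sq) : S_Sing := by
  intro p e c t hp h5 he
  classical
  let A : Fin 4 → Finset (Fin 4 → ℤ) := fun j => (Fintype.piFinset (box p e e j)).filter
      (fun v => ¬ (p : ℤ) ∣ v j ∧ (p : ℤ) ^ e ∣ nsq v - c)
  let B : Fin 4 → ℕ → Fin 4 → Finset (Fin 4 → ℤ) := fun j a i =>
    (Fintype.piFinset (box p e (a + 1) j)).filter
      (fun v => ¬ (p : ℤ) ∣ v j ∧ ¬ (p : ℤ) ^ (a + 1 + 1) ∣ v i ∧ (p : ℤ) ^ e ∣ nsq v - c ∧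
        (p : ℤ) ^ e ∣ Q2 v - t)
  have hsub : (res (p ^ e)).filter (fun v => (∃ j, ¬ (p : ℤ) ∣ v j ∧ ∀ i, i ≠ j → (p : ℤ) ∣ v i) ∧
      (p : ℤ) ^ e ∣ nsq v - c ∧ (p : ℤ) ^ e ∣ Q2 v - t) ⊆
      univ.biUnion (fun j => A j ∪ (range e).biUnion (fun a => (univ.erase j).biUnion (B j a))) := by
    intro v hv
    rw [mem_filter] at hv
    obtain ⟨hv, ⟨j, hj, hi⟩, h1, h2⟩ := hv
    rw [mem_biUnion]
    refine ⟨j, mem_univ _, ?_⟩
    rw [mem_union]
    rcases step (fun a => ∀ i, i ≠ j → (p : ℤ) ^ a ∣ v i) (by simpa using hi) e he with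
      h3 | ⟨a, ha, h3, h4⟩
    · exact Or.inl (mem_filter.mpr ⟨mem_pi hv h3, hj, h1⟩)
    · right
      push Not at h4
      obtain ⟨i, hij, h4⟩ := h4
      exact mem_biUnion.mpr ⟨a, mem_range.mpr ha, mem_biUnion.mpr
        ⟨i, mem_erase.mpr ⟨hij, mem_univ _⟩, mem_filter.mpr ⟨mem_pi hv h3, hj, h4, h1, h2⟩⟩⟩
  have hgeo := geo p (2 * e - 1) hp.two_le e (by omega)
  have hone : ∀ j : Fin 4,
      (A j ∪ (range e).biUnion (fun a => (univ.erase j).biUnion (B j a))).card ≤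
        2 + 24 * p ^ (2 * e - 1) := by
    intro j
    refine (card_union_le _ _).trans (add_le_add (card_top h hp h5 c j) ?_)
    refine card_biUnion_le.trans ?_
    have h1 : ∀ a ∈ range e, ((univ.erase j).biUnion (B j a)).card ≤
        12 * p ^ (2 * e - 1 - a) := by
      intro a ha
      refine card_biUnion_le.trans ?_
      have h2 : ∀ i ∈ univ.erase j, (B j a i).card ≤ 4 * p ^ (2 * e - 1 - a) := by
        intro i hi
        have := card_mid h hp h5 (a := a + 1) (e := e) (mem_range.mp ha) c t (ne_of_mem_erase hi)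
        rwa [show 2 * e - (a + 1) = 2 * e - 1 - a by omega] at this
      refine (sum_le_card_nsmul _ _ _ h2).trans ?_
      rw [card_erase_of_mem (mem_univ _)]
      simp only [card_univ, Fintype.card_fin, smul_eq_mul]
      omega
    refine (sum_le_sum h1).trans ?_
    rw [← mul_sum]
    omega
  refine (card_le_card hsub).trans (card_biUnion_le.trans ?_)
  refine (sum_le_card_nsmul _ _ _ (fun j _ => hone j)).trans ?_
  have hpos : 0 < p ^ (2 * e - 1) := pow_pos hp.pos _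
  simp only [card_univ, Fintype.card_fin, smul_eq_mul]
  omega

end Pool.Agent.P.MP_0ad054_nt.Clu
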