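import Pool.Agent.P.MP_0ad054_nt.Clu.Defs

namespace Pool.Agent.P.MP_0ad054_nt.Clu

open Finset Pool.Agent.Lib.H9 Pool.Agent.P.MP_0ad054_nt.Sun Pool.Agent.P.MP_0ad054_nt.Sun.SphereP

namespace SmallP

lemma cop64 {p : ℕ} (hp : p.Prime) (h2 : p ≠ 2) : IsCoprime (64 : ℤ) (p : ℤ) := by
  have h : Nat.Coprime (2 ^ 6) p :=
    Nat.Coprime.pow_left 6 ((Nat.coprime_primes Nat.prime_two hp).2 h2.symm)
  exact_mod_cast Nat.isCoprime_iff_coprime.2 h

lemma crt (T : Finset ℕ) (hT : ∀ p ∈ T, p.Prime ∧ p ≠ 2) (g : ℕ → ℤ) (b : ℤ) :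
    ∃ a : ℤ, 64 ∣ a - b ∧ ∀ p ∈ T, (p : ℤ) ∣ a - g p := by
  induction T using Finset.induction_on with
  | empty => exact ⟨b, by simp, by simp⟩
  | insert p T hp ih =>
    obtain ⟨a, h1, h2⟩ := ih fun q hq => hT q (mem_insert_of_mem hq)
    obtain ⟨hpp, hp2⟩ := hT p (mem_insert_self _ _)
    have hc : IsCoprime (64 * ∏ q ∈ T, (q : ℤ)) (p : ℤ) :=
      (cop64 hpp hp2).mul_left (IsCoprime.prod_left fun q hq => Nat.isCoprime_iff_coprime.2
        ((Nat.coprime_primes (hT q (mem_insert_of_mem hq)).1 hpp).2 fun h => hp (h ▸ hq)))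
    obtain ⟨u, v, huv⟩ := hc
    have hd : 64 * ∏ q ∈ T, (q : ℤ) ∣ a * (v * p) + g p * (u * (64 * ∏ q ∈ T, (q : ℤ))) - a :=
      ⟨(g p - a) * u, by linear_combination a * huv⟩
    refine ⟨a * (v * p) + g p * (u * (64 * ∏ q ∈ T, (q : ℤ))), ?_, fun q hq => ?_⟩
    · simpa using ((dvd_mul_right _ _).trans hd).add h1
    · rcases mem_insert.1 hq with rfl | hq
      · exact ⟨(a - g q) * v, by linear_combination g q * huv⟩
      · simpa using (((dvd_prod_of_mem _ hq).mul_left 64).trans hd).add (h2 q hq)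

end SmallP

open SmallP in
theorem pSmall (h1 : S_Two) (h2 : S_Odd) : S_Small := by
  intro p0
  set T := (range (p0 + 1)).filter (fun p => p.Prime ∧ p ≠ 2) with hT
  have hT' : ∀ p ∈ T, p.Prime ∧ p ≠ 2 := fun p hp => (mem_filter.1 hp).2
  refine ⟨64 * ∏ p ∈ T, p, min (1 / 2 ^ 16) (1 / ((p0 : ℝ) + 1) ^ 3),
    Nat.mul_pos (by norm_num) (prod_pos fun p hp => (hT' p hp).1.pos),
    Dvd.dvd.mul_right (by norm_num) _, lt_min (by norm_num) (by positivity),
    (min_le_left _ _).trans (by norm_num), fun n0 hn0 => ?_⟩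
  obtain ⟨b, hb, hb'⟩ := h1 n0 hn0
  choose! g hg hg' using fun p => h2 p n0
  obtain ⟨a, ha, ha'⟩ := crt T hT' g b
  push_cast
  refine ⟨a, IsCoprime.mul_right ?_ (IsCoprime.prod_right fun p hp => ?_),
    fun p e n t hp hp0 he hn ht => ?_⟩
  · have : IsCoprime (a * (a - 2)) ((2 : ℤ) ^ 6) := by
      refine IsCoprime.pow_right (Int.prime_two.coprime_iff_not_dvd.2 fun h => ?_).symm
      obtain ⟨k, rfl⟩ := hb
      rcases Int.prime_two.dvd_or_dvd h with h | h <;> omega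
    simpa using this
  · obtain ⟨hp1, hp2⟩ := hT' p hp
    refine ((Nat.prime_iff_prime_int.1 hp1).coprime_iff_not_dvd.2 fun h => hg p hp1 hp2 ?_).symm
    have := h.sub ((ha' p hp).mul_right (a + g p - 2))
    rwa [show a * (a - 2) - (a - g p) * (a + g p - 2) = g p * (g p - 2) by ring] at this
  · by_cases h : p = 2
    · subst h
      refine (min_le_left _ _).trans (hb' e n t he ((dvd_mul_right _ _).trans hn) ?_)
      simpa using ((dvd_mul_right _ _).trans ht).add ha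
    · have hm : p ∈ T := mem_filter.2 ⟨mem_range.2 (by omega), hp, h⟩
      have hd : (p : ℤ) ∣ 64 * ∏ q ∈ T, (q : ℤ) := (dvd_prod_of_mem _ hm).mul_left 64
      refine (min_le_right _ _).trans (le_trans ?_ (hg' p hp h e n t (by omega) (hd.trans hn) ?_))
      · have : (0 : ℝ) < p := by exact_mod_cast hp.pos
        have h3 : (p : ℝ) ≤ p0 + 1 := by exact_mod_cast Nat.le_succ_of_le hp0
        gcongr
      · simpa using (hd.trans ht).add (ha' p hm)

end Pool.Agent.P.MP_0ad054_nt.Clu
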