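import Pool.Agent.P.MP_0ad054_nt.Clu.Defs

/-! Squares modulo prime powers, residue classes, averaging over one coordinate. -/

namespace Pool.Agent.P.MP_0ad054_nt.Clu

open Finset Pool.Agent.Lib.H9 Pool.Agent.P.MP_0ad054_nt.Sun Pool.Agent.P.MP_0ad054_nt.Sun.SphereP

namespace SqP

theorem cls (m d : ℕ) (r : ℤ) (hm : m ≠ 0) (hd : d ∣ m) :
    ((Ico (0 : ℤ) m).filter (fun x => (d : ℤ) ∣ x - r)).card = m / d := by
  obtain ⟨k, rfl⟩ := hd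
  have d0 : 0 < d := Nat.pos_of_ne_zero (left_ne_zero_of_mul hm)
  have h := Int.Ico_filter_modEq_card 0 ((d * k : ℕ) : ℤ) (r := d) (by exact_mod_cast d0) r
  have e : ((((d * k : ℕ) : ℤ) : ℚ) - r) / ((d : ℤ) : ℚ) = (((0 : ℤ) : ℚ) - r) / ((d : ℤ) : ℚ) + k := by
    have : (d : ℚ) ≠ 0 := by exact_mod_cast d0.ne'
    push_cast; field_simp; ring
  rw [e, Int.ceil_add_natCast, add_sub_cancel_left, max_eq_left (Int.natCast_nonneg k)] at h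
  rw [Nat.mul_div_cancel_left k d0]
  refine Eq.trans (congrArg card (filter_congr fun x _ => ?_)) (Nat.cast_injective (R := ℤ) h)
  rw [Int.modEq_comm, Int.modEq_iff_dvd]

/-- a set contained in two opposite residue classes -/
theorem two_cls (m d : ℕ) (hm : m ≠ 0) (hd : d ∣ m) (P : ℤ → Prop) [DecidablePred P]
    (h : ∀ x y, P x → P y → (d : ℤ) ∣ x - y ∨ (d : ℤ) ∣ x - -y) :
    ((Ico (0 : ℤ) m).filter P).card ≤ 2 * (m / d) := by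
  rcases ((Ico (0 : ℤ) m).filter P).eq_empty_or_nonempty with e | ⟨y, hy⟩
  · simp [e]
  rw [two_mul]
  nth_rewrite 1 [← cls m d y hm hd]
  rw [← cls m d (-y) hm hd]
  refine le_trans (card_le_card fun x hx => ?_) (card_union_le _ _)
  rw [mem_filter] at hx hy
  simp only [mem_union, mem_filter, hx.1, true_and]
  exact h x y hx.2 hy.2

theorem cg {a b c : ℤ} (h : a ∣ b) (e : c = b) : a ∣ c := e ▸ h

variable {p : ℕ}

theorem cancel (hp : p.Prime) {e : ℕ} {u w : ℤ} (hu : ¬ (p : ℤ) ∣ u) (h : (p : ℤ) ^ e ∣ u * w) :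
    (p : ℤ) ^ e ∣ w :=
  ((Nat.prime_iff_prime_int.1 hp).irreducible.coprime_iff_not_dvd.2 hu).pow_left.dvd_of_dvd_mul_left h

theorem not_two (hp : p.Prime) (h2 : p ≠ 2) {u : ℤ} (hu : ¬ (p : ℤ) ∣ u) : ¬ (p : ℤ) ∣ 2 * u :=
  fun h => ((Nat.prime_iff_prime_int.1 hp).dvd_or_dvd h).elim
    (fun e => h2 ((Nat.prime_dvd_prime_iff_eq hp Nat.prime_two).1 (by exact_mod_cast e))) hu

theorem val (e a : ℕ) (μ c : ℤ) (hp : p.Prime) (h2 : p ≠ 2) (ha : a ≤ e) (hμ : ¬ (p : ℤ) ∣ μ) :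
    ((Ico (0 : ℤ) ((p : ℤ) ^ e)).filter (fun x => (p : ℤ) ^ a ∣ x ∧ ¬ (p : ℤ) ^ (a + 1) ∣ x ∧
      (p : ℤ) ^ e ∣ μ * x ^ 2 - c)).card ≤ 2 * p ^ a := by
  obtain ⟨b, rfl⟩ := Nat.exists_eq_add_of_le ha
  have := two_cls (p ^ (a + b)) (p ^ b) (pow_ne_zero _ hp.ne_zero) (pow_dvd_pow p (by omega))
    (fun x => (p : ℤ) ^ a ∣ x ∧ ¬ (p : ℤ) ^ (a + 1) ∣ x ∧ (p : ℤ) ^ (a + b) ∣ μ * x ^ 2 - c) ?_
  · rwa [Nat.pow_div (by omega) hp.pos, Nat.add_sub_cancel, Nat.cast_pow] at this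
  rintro _ _ ⟨⟨x, rfl⟩, hx, hx'⟩ ⟨⟨y, rfl⟩, -, hy'⟩
  have p0 : (p : ℤ) ^ a ≠ 0 := pow_ne_zero _ (by exact_mod_cast hp.ne_zero)
  have hx1 : ¬ (p : ℤ) ∣ x := fun h => hx (by rw [pow_succ]; exact mul_dvd_mul_left _ h)
  have h1 : (p : ℤ) ^ b ∣ (x + y) * ((p : ℤ) ^ a * (x - y)) := by
    refine (mul_dvd_mul_iff_left p0).1 ?_
    rw [← pow_add]
    exact cancel hp hμ (cg (dvd_sub hx' hy') (by ring))
  push_cast
  by_cases h : (p : ℤ) ∣ x + y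
  · have h3 : ¬ (p : ℤ) ∣ x - y := fun h' => not_two hp h2 hx1 (cg (dvd_add h h') (by ring))
    exact Or.inr (cancel hp h3 (cg h1 (by ring)))
  · exact Or.inl (by rw [← mul_sub]; exact cancel hp h h1)

theorem hensel (e : ℕ) (μ c x0 : ℤ) (hp : p.Prime) (h2 : p ≠ 2) (h : ¬ (p : ℤ) ∣ μ * x0)
    (hc : (p : ℤ) ∣ μ * x0 ^ 2 - c) :
    ∃ x : ℤ, (p : ℤ) ∣ x - x0 ∧ (p : ℤ) ^ (e + 1) ∣ μ * x ^ 2 - c := by
  induction e with
  | zero => exact ⟨x0, by simp, by simpa using hc⟩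
  | succ e ih =>
    obtain ⟨x, ⟨z, hz⟩, w, hw⟩ := ih
    have h3 : ¬ (p : ℤ) ∣ μ * x := fun h' =>
      h (cg (dvd_sub h' (dvd_mul_right (p : ℤ) (μ * z))) (by linear_combination (-μ) * hz))
    obtain ⟨u, s, hs⟩ :=
      (Nat.prime_iff_prime_int.1 hp).irreducible.coprime_iff_not_dvd.2 (not_two hp h2 h3)
    refine ⟨x - (p : ℤ) ^ (e + 1) * (s * w), ⟨z - (p : ℤ) ^ e * (s * w), ?_⟩,
      w * u + μ * (p : ℤ) ^ e * (s * w) ^ 2, ?_⟩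
    · linear_combination hz
    · linear_combination hw - (p : ℤ) ^ (e + 1) * w * hs

theorem uniq (e : ℕ) (μ c x0 : ℤ) (hp : p.Prime) (h2 : p ≠ 2) (he : 1 ≤ e)
    (h : ¬ (p : ℤ) ∣ μ * x0) (hc : (p : ℤ) ∣ μ * x0 ^ 2 - c) :
    ((Ico (0 : ℤ) ((p : ℤ) ^ e)).filter (fun x => (p : ℤ) ∣ x - x0 ∧
      (p : ℤ) ^ e ∣ μ * x ^ 2 - c)).card = 1 := by
  obtain ⟨e, rfl⟩ := Nat.exists_eq_add_of_le' he
  obtain ⟨x, hx, hx'⟩ := hensel e μ c x0 hp h2 h hc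
  have := cls (p ^ (e + 1)) (p ^ (e + 1)) x (pow_ne_zero _ hp.ne_zero) dvd_rfl
  rw [Nat.div_self (pow_pos hp.pos _), Nat.cast_pow] at this
  refine Eq.trans (congrArg card (filter_congr fun y _ => ⟨fun hy => ?_, fun hy => ?_⟩)) this
  · have h3 : ¬ (p : ℤ) ∣ μ * (y + x) := fun h' => not_two hp h2 h
      (cg (dvd_sub h' ((dvd_add hy.1 hx).mul_left μ)) (by ring))
    exact cancel hp h3 (cg (dvd_sub hy.2 hx') (by ring))
  · exact ⟨cg (dvd_add ((dvd_pow_self _ e.succ_ne_zero).trans hy) hx) (by ring),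
      cg (dvd_add (hy.mul_left (μ * (y + x))) hx') (by ring)⟩

theorem two (e : ℕ) (c : ℤ) : ((Ico (0 : ℤ) (2 ^ e)).filter (fun x => ¬ 2 ∣ x ∧
    2 ^ (e + 1) ∣ x ^ 2 - c)).card ≤ 2 := by
  have := two_cls (2 ^ e) (2 ^ e) (by positivity) dvd_rfl
    (fun x => ¬ 2 ∣ x ∧ 2 ^ (e + 1) ∣ x ^ 2 - c) ?_
  · rwa [Nat.div_self (by positivity), Nat.cast_pow] at this
  rintro x y ⟨hx, hx'⟩ ⟨hy, hy'⟩
  obtain ⟨u, w, rfl, rfl⟩ : ∃ u w, x = w + u ∧ y = w - u :=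
    ⟨(x - y) / 2, (x + y) / 2, by omega, by omega⟩
  have h1 : ((2 : ℕ) : ℤ) ^ e ∣ u * (2 * w) := by
    refine (mul_dvd_mul_iff_left (two_ne_zero' ℤ)).1 ?_
    rw [Nat.cast_ofNat, ← pow_succ']
    exact cg (dvd_sub hx' hy') (by ring)
  rw [Nat.cast_pow]
  by_cases h : ((2 : ℕ) : ℤ) ∣ u
  · have h3 : ¬ ((2 : ℕ) : ℤ) ∣ w := by omega
    exact Or.inl (cg (cancel Nat.prime_two h3 (w := 2 * u) (cg h1 (by ring))) (by ring))
  · exact Or.inr (cg (cancel Nat.prime_two h h1) (by ring))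

theorem root (j : ℕ) (c : ℤ) (hc : 8 ∣ c - 1) : ∃ x : ℤ, 2 ^ (j + 3) ∣ x ^ 2 - c := by
  induction j with
  | zero => exact ⟨1, by omega⟩
  | succ j ih =>
    obtain ⟨x, w, hw⟩ := ih
    obtain ⟨c', hc'⟩ := hc
    rcases Int.even_or_odd' w with ⟨u, rfl | rfl⟩
    · exact ⟨x, u, by linear_combination hw⟩
    rcases Int.even_or_odd' x with ⟨y, rfl | rfl⟩
    · have : 2 * (2 * y ^ 2 - 4 * c' - 2 ^ (j + 2) * (2 * u + 1)) = 1 := by
        linear_combination hw + hc'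
      omega
    · exact ⟨2 * y + 1 + 2 ^ (j + 2), u + y + 1 + 2 ^ j, by linear_combination hw⟩

theorem avg (S : Fin 4 → Finset ℤ) (i : Fin 4) (F : (Fin 4 → ℤ) → ℕ) :
    ∑ v ∈ Fintype.piFinset S, ∑ x ∈ S i, F (Function.update v i x) =
      (S i).card * ∑ v ∈ Fintype.piFinset S, F v := by
  have m : ∀ q ∈ Fintype.piFinset S ×ˢ S i,
      (Function.update q.1 i q.2, q.1 i) ∈ Fintype.piFinset S ×ˢ S i := fun q hq => by
    simp only [mem_product, Fintype.mem_piFinset] at hq ⊢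
    refine ⟨fun j => ?_, hq.1 i⟩
    by_cases h : j = i
    · subst h; simpa using hq.2
    · simpa [h] using hq.1 j
  rw [← sum_product', sum_nbij' (t := Fintype.piFinset S ×ˢ S i) (g := fun q => F q.1)
    (fun q => (Function.update q.1 i q.2, q.1 i)) (fun q => (Function.update q.1 i q.2, q.1 i))
    m m (fun q _ => by simp) (fun q _ => by simp) (fun _ _ => rfl), sum_product, mul_sum]
  simp

end SqP

theorem pSq : S_Sq :=
  ⟨SqP.cls, fun _ => SqP.val, fun _ => SqP.uniq, SqP.two, fun j c hc =>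
    (SqP.root j c hc).imp fun _ h => (pow_dvd_pow 2 (by omega)).trans h, SqP.avg⟩

end Pool.Agent.P.MP_0ad054_nt.Clu
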