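import Pool.Agent.P.MP_0ad054_nt.Clu.Defs
import Pool.Agent.P.MP_0ad054_nt.Sun.Gamma

/-! Mean square of the coefficients of a cusp form with a drift. -/

namespace Pool.Agent.P.MP_0ad054_nt.Clu

open Finset Pool.Agent.Lib.H9 Pool.Agent.P.MP_0ad054_nt.Sun Pool.Agent.P.MP_0ad054_nt.Sun.SphereP

namespace ThetaP

open Complex Real Pool.Agent.P.MP_0ad054_nt.Sun.GammaP

theorem theta_diag0 : ∃ C : ℝ, 0 < C ∧ ∀ (M : ℕ) (φ : (Fin 4 → ℤ) → ℂ) (z : Fin 4 → ℂ)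
    (B y m Z : ℝ), M ≠ 0 → Per M φ → 0 < y → (∀ j, (z j).im = y) → fhat M φ 0 = 0 →
    (∀ k, ‖fhat M φ k‖ ≤ B) → 0 < m → (∀ j, m ≤ ‖z j‖) → (∀ j, ‖z j‖ ≤ Z) →
    ‖∑' v : Fin 4 → ℤ, φ v * ∏ j, ee (z j * (v j : ℂ) ^ 2)‖ ≤
      C * B * Z ^ 4 / (m ^ 2 * y ^ 2) := by
  obtain ⟨C, hC, h⟩ := dual_tail_le
  refine ⟨4 * C, by positivity, fun M φ z B y m Z hM hφ hy hz h0 hB hm hm1 hZ => ?_⟩
  have hMr : (0 : ℝ) < M := by exact_mod_cast Nat.pos_of_ne_zero hM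
  have hz' : ∀ j, 0 < (z j).im := fun j => by rw [hz]; exact hy
  have hn : ∀ j, 0 < ‖z j‖ := fun j => hm.trans_le (hm1 j)
  have hZ0 : 0 < Z := (hn 0).trans_le (hZ 0)
  have hB0 : 0 ≤ B := (norm_nonneg _).trans (hB 0)
  set s : ℝ := y / (4 * M ^ 2 * Z ^ 2) with hs
  have hs0 : 0 < s := by positivity
  set σ : ℂ := (s : ℂ) * I with hσ
  have hσi : σ.im = s := by rw [hσ, Complex.mul_I_im, Complex.ofReal_re]
  set c : (Fin 4 → ℤ) → ℂ := fun k =>
    fhat M φ k * ∏ j, ee ((-1 / (4 * z j * M ^ 2) - σ) * (k j : ℂ) ^ 2) with hc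
  have hc0 : c 0 = 0 := by simp only [hc]; rw [h0, zero_mul]
  have hcB : ∀ k, ‖c k‖ ≤ B := by
    intro k
    simp only [hc]
    rw [norm_mul, norm_prod]
    refine (mul_le_of_le_one_right (norm_nonneg _) ?_).trans (hB k)
    refine prod_le_one (fun _ _ => norm_nonneg _) fun j _ => ?_
    rw [norm_ee, Real.exp_le_one_iff]
    have e1 : ((-1 / (4 * z j * M ^ 2) - σ) * (k j : ℂ) ^ 2).im =
        (-1 / (4 * z j * M ^ 2) - σ : ℂ).im * (k j : ℝ) ^ 2 := by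
      rw [← Complex.im_mul_ofReal]; push_cast; rfl
    rw [e1, Complex.sub_im, dual_im hM (hz' j), hz, hσi]
    have e2 : s ≤ y / (4 * M ^ 2 * ‖z j‖ ^ 2) := by
      have := hn j
      have := hZ j
      rw [hs]
      gcongr
    have e3 : 0 ≤ 2 * π * ((y / (4 * M ^ 2 * ‖z j‖ ^ 2) - s) * (k j : ℝ) ^ 2) :=
      mul_nonneg (by positivity) (mul_nonneg (sub_nonneg.2 e2) (sq_nonneg _))
    linarith
  have h1 := h σ c B (by rw [hσi]; exact hs0) hc0 hcB
  have e4 : ∀ k : Fin 4 → ℤ, c k * ee (σ * nsq k) =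
      fhat M φ k * ∏ j, ee (-1 / (4 * z j * M ^ 2) * (k j : ℂ) ^ 2) := by
    intro k
    simp only [hc]
    rw [ee_nsq, mul_assoc, ← prod_mul_distrib]
    congr 1
    refine prod_congr rfl fun j _ => ?_
    rw [← ee_add]
    congr 1
    ring
  simp_rw [e4] at h1
  rw [hσi] at h1
  have h2 : ∀ j, ‖1 / (-2 * I * z j * M ^ 2) ^ (1 / 2 : ℂ)‖ ^ 2 = 1 / (2 * ‖z j‖ * M ^ 2) := by
    intro j
    rw [← norm_pow, one_div_pow, one_div (2 : ℂ), Complex.cpow_ofNat_inv_pow]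
    simp
  have h3 : ‖∏ j, 1 / (-2 * I * z j * M ^ 2) ^ (1 / 2 : ℂ)‖ ≤ (1 / (2 * m * M ^ 2)) ^ 2 := by
    refine le_of_sq_le_sq ?_ (by positivity)
    rw [norm_prod, ← prod_pow]
    simp_rw [h2]
    calc _ ≤ ∏ _j : Fin 4, 1 / (2 * m * (M : ℝ) ^ 2) := by
          refine prod_le_prod (fun j _ => by have := hn j; positivity) fun j _ => ?_
          have := hm1 j
          gcongr
      _ = _ := by rw [prod_const, card_univ, Fintype.card_fin]; ring
  rw [poisson_diag hM hφ hz', norm_mul]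
  calc _ ≤ (1 / (2 * m * M ^ 2)) ^ 2 * (C * B / s ^ 2) :=
        mul_le_mul h3 h1 (norm_nonneg _) (by positivity)
    _ = _ := by rw [hs]; field_simp; ring

/-- the coefficients of the form as real numbers -/
def cr : Fin 4 → ℝ := ![1, 3, 5, 7]

theorem cr_le (j : Fin 4) : |cr j| ≤ 7 := by
  fin_cases j <;> simp [cr] <;> norm_num

theorem sup_bound : ∃ C : ℝ, 0 < C ∧ ∀ (M : ℕ) (ψ : (Fin 4 → ℤ) → ℂ) (η R x y : ℝ),
    M ≠ 0 → Per M ψ → (∀ v, ‖ψ v‖ ≤ 1) → Cusp M ψ → 0 < y → y ≤ 1 → 1 ≤ R → |η| ≤ R * y →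
    ‖∑' v : Fin 4 → ℤ, (ψ v * e (η * Q2 v) * ee (y * I * nsq v)) * ee (x * nsq v)‖ ≤
      C * M ^ 8 * R ^ 4 / y := by
  obtain ⟨C, hC, h⟩ := theta_diag0
  refine ⟨C * 4 * 256 * 130, by positivity, fun M ψ η R α y he hψ hb hc hy hy1 hR hη => ?_⟩
  set N := ⌊√(1 / y)⌋₊ with hN
  have h1y : 1 ≤ 1 / y := by rw [le_div_iff₀ hy]; linarith
  have hs1 : 1 ≤ √(1 / y) := Real.one_le_sqrt.2 h1y
  have hN0 : 0 < N := Nat.floor_pos.2 hs1
  have hN1 : (N : ℝ) ^ 2 ≤ 1 / y := by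
    have := Nat.floor_le (Real.sqrt_nonneg (1 / y))
    calc (N : ℝ) ^ 2 ≤ √(1 / y) ^ 2 := by gcongr
      _ = _ := Real.sq_sqrt (by positivity)
  have hN2 : 1 / y ≤ ((N : ℝ) + 1) ^ 2 := by
    have := (Nat.lt_floor_add_one (√(1 / y))).le
    calc 1 / y = √(1 / y) ^ 2 := (Real.sq_sqrt (by positivity)).symm
      _ ≤ _ := by gcongr
  obtain ⟨ρ, hρ1, hρ2⟩ := Real.exists_rat_abs_sub_le_and_den_le α hN0
  set q := ρ.den
  set a := ρ.num
  have hq : q ≠ 0 := ρ.den_nz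
  have hqr : (0 : ℝ) < q := by exact_mod_cast Nat.pos_of_ne_zero hq
  have hq' : (q : ℂ) ≠ 0 := by exact_mod_cast hq
  have ha : IsCoprime a q := Int.isCoprime_iff_gcd_eq_one.2 (by
    have := ρ.reduced
    simpa [Int.gcd] using this)
  set β : ℝ := α - ρ with hβ
  set z : Fin 4 → ℂ := fun j => ((β + cr j * η : ℝ) : ℂ) + (y : ℝ) * I with hz
  have hzi : ∀ j, (z j).im = y := by
    intro j
    simp only [hz, Complex.add_im, Complex.ofReal_im, Complex.mul_I_im, Complex.ofReal_re, zero_add]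
  have hzr : ∀ j, (z j).re = β + cr j * η := by
    intro j
    simp only [hz, Complex.add_re, Complex.ofReal_re, Complex.mul_I_re, Complex.ofReal_im, neg_zero,
      add_zero]
  have e1 : ∀ v : Fin 4 → ℤ, (ψ v * e (η * Q2 v) * ee (y * I * nsq v)) * ee (α * nsq v) =
      (ψ v * ee ((a * nsq v : ℤ) / q)) * ∏ j, ee (z j * (v j : ℂ) ^ 2) := by
    intro v
    rw [e_eq, ← ee_sum, mul_assoc (ψ v), mul_assoc (ψ v), mul_assoc (ψ v), ← ee_add, ← ee_add,
      ← ee_add]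
    congr 2
    have : (ρ : ℝ) = a / q := by rw [Rat.cast_def]
    simp only [hz, hβ, this, Fin.sum_univ_four, nsq_eq', Q2, cr, Matrix.cons_val_zero,
      Matrix.cons_val_one, Matrix.cons_val]
    push_cast
    ring
  simp_rw [e1]
  have hRy : y ≤ R * y := le_mul_of_one_le_left hy.le hR
  have hcη : ∀ j, |cr j * η| ≤ 7 * (R * y) := fun j => by
    rw [abs_mul]
    exact mul_le_mul (cr_le j) hη (abs_nonneg _) (by norm_num)
  set Z : ℝ := |β| + 8 * (R * y) with hZ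
  have hZ0 : 0 < Z := by positivity
  have hx3 : ∀ j, ‖z j‖ ≤ Z := fun j => by
    have b1 := Complex.norm_le_abs_re_add_abs_im (z j)
    rw [hzr, hzi, abs_of_pos hy] at b1
    have b2 := abs_add_le β (cr j * η)
    have b3 := hcη j
    linarith
  have hx1 : ∀ j, Z / (16 * R) ≤ ‖z j‖ := fun j => by
    have b1 : y ≤ ‖z j‖ :=
      (hzi j).symm.le.trans ((le_abs_self _).trans (Complex.abs_im_le_norm _))
    have b2 : |β + cr j * η| ≤ ‖z j‖ := hzr j ▸ Complex.abs_re_le_norm _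
    have b3 := hcη j
    have b4 : |β| ≤ |β + cr j * η| + |cr j * η| := by
      have := abs_sub (β + cr j * η) (cr j * η)
      rwa [add_sub_cancel_right] at this
    have b5 : R * y ≤ R * ‖z j‖ := by gcongr
    have b6 : ‖z j‖ ≤ R * ‖z j‖ := le_mul_of_one_le_left (norm_nonneg _) hR
    rw [div_le_iff₀ (by positivity)]
    linarith
  have h2 := h (M * q) _ z (4 * M ^ 8 * q ^ 2) y (Z / (16 * R)) Z (mul_ne_zero he hq)
    (per_twist hq hψ a) hy hzi (fhat_zero_of_cusp hq hc ha) (norm_fhat_twist_le hq he hψ hb ha)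
    (by positivity) hx1 hx3
  refine h2.trans ?_
  have h3 : (q : ℝ) ^ 2 * |β| ^ 2 ≤ y := by
    have h4 : |β| * q ≤ 1 / (N + 1) := by
      rw [le_div_iff₀ (by positivity)] at hρ1 ⊢
      linarith
    have h5 : (|β| * q) ^ 2 ≤ (1 / (N + 1)) ^ 2 := by gcongr
    rw [mul_pow, one_div_pow] at h5
    have h6 : 1 / ((N : ℝ) + 1) ^ 2 ≤ y := by
      rw [div_le_iff₀ (by positivity)]
      rw [div_le_iff₀ hy] at hN2
      linarith
    linarith
  have h7 : (q : ℝ) ^ 2 * y ^ 2 ≤ y := by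
    have h8 : (q : ℝ) ≤ N := by exact_mod_cast hρ2
    have h9 : (q : ℝ) ^ 2 ≤ 1 / y := le_trans (by gcongr) hN1
    rw [le_div_iff₀ hy] at h9
    nlinarith
  have h8 : (q : ℝ) ^ 2 * Z ^ 2 ≤ 130 * R ^ 2 * y := by
    have b1 : Z ^ 2 ≤ 2 * |β| ^ 2 + 128 * (R ^ 2 * y ^ 2) := by
      rw [hZ]; nlinarith [sq_nonneg (|β| - 8 * (R * y))]
    have b2 : (1 : ℝ) ≤ R ^ 2 := one_le_pow₀ hR
    have b3 : R ^ 2 * ((q : ℝ) ^ 2 * y ^ 2) ≤ R ^ 2 * y := by gcongr
    have b4 : y ≤ R ^ 2 * y := le_mul_of_one_le_left hy.le b2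
    calc _ ≤ (q : ℝ) ^ 2 * (2 * |β| ^ 2 + 128 * (R ^ 2 * y ^ 2)) := by gcongr
      _ = 2 * ((q : ℝ) ^ 2 * |β| ^ 2) + 128 * (R ^ 2 * ((q : ℝ) ^ 2 * y ^ 2)) := by ring
      _ ≤ _ := by linarith
  calc _ = C * 4 * 256 * M ^ 8 * R ^ 2 / y ^ 2 * ((q : ℝ) ^ 2 * Z ^ 2) := by
        field_simp; ring
    _ ≤ C * 4 * 256 * M ^ 8 * R ^ 2 / y ^ 2 * (130 * R ^ 2 * y) := by gcongr
    _ = _ := by field_simp

end ThetaP

open ThetaP Complex Real Pool.Agent.P.MP_0ad054_nt.Sun.GammaP in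
theorem pTheta : S_Theta := by
  obtain ⟨C, hC, h⟩ := sup_bound
  refine ⟨Real.exp (2 * π) ^ 2 * C ^ 2, by positivity, ?_⟩
  intro N M ψ η R hN hM hψ hb hc hR hη
  have hN1 : (1 : ℝ) ≤ N := by exact_mod_cast hN
  have hy : (0 : ℝ) < 1 / N := by positivity
  have hy1 : (1 : ℝ) / N ≤ 1 := by rw [div_le_one (by positivity)]; exact hN1
  set c : (Fin 4 → ℤ) → ℂ := fun v =>
    ψ v * e (η * Q2 v) * ee (((1 / N : ℝ) : ℂ) * I * nsq v) with hcd
  have hsum : Summable (fun v => ‖c v‖) := by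
    refine (summable_norm_ee_nsq (τ := ((1 / N : ℝ) : ℂ) * I) (by
      rw [Complex.mul_I_im, Complex.ofReal_re]; exact hy)).of_nonneg_of_le
      (fun _ => norm_nonneg _) fun v => ?_
    simp only [hcd]
    rw [norm_mul, norm_mul, norm_e, mul_one]
    exact mul_le_of_le_one_left (norm_nonneg _) (hb v)
  have hb2 := bessel_int c nsq hsum (G := fun _ => (C * M ^ 8 * R ^ 4 / (1 / N)) ^ 2)
    continuous_const (fun x _ => by
      have := h M ψ η R x (1 / N) hM hψ hb hc hy hy1 hR (by rwa [mul_one_div])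
      exact pow_le_pow_left₀ (norm_nonneg _) this 2) (Icc (0 : ℤ) N)
  simp only [intervalIntegral.integral_const, sub_zero, one_smul] at hb2
  calc _ ≤ Real.exp (2 * π) ^ 2 * (C * M ^ 8 * R ^ 4 / (1 / N)) ^ 2 := by
        refine le_trans ?_ (mul_le_mul_of_nonneg_left hb2 (by positivity))
        rw [mul_sum]
        refine sum_le_sum fun n hn => ?_
        rw [← mul_pow, tsum_ite_nsq]
        have e1 : ∑ v ∈ sphere n, c v = (∑ v ∈ sphere n, ψ v * e (η * Q2 v)) *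
            ee ((1 / N : ℝ) * I * n) := by
          rw [sum_mul]
          exact sum_congr rfl fun v hv => by simp only [hcd]; rw [mem_sphere.1 hv]
        rw [e1, norm_mul, norm_ee]
        have e2 : ((((1 / N : ℝ) : ℂ)) * I * n).im = n / N := by
          rw [show (((1 / N : ℝ) : ℂ)) * I * n = ((n / N : ℝ) : ℂ) * I by push_cast; ring]
          rw [Complex.mul_I_im, Complex.ofReal_re]
        rw [e2, mul_left_comm, ← Real.exp_add]
        gcongr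
        refine le_mul_of_one_le_right (norm_nonneg _) (Real.one_le_exp ?_)
        have : (n : ℝ) / N ≤ 1 := by
          rw [div_le_one (by positivity)]; exact_mod_cast (mem_Icc.1 hn).2
        nlinarith [Real.pi_pos]
    _ = _ := by field_simp

end Pool.Agent.P.MP_0ad054_nt.Clu
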