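import Pool.Agent.P.MP_0ad054_nt.Clu.Defs
import Pool.Agent.P.MP_0ad054_nt.Sun.FinA

/-! The transfer theorem from the common engine. -/

namespace Pool.Agent.P.MP_0ad054_nt.Clu

open Finset Pool.Agent.Lib.H9 Pool.Agent.P.MP_0ad054_nt.Sun Pool.Agent.P.MP_0ad054_nt.Sun.SphereP
open Pool.Agent.P.MP_0ad054_nt.Sun.FinP

namespace TrP

theorem prim_ge {u n D C : ℝ} (hu : 1 ≤ u) (hn : u ^ 799 ≤ n) (hD0 : 0 < D) (hD : D ≤ u)
    (hC0 : 0 ≤ C) (hC : 4 * C ≤ u) :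
    n / (4 * D) ≤ n / (2 * D) - C * D ^ 9 * n ^ (39 / 40 : ℝ) := by
  have hn0 : 0 < n := lt_of_lt_of_le (by positivity) hn
  obtain ⟨x, hx⟩ : ∃ x, x = n ^ (1 / 40 : ℝ) := ⟨_, rfl⟩
  have hx0 : 0 ≤ x := hx ▸ by positivity
  have h40 : x ^ 40 = n := by
    rw [hx, ← Real.rpow_natCast, ← Real.rpow_mul hn0.le]; norm_num
  have h39 : n ^ (39 / 40 : ℝ) = x ^ 39 := by
    rw [hx, ← Real.rpow_natCast, ← Real.rpow_mul hn0.le]; norm_num
  have h1 : u ^ 11 ≤ x := by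
    refine (pow_le_pow_iff_left₀ (by positivity) hx0 (n := 40) (by norm_num)).1 ?_
    rw [h40, ← pow_mul]
    exact (pow_le_pow_right₀ hu (by norm_num)).trans hn
  have h2 : C * D ^ 9 * x ^ 39 ≤ n / (4 * D) := by
    rw [le_div_iff₀ (by positivity), ← h40]
    calc C * D ^ 9 * x ^ 39 * (4 * D) = 4 * C * D ^ 10 * x ^ 39 := by ring
      _ ≤ u * u ^ 10 * x ^ 39 := by gcongr
      _ = u ^ 11 * x ^ 39 := by ring
      _ ≤ x * x ^ 39 := by gcongr
      _ = _ := by ring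
  have h3 : n / (2 * D) = 2 * (n / (4 * D)) := by field_simp; norm_num
  rw [h39]; linarith

theorem Q2_mem {n : ℕ} {v : Fin 4 → ℤ} (hv : v ∈ psphere n) :
    ∃ m : ℕ, Q2 v = m ∧ n ≤ m ∧ m ≤ 7 * n := by
  have h := mem_sphere.1 (mem_filter.1 hv).1
  rw [nsq_eq'] at h
  have h1 : (n : ℤ) ≤ Q2 v := by
    rw [Q2]; nlinarith [sq_nonneg (v 1), sq_nonneg (v 2), sq_nonneg (v 3)]
  have h2 : Q2 v ≤ 7 * n := by
    rw [Q2]; nlinarith [sq_nonneg (v 1), sq_nonneg (v 2), sq_nonneg (v 0)]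
  exact ⟨(Q2 v).toNat, by omega, by omega, by omega⟩

end TrP

open TrP in
theorem pTransfer (hC : S_Core) (hO : S_Om) (hP : S_Prim) : S_Transfer := by
  classical
  obtain ⟨W, cl, hW0, hW2, hcl, hC⟩ := hC
  obtain ⟨CP, hCP, hP⟩ := hP
  refine ⟨W, hW0, fun k A => ?_⟩
  obtain ⟨B, C, N0, hC0, hjB, hC⟩ := hC (2 * A + k + 1) (1 / 800) (by norm_num)
  obtain ⟨l0, hl0⟩ := exists_nat_ge (4 * CP + 2)
  obtain ⟨N1, hN1⟩ := params (ε := 1 / 800) (by norm_num) (B + 1) l0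
  refine ⟨B, 4 * C * W + 3, N0 + N1 + 1, by positivity, fun N hN r S hr1 hr2 hS hw E hE => ?_⟩
  obtain ⟨D, y, hGD, hD, hDel, hy1, hy2, hC⟩ := hC N (by omega)
  obtain ⟨l, hl1, hl2, hl3, hl4⟩ := hN1 N (by omega)
  have hN' : (0 : ℝ) < N := by exact_mod_cast (by omega : 0 < N)
  have hL := one_le_LL N
  set L := LL N with hLd
  obtain ⟨u, hu⟩ : ∃ u : ℝ, u = (N : ℝ) ^ (1 / 800 : ℝ) := ⟨_, rfl⟩
  have huN : u ^ 800 = N := by
    rw [hu, ← Real.rpow_natCast, ← Real.rpow_mul hN'.le]; norm_num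
  rw [← hu] at hD hy2 hl4
  have hl4' : l ≤ l ^ 4 := Nat.le_self_pow (by norm_num) _
  have hLu : L ^ (B + 1) ≤ u := hl3.trans ((pow_le_pow_right₀ one_le_two (by omega)).trans hl4)
  have hL2 : 4 * CP + 2 ≤ L := hl0.trans (le_trans (by exact_mod_cast hl1) hl2)
  have hLu' : L ≤ u := (le_self_pow₀ hL (by omega)).trans hLu
  have hu2 : 2 ≤ u := by linarith
  have hu1 : 1 ≤ u := by linarith
  have hD0 : (0 : ℝ) < D := by exact_mod_cast Nat.pos_of_ne_zero hGD.1.ne_zero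
  have hd0 : (0 : ℝ) < (Del D).card := by exact_mod_cast card_pos.2 hDel
  have hru : u ^ 799 ≤ r := by
    refine le_trans ?_ hr1
    rw [le_div_iff₀ (by positivity), ← huN, pow_succ u 799]; gcongr
  have hyr : y < r := by
    have : u ^ 2 ≤ u ^ 799 := pow_le_pow_right₀ hu1 (by norm_num)
    exact_mod_cast (by nlinarith : (y : ℝ) < r)
  have hy0 : 1 ≤ y := by exact_mod_cast (one_le_pow₀ hL).trans hy1
  have hX : 2 * (r : ℝ) ≤ N / L ^ A := by
    calc _ ≤ L * (N / L ^ B) := by gcongr; linarith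
      _ ≤ L * (N / L ^ (A + 1)) := by gcongr; omega
      _ = _ := by field_simp; ring
  have hXN : N / L ^ A ≤ N := div_le_self hN'.le (one_le_pow₀ hL)
  have hrN : r ≤ N := by exact_mod_cast (by linarith [Nat.cast_nonneg (α := ℝ) r] : (r : ℝ) ≤ N)
  set E' := E.filter fun n : ℕ => N / L ^ A ≤ n ∧ ∀ d : ℕ, y < d → ¬ d ^ 2 ∣ n with hE'
  have key : ∀ n0 ∈ range W, ((E'.filter fun n => n % W = n0).card : ℝ) ≤ 4 * C * (N / L ^ A) := by
    intro n0 _
    set F := E'.filter fun n => n % W = n0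
    rcases F.eq_empty_or_nonempty with h | ⟨n1, hn1⟩
    · rw [h, card_empty, Nat.cast_zero]; positivity
    have hodd : Odd (n0 : ℤ) := by
      have h1 := (hE n1 (mem_filter.1 (mem_filter.1 hn1).1).1).2.1
      rw [← (mem_filter.1 hn1).2, Int.odd_coe_nat, Nat.odd_iff, Nat.mod_mod_of_dvd _ hW2]
      exact Nat.odd_iff.1 h1
    set S' := (Ioc y (9 * N)).filter fun t : ℕ => t ∈ S ∧ (W : ℤ) ∣ t - cl n0 with hS'
    have hF : ∀ n ∈ F, n ∈ E ∧ 2 * r ≤ n ∧ N / L ^ A ≤ n := fun n hn => by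
      have h := mem_filter.1 (mem_filter.1 hn).1
      exact ⟨h.1, by exact_mod_cast hX.trans h.2.1, h.2.1⟩
    have h1 := hC n0 r S' F hodd hr1 hr2 (fun t ht => by
      simp only [hS', mem_filter, mem_Ioc] at ht
      exact ⟨hS t ht.2.1, ht.1.1, ht.1.2, ht.2.2⟩) (fun n hn => by
      obtain ⟨h1, h2, -⟩ := hF n hn
      refine ⟨by omega, (hE n h1).1, ?_, (mem_filter.1 (mem_filter.1 hn).1).2.2, ?_⟩
      · rw [← (mem_filter.1 hn).2]
        exact ⟨n / W, by push_cast; linarith [Int.emod_add_mul_ediv (n : ℤ) W]⟩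
      · rintro ⟨a, b, c, d, p, e1, e2, e3⟩
        exact (hE n h1).2.2 ⟨a, b, c, d, p, e1, e2, (mem_filter.1 (mem_coe.1 e3)).2.1⟩)
    have h2 : (Del D).card * (F.card * (N / L ^ A / (4 * D) * (1 / L ^ k))) ≤ C * (Del D).card *
        ((N : ℝ) ^ 2 / D) / L ^ (2 * A + k + 1) := by
      refine le_trans ?_ h1
      rw [← nsmul_eq_mul, ← sum_const]
      refine sum_le_sum fun δ hδ => ?_
      rw [← nsmul_eq_mul, ← sum_const]
      refine sum_le_sum fun n hn => ?_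
      obtain ⟨a1, a2, a3⟩ := hF n hn
      have a4 := (prim_ge hu1 (n := n) (hru.trans (by exact_mod_cast (by omega : r ≤ n))) hD0 hD
        hCP.le (by linarith)).trans (hP D n δ hGD hδ (hE n a1).2.1)
      refine le_trans ?_ (card_nsmul_le_sum _ _ (1 / L ^ k) fun v hv => ?_)
      · rw [nsmul_eq_mul]
        gcongr
        exact le_trans (by gcongr) a4
      obtain ⟨m, e1, e2, e3⟩ := Q2_mem (mem_filter.1 hv).1
      have := (hE n a1).1
      rw [e1]
      refine hO.2.2.1 r m S' _ (by omega) (by omega) fun x b1 b2 => ?_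
      rw [one_div_mul_eq_div]
      refine (hw _ (hcl n0 hodd) x (by omega) (by omega)).trans ?_
      refine Nat.cast_le.2 (card_le_card fun t ht => ?_)
      simp only [hS', mem_filter, mem_Ioc, mem_Ico] at ht ⊢
      exact ⟨⟨⟨by omega, by omega⟩, ht.2⟩, ht.1⟩
    have h3 : (0 : ℝ) < (Del D).card * (N / L ^ A / (4 * D) * (1 / L ^ k)) := by positivity
    refine le_of_mul_le_mul_right ?_ h3
    calc _ = _ := by ring
      _ ≤ _ := h2
      _ ≤ C * (Del D).card * ((N : ℝ) ^ 2 / D) / L ^ (2 * A + k) :=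
        div_le_div_of_nonneg_left (by positivity) (by positivity) (pow_le_pow_right₀ hL (by omega))
      _ = _ := by field_simp; ring
  have c1 : (E'.card : ℝ) ≤ W * (4 * C * (N / L ^ A)) := by
    rw [card_eq_sum_card_fiberwise (f := fun n => n % W) (t := range W)
      (fun n _ => mem_coe.2 (mem_range.2 (Nat.mod_lt _ hW0))), Nat.cast_sum]
    exact (sum_le_card_nsmul _ _ _ key).trans_eq (by rw [card_range, nsmul_eq_mul])
  set R := range (⌊N / L ^ A⌋₊ + 1)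
  have c2 := card_sq_dvd N y hy0 (E \ (E' ∪ R)) fun n hn => by
    rw [mem_sdiff, mem_union, not_or, hE', mem_filter, mem_range] at hn
    have h0 := (hE n hn.1).2.1.pos
    have h1 := (hE n hn.1).1
    refine ⟨h0, h1, by_contra fun h => hn.2.1 ⟨hn.1, ?_, fun d hd hd' => h ⟨d, mem_Ioc.2 ⟨hd, ?_⟩,
      hd'⟩⟩⟩
    · exact (Nat.lt_floor_add_one _).le.trans (by exact_mod_cast not_lt.1 hn.2.2)
    · exact ((Nat.le_self_pow two_ne_zero d).trans (Nat.le_of_dvd h0 hd')).trans h1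
  have c3 : (N : ℝ) / y ≤ N / L ^ A := by
    gcongr; exact (pow_le_pow_right₀ hL (by omega)).trans hy1
  have c4 : (⌊N / L ^ A⌋₊ : ℝ) ≤ N / L ^ A := Nat.floor_le (by positivity)
  have c5 : E.card ≤ (E \ (E' ∪ R)).card + (E'.card + R.card) :=
    card_le_card_sdiff_add_card.trans (by gcongr; exact card_union_le _ _)
  have c6 : (E.card : ℝ) ≤ (E \ (E' ∪ R)).card + (E'.card + (⌊N / L ^ A⌋₊ + 1)) := by
    rw [card_range] at c5; exact_mod_cast c5
  have c7 : (1 : ℝ) ≤ r := by exact_mod_cast (by omega : 1 ≤ r)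
  rw [mul_div_assoc]
  nlinarith

end Pool.Agent.P.MP_0ad054_nt.Clu
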