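import Pool.Agent.P.MP_0ad054_nt.Clu.Defs

/-! The local density at two. -/

namespace Pool.Agent.P.MP_0ad054_nt.Clu

open Finset Pool.Agent.Lib.H9 Pool.Agent.P.MP_0ad054_nt.Sun Pool.Agent.P.MP_0ad054_nt.Sun.SphereP

namespace TwoP

theorem red (e : ℕ) (he : 1 ≤ e) (x : ℤ) :
    ∃ x' ∈ Ico (0 : ℤ) (2 ^ e), (2 : ℤ) ^ (e + 1) ∣ x' ^ 2 - x ^ 2 := by
  have hp : (0 : ℤ) < 2 ^ e := by positivity
  refine ⟨x % 2 ^ e, mem_Ico.2 ⟨Int.emod_nonneg _ hp.ne', Int.emod_lt_of_pos _ hp⟩, ?_⟩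
  obtain ⟨d, rfl⟩ : ∃ d, e = d + 1 := ⟨e - 1, by omega⟩
  rw [Int.emod_def]
  exact ⟨-(x * (x / 2 ^ (d + 1))) + 2 ^ d * (x / 2 ^ (d + 1)) ^ 2, by ring⟩

theorem ex (h : S_Sq) {e : ℕ} {n t s z w al : ℤ} (he : 6 ≤ e) (h1 : 8 ∣ al - 1)
    (h2 : t - n - 4 * z ^ 2 - 6 * w ^ 2 = 2 * s ^ 2 * al) (h3 : 8 ∣ n - s ^ 2 - z ^ 2 - w ^ 2 - 1) :
    ∃ x ∈ Ico (0 : ℤ) (2 ^ e), ∃ y ∈ Ico (0 : ℤ) (2 ^ e), ¬ 2 ∣ x ∧
      2 ^ (e + 1) ∣ x ^ 2 + y ^ 2 + z ^ 2 + w ^ 2 - n ∧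
      2 ^ e ∣ x ^ 2 + 3 * y ^ 2 + 5 * z ^ 2 + 7 * w ^ 2 - t := by
  have d8 : (8 : ℤ) ∣ 2 ^ e := by
    have := pow_dvd_pow (2 : ℤ) (show 3 ≤ e by omega)
    simpa using this
  have d1 : (2 : ℤ) ^ e ∣ 2 ^ (e + 1) := pow_dvd_pow _ (by omega)
  obtain ⟨y1, hy1⟩ := h.2.2.2.2.1 e al h1
  obtain ⟨y, hy, hy'⟩ := red e (by omega) (s * y1)
  have h4 : 8 ∣ (n - y ^ 2 - z ^ 2 - w ^ 2) - 1 := by
    have a1 := (d8.trans d1).trans hy'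
    have a2 := d8.trans hy1
    have e1 : (n - y ^ 2 - z ^ 2 - w ^ 2) - 1 = (n - s ^ 2 - z ^ 2 - w ^ 2 - 1) -
        (y ^ 2 - (s * y1) ^ 2) - s ^ 2 * (y1 ^ 2 - al) - s ^ 2 * (al - 1) := by ring
    rw [e1]
    exact ((h3.sub a1).sub (a2.mul_left _)).sub (h1.mul_left _)
  obtain ⟨x1, hx1⟩ := h.2.2.2.2.1 (e + 1) _ h4
  obtain ⟨x, hx, hx'⟩ := red e (by omega) x1
  have h5 : (2 : ℤ) ^ (e + 1) ∣ x ^ 2 + y ^ 2 + z ^ 2 + w ^ 2 - n := by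
    have := hx'.add hx1
    rwa [show x ^ 2 - x1 ^ 2 + (x1 ^ 2 - (n - y ^ 2 - z ^ 2 - w ^ 2)) =
      x ^ 2 + y ^ 2 + z ^ 2 + w ^ 2 - n by ring] at this
  refine ⟨x, hx, y, hy, ?_, h5, ?_⟩
  · rintro ⟨q, rfl⟩
    have a1 := ((d8.trans d1).trans h5).add h4
    have e1 : (2 * q) ^ 2 + y ^ 2 + z ^ 2 + w ^ 2 - n + (n - y ^ 2 - z ^ 2 - w ^ 2 - 1) =
        4 * q ^ 2 - 1 := by ring
    rw [e1] at a1
    omega
  · have e1 : x ^ 2 + 3 * y ^ 2 + 5 * z ^ 2 + 7 * w ^ 2 - t =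
        (x ^ 2 + y ^ 2 + z ^ 2 + w ^ 2 - n) + 2 * (y ^ 2 - (s * y1) ^ 2) +
          2 * s ^ 2 * (y1 ^ 2 - al) := by linear_combination -h2
    rw [e1]
    exact ((d1.trans h5).add ((d1.trans hy').mul_left _)).add (hy1.mul_left _)

theorem nsq_upd (v : Fin 4 → ℤ) (j : Fin 4) (x : ℤ) :
    nsq (Function.update v j x) = nsq v - v j ^ 2 + x ^ 2 := by
  fin_cases j <;> simp [nsq, Fin.sum_univ_four] <;> ring

theorem one (h : S_Sq) (e : ℕ) (n : ℤ) (j : Fin 4) :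
    ((res (2 ^ e)).filter (fun v => ¬ 2 ∣ v j ∧ (2 : ℤ) ^ (e + 1) ∣ nsq v - n)).card ≤
      2 * (2 ^ e) ^ 3 := by
  have h6 := h.2.2.2.2.2 (fun _ => Ico (0 : ℤ) ((2 ^ e : ℕ) : ℤ)) j
    (fun v => if ¬ 2 ∣ v j ∧ (2 : ℤ) ^ (e + 1) ∣ nsq v - n then 1 else 0)
  have hb : ∀ v ∈ res (2 ^ e), ∑ x ∈ Ico (0 : ℤ) ((2 ^ e : ℕ) : ℤ),
      (if ¬ 2 ∣ Function.update v j x j ∧ (2 : ℤ) ^ (e + 1) ∣ nsq (Function.update v j x) - n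
        then 1 else 0) ≤ 2 := by
    intro v _
    rw [← card_filter]
    refine le_trans (le_of_eq ?_) (h.2.2.2.1 e (n - nsq v + v j ^ 2))
    push_cast
    congr 1
    refine filter_congr fun x _ => ?_
    rw [Function.update_self, nsq_upd,
      show nsq v - v j ^ 2 + x ^ 2 - n = x ^ 2 - (n - nsq v + v j ^ 2) by ring]
  have h7 := sum_le_card_nsmul _ _ _ hb
  rw [card_res, smul_eq_mul] at h7
  have h8 : (Ico (0 : ℤ) ((2 ^ e : ℕ) : ℤ)).card = 2 ^ e := by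
    rw [Int.card_Ico, sub_zero, Int.toNat_natCast]
  rw [h8, ← card_filter] at h6
  have h9 : 2 ^ e * ((res (2 ^ e)).filter
      (fun v => ¬ 2 ∣ v j ∧ (2 : ℤ) ^ (e + 1) ∣ nsq v - n)).card ≤ 2 ^ e * (2 * (2 ^ e) ^ 3) :=
    calc _ = _ := h6.symm
      _ ≤ (2 ^ e) ^ 4 * 2 := h7
      _ = _ := by ring
  exact Nat.le_of_mul_le_mul_left h9 (by positivity)

theorem upper (h : S_Sq) (e : ℕ) (n : ℤ) : (P0 2 e n).card ≤ 8 * (2 ^ e) ^ 3 := by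
  have hs : P0 2 e n ⊆ univ.biUnion fun j : Fin 4 =>
      (res (2 ^ e)).filter (fun v => ¬ 2 ∣ v j ∧ (2 : ℤ) ^ (e + 1) ∣ nsq v - n) := by
    intro v hv
    simp only [P0, pr, nm, mem_filter, if_true, not_forall] at hv
    obtain ⟨h1, ⟨j, hj⟩, h2⟩ := hv
    exact mem_biUnion.2 ⟨j, mem_univ _, mem_filter.2 ⟨h1, by simpa using hj, by simpa using h2⟩⟩
  refine (card_le_card hs).trans (card_biUnion_le.trans ?_)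
  refine (sum_le_card_nsmul _ _ _ fun j _ => one h e n j).trans (le_of_eq ?_)
  simp only [card_univ, Fintype.card_fin, smul_eq_mul]
  ring

theorem lower (h : S_Sq) {e : ℕ} {n t s z0 w0 : ℤ} (he : 6 ≤ e) (hs : s = 1 ∨ s = 2)
    (h2 : 64 ∣ t - n - 4 * z0 ^ 2 - 6 * w0 ^ 2 - 2 * s ^ 2)
    (h3 : 8 ∣ n - s ^ 2 - z0 ^ 2 - w0 ^ 2 - 1) :
    (2 ^ (e - 6)) ^ 2 ≤ ((P0 2 e n).filter (fun v => ((2 : ℕ) : ℤ) ^ e ∣ Q2 v - t)).card := by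
  have hd : 64 ∣ 2 ^ e := by
    have := pow_dvd_pow 2 he
    simpa using this
  have hq : 2 ^ e / 64 = 2 ^ (e - 6) := by
    rw [show (64 : ℕ) = 2 ^ 6 by norm_num, Nat.pow_div he two_pos]
  have c1 := h.1 (2 ^ e) 64 z0 (by positivity) hd
  have c2 := h.1 (2 ^ e) 64 w0 (by positivity) hd
  rw [hq] at c1 c2
  rw [sq]
  nth_rewrite 1 [← c1]
  rw [← c2, ← card_product]
  refine card_le_card_of_surjOn (fun v => (v 2, v 3)) ?_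
  rintro ⟨z, w⟩ hzw
  simp only [coe_product, Set.mem_prod, mem_coe, mem_filter, Nat.cast_ofNat] at hzw
  obtain ⟨⟨hz, u, hu⟩, hw, u', hu'⟩ := hzw
  obtain rfl : z = z0 + 64 * u := by linarith
  obtain rfl : w = w0 + 64 * u' := by linarith
  obtain ⟨q, hq2⟩ := h2
  obtain ⟨q', hq3⟩ := h3
  obtain ⟨al, a1, a2⟩ : ∃ al : ℤ, 8 ∣ al - 1 ∧
      t - n - 4 * (z0 + 64 * u) ^ 2 - 6 * (w0 + 64 * u') ^ 2 = 2 * s ^ 2 * al := by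
    rcases hs with rfl | rfl
    · exact ⟨1 + 8 * (4 * (q - 8 * z0 * u - 256 * u ^ 2 - 12 * w0 * u' - 384 * u' ^ 2)),
        ⟨_, add_sub_cancel_left _ _⟩, by linear_combination hq2⟩
    · exact ⟨1 + 8 * (q - 8 * z0 * u - 256 * u ^ 2 - 12 * w0 * u' - 384 * u' ^ 2),
        ⟨_, add_sub_cancel_left _ _⟩, by linear_combination hq2⟩
  obtain ⟨x, hx, y, hy, b1, b2, b3⟩ := ex h he a1 a2
    ⟨q' - 16 * z0 * u - 512 * u ^ 2 - 16 * w0 * u' - 512 * u' ^ 2, by linear_combination hq3⟩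
  refine ⟨![x, y, z0 + 64 * u, w0 + 64 * u'], ?_, by simp⟩
  simp only [P0, pr, nm, if_true, coe_filter, mem_filter, Set.mem_ofPred_eq]
  refine ⟨⟨mem_res.2 fun j => ?_, fun hh => b1 (by simpa using hh 0), ?_⟩, ?_⟩
  · rw [mem_Ico] at hx hy hz hw
    push_cast at hz hw ⊢
    fin_cases j
    · simpa using hx
    · simpa using hy
    · simpa using hz
    · simpa using hw
  · simpa [nsq_eq'] using b2
  · simpa [Q2] using b3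

theorem fin (h : S_Sq) {e : ℕ} {n t s z0 w0 : ℤ} (he : 6 ≤ e) (hs : s = 1 ∨ s = 2)
    (h2 : 64 ∣ t - n - 4 * z0 ^ 2 - 6 * w0 ^ 2 - 2 * s ^ 2)
    (h3 : 8 ∣ n - s ^ 2 - z0 ^ 2 - w0 ^ 2 - 1) : 1 / 2 ^ 16 ≤ rho 2 e n t := by
  have l := lower h he hs h2 h3
  have u := upper h e n
  have p : 0 < (P0 2 e n).card :=
    lt_of_lt_of_le (by positivity) (l.trans (card_filter_le _ _))
  obtain ⟨d, rfl⟩ : ∃ d, e = d + 6 := ⟨e - 6, by omega⟩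
  rw [Nat.add_sub_cancel] at l
  have l' : ((2 : ℝ) ^ d) ^ 2 ≤
      ((P0 2 (d + 6) n).filter (fun v => ((2 : ℕ) : ℤ) ^ (d + 6) ∣ Q2 v - t)).card := by
    exact_mod_cast l
  have u' : ((P0 2 (d + 6) n).card : ℝ) ≤ 8 * ((2 : ℝ) ^ (d + 6)) ^ 3 := by exact_mod_cast u
  rw [rho, le_div_iff₀ (by exact_mod_cast p)]
  calc 1 / 2 ^ 16 * ((P0 2 (d + 6) n).card : ℝ) ≤ 1 / 2 ^ 15 * (8 * ((2 : ℝ) ^ (d + 6)) ^ 3) :=
        mul_le_mul (by norm_num) u' (Nat.cast_nonneg _) (by norm_num)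
    _ = ((2 : ℕ) : ℝ) ^ (d + 6) * ((2 : ℝ) ^ d) ^ 2 := by push_cast; ring
    _ ≤ _ := mul_le_mul_of_nonneg_left l' (by positivity)

end TwoP

theorem pTwo (h : S_Sq) : S_Two := by
  intro n0 hn
  obtain ⟨s, z0, w0, hs, h3⟩ : ∃ s z0 w0 : ℤ, (s = 1 ∨ s = 2) ∧
      8 ∣ n0 - s ^ 2 - z0 ^ 2 - w0 ^ 2 - 1 := by
    obtain ⟨k, rfl⟩ := hn
    have : k % 4 = 0 ∨ k % 4 = 1 ∨ k % 4 = 2 ∨ k % 4 = 3 := by omega
    rcases this with a | a | a | a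
    · exact ⟨2, 2, 0, Or.inr rfl, by omega⟩
    · exact ⟨1, 1, 0, Or.inl rfl, by omega⟩
    · exact ⟨2, 0, 0, Or.inr rfl, by omega⟩
    · exact ⟨1, 1, 2, Or.inl rfl, by omega⟩
  refine ⟨n0 + 2 * (s ^ 2 + 2 * z0 ^ 2 + 3 * w0 ^ 2), hn.add_even (even_two_mul _),
    fun e n t he h1 h2 => TwoP.fin h he hs (z0 := z0) (w0 := w0) ?_ ?_⟩
  · rw [show t - n - 4 * z0 ^ 2 - 6 * w0 ^ 2 - 2 * s ^ 2 =
      t - (n0 + 2 * (s ^ 2 + 2 * z0 ^ 2 + 3 * w0 ^ 2)) - (n - n0) by ring]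
    exact h2.sub h1
  · rw [show n - s ^ 2 - z0 ^ 2 - w0 ^ 2 - 1 =
      n0 - s ^ 2 - z0 ^ 2 - w0 ^ 2 - 1 + (n - n0) by ring]
    exact h3.add ((show (8 : ℤ) ∣ 64 by norm_num).trans h1)

end Pool.Agent.P.MP_0ad054_nt.Clu
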