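import Pool.Agent.P.MP_0ad054_nt.Clu.Defs

/-! The smoothed window sum of a cusp form. -/

namespace Pool.Agent.P.MP_0ad054_nt.Clu

open Finset Pool.Agent.Lib.H9 Pool.Agent.P.MP_0ad054_nt.Sun Pool.Agent.P.MP_0ad054_nt.Sun.SphereP
open scoped ComplexConjugate

namespace WinP

theorem sum_Ico_range (q : ℕ) (f : ℤ → ℂ) :
    ∑ x ∈ Ico (0 : ℤ) q, f x = ∑ i ∈ range q, f i := by
  rw [Int.Ico_eq_finset_map, sum_map]; simp

theorem orth {q : ℕ} (hq : q ≠ 0) (c : ℤ) :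
    ∑ s ∈ range q, e ((s : ℝ) / q * c) = if (q : ℤ) ∣ c then (q : ℂ) else 0 := by
  rw [← sum_ee_orth hq c, sum_Ico_range]
  refine sum_congr rfl fun s _ => ?_
  unfold e ee
  congr 1
  push_cast
  ring

/-- the geometric sum -/
noncomputable def bb (r : ℕ) (x : ℝ) : ℂ := ∑ i ∈ range r, e (x * i)

theorem bb_le (r : ℕ) (x : ℝ) : ‖bb r x‖ ≤ mn r x := by
  have h := geom_Ico x 0 r (Y := r) (by simp)
  rw [sum_Ico_range] at h
  simpa [bb] using h

theorem bb_sq (r : ℕ) (x : ℝ) (d : ℤ) : ((‖bb r x‖ ^ 2 : ℝ) : ℂ) * e (x * d) =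
    ∑ i ∈ range r, ∑ j ∈ range r, e (x * ((d - i + j : ℤ) : ℝ)) := by
  rw [normSq_eq, bb, map_sum, mul_comm (∑ i ∈ range r, e (x * i)), sum_mul_sum, sum_mul]
  refine sum_congr rfl fun i _ => ?_
  rw [sum_mul]
  refine sum_congr rfl fun j _ => ?_
  rw [conj_e, ← e_add, ← e_add]
  congr 1
  push_cast
  ring

theorem om_eq {q r : ℕ} (hq : q ≠ 0) (d : ℤ) (hd : |d| + r ≤ q) :
    ((om r d : ℝ) : ℂ) = (∑ s ∈ range q, ((‖bb r ((s : ℝ) / q)‖ ^ 2 : ℝ) : ℂ) *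
      e ((s : ℝ) / q * d)) / ((r : ℂ) ^ 2 * q) := by
  have hq' : (q : ℂ) ≠ 0 := by exact_mod_cast hq
  simp_rw [bb_sq]
  rw [sum_comm]
  have h1 : ∀ i ∈ range r, ∑ s ∈ range q, ∑ j ∈ range r,
      e ((s : ℝ) / q * ((d - i + j : ℤ) : ℝ)) =
      (∑ j ∈ range r, if (i : ℤ) - j = d then (1 : ℂ) else 0) * q := by
    intro i hi
    rw [sum_comm, sum_mul]
    refine sum_congr rfl fun j hj => ?_
    rw [orth hq]
    rw [mem_range] at hi hj
    by_cases h : (i : ℤ) - j = d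
    · rw [if_pos h, if_pos (by rw [show d - i + j = 0 by omega]; exact dvd_zero _), one_mul]
    · rw [if_neg h, if_neg, zero_mul]
      intro h2
      have h3 := Int.eq_zero_of_abs_lt_dvd h2 (by
        have := le_abs_self d
        have := neg_abs_le d
        rw [abs_lt]; constructor <;> omega)
      omega
  rw [sum_congr rfl h1, ← sum_mul, mul_div_mul_right _ _ hq']
  unfold om
  push_cast
  congr 1
  refine sum_congr rfl fun i _ => sum_congr rfl fun j _ => ?_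
  split_ifs <;> simp

theorem card_ball (N : ℕ) (hN : 1 ≤ N) :
    ∑ n ∈ Icc (0 : ℤ) N, ((sphere n).card : ℝ) ≤ 81 * (N : ℝ) ^ 2 := by
  set R := Nat.sqrt N with hR
  have h1 : ∑ n ∈ Icc (0 : ℤ) N, (sphere n).card ≤
      (Fintype.piFinset (fun _ : Fin 4 => Icc (-(R : ℤ)) R)).card := by
    rw [← card_biUnion]
    · refine card_le_card fun v hv => ?_
      obtain ⟨n, hn, hv⟩ := mem_biUnion.1 hv
      rw [mem_sphere] at hv
      rw [mem_Icc] at hn
      rw [Fintype.mem_piFinset]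
      intro j
      have h2 : v j ^ 2 ≤ nsq v := single_le_sum (f := fun j => v j ^ 2)
        (fun _ _ => sq_nonneg _) (mem_univ j)
      have h3 : (N : ℤ) < ((R : ℤ) + 1) ^ 2 := by
        have := Nat.lt_succ_sqrt' N
        exact_mod_cast this
      have h4 : v j ^ 2 < ((R : ℤ) + 1) ^ 2 := by omega
      have h5 := abs_lt_of_sq_lt_sq' h4 (by positivity)
      rw [mem_Icc]; omega
    · intro a _ b _ hab
      rw [Function.onFun, disjoint_left]
      intro v h1 h2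
      exact hab ((mem_sphere.1 h1).symm.trans (mem_sphere.1 h2))
  rw [Fintype.card_piFinset, prod_const, card_univ, Fintype.card_fin, Int.card_Icc] at h1
  have h2 : ((R : ℤ) + 1 - -(R : ℤ)).toNat = 2 * R + 1 := by omega
  rw [h2] at h1
  have h3 : 1 ≤ R := Nat.le_sqrt.2 (by omega)
  have h4 : R * R ≤ N := Nat.sqrt_le N
  have h5 : (2 * R + 1) ^ 4 ≤ 81 * N ^ 2 := by
    calc (2 * R + 1) ^ 4 ≤ (3 * R) ^ 4 := by gcongr; omega
      _ = 81 * (R * R) ^ 2 := by ring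
      _ ≤ 81 * N ^ 2 := by gcongr
  exact_mod_cast h1.trans h5

theorem card_near (N : ℕ) (hN : 1 ≤ N) {R : ℝ} (hR : 1 ≤ R) :
    (((range (20 * N)).filter (fun s : ℕ => dn ((s : ℝ) / (20 * N : ℕ)) ≤ R / N)).card : ℝ) ≤
      42 * R := by
  set K := ⌊20 * R⌋₊ with hK
  have hN' : (0 : ℝ) < N := by exact_mod_cast hN
  have h1 : (range (20 * N)).filter (fun s : ℕ => dn ((s : ℝ) / (20 * N : ℕ)) ≤ R / N) ⊆
      range (K + 1) ∪ (range (K + 1)).image (fun u => 20 * N - u) := by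
    intro s hs
    rw [mem_filter, mem_range] at hs
    have h2 := (dn_div_ge (by omega) hs.1).trans hs.2
    rw [div_le_div_iff₀ (by positivity) hN'] at h2
    have h3 : ((min s (20 * N - s) : ℕ) : ℝ) ≤ 20 * R := by
      have h4 : ((20 * N : ℕ) : ℝ) = 20 * N := by push_cast; ring
      rw [h4] at h2
      by_contra h5
      push Not at h5
      nlinarith
    have h4 : min s (20 * N - s) ≤ K := Nat.le_floor h3
    rw [mem_union, mem_range, mem_image]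
    rcases min_choice s (20 * N - s) with h | h
    · left; omega
    · right; exact ⟨20 * N - s, mem_range.2 (by omega), by omega⟩
  have h2 := (card_le_card h1).trans (card_union_le _ _)
  have h3 : ((range (K + 1)).image (fun u => 20 * N - u)).card ≤ K + 1 :=
    card_image_le.trans (by simp)
  rw [card_range] at h2
  have h4 : (K : ℝ) ≤ 20 * R := Nat.floor_le (by positivity)
  have h5 : (((range (20 * N)).filter
      (fun s : ℕ => dn ((s : ℝ) / (20 * N : ℕ)) ≤ R / N)).card : ℝ) ≤ (K + 1) + (K + 1) := by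
    exact_mod_cast h2.trans (by omega)
  linarith

theorem sum_mn (N r : ℕ) (hN : 1 ≤ N) (hr : r ≤ N) :
    ∑ s ∈ range (20 * N), mn r ((s : ℝ) / (20 * N : ℕ)) ≤ 166 * N * LL N := by
  have hN' : (1 : ℝ) ≤ N := by exact_mod_cast hN
  have h := minsum_block (x := 1 / ((20 * N : ℕ) : ℝ)) (Y := r) (by positivity) (a := 1)
    (q := 20 * N) (by omega) isCoprime_one_left (by simp) 0
  have h1 : ∑ s ∈ range (20 * N), mn r ((s : ℝ) / (20 * N : ℕ)) =
      ∑ i ∈ range (20 * N), mn r (1 / ((20 * N : ℕ) : ℝ) * (((0 : ℤ) : ℝ) + i)) := by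
    refine sum_congr rfl fun s _ => ?_
    congr 1
    push_cast
    ring
  rw [h1]
  refine h.trans ?_
  have h2 : Real.log ((20 * N : ℕ) : ℝ) = Real.log 20 + Real.log N := by
    push_cast
    rw [Real.log_mul (by norm_num) (by positivity)]
  have h3 : Real.log 20 ≤ 3 := by
    rw [Real.log_le_iff_le_exp (by norm_num)]
    have h4 := Real.exp_one_gt_d9
    have h5 : Real.exp 3 = Real.exp 1 ^ 3 := by rw [← Real.exp_nat_mul]; norm_num
    rw [h5]
    calc (20 : ℝ) ≤ 2.7182818283 ^ 3 := by norm_num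
      _ ≤ _ := by gcongr
  have h4 := Real.log_natCast_nonneg N
  have h5 : (r : ℝ) ≤ N := by exact_mod_cast hr
  rw [h2]
  unfold LL
  push_cast
  nlinarith [mul_nonneg (le_trans zero_le_one hN') h4]

/-- the twisted sum -/
noncomputable def tw (N : ℕ) (ψ : (Fin 4 → ℤ) → ℂ) (γ : ℤ → ℂ) (x : ℝ) : ℂ :=
  ∑ n ∈ Icc (0 : ℤ) N, γ n * ∑ v ∈ sphere n, ψ v * e (x * Q2 v)

theorem tw_triv (N : ℕ) (hN : 1 ≤ N) {ψ : (Fin 4 → ℤ) → ℂ} {γ : ℤ → ℂ} (hψ : ∀ v, ‖ψ v‖ ≤ 1)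
    (hγ : ∀ n, ‖γ n‖ ≤ 1) (x : ℝ) : ‖tw N ψ γ x‖ ≤ 81 * (N : ℝ) ^ 2 := by
  refine le_trans ((norm_sum_le _ _).trans (sum_le_sum fun n _ => ?_)) (card_ball N hN)
  rw [norm_mul]
  have h1 : ‖∑ v ∈ sphere n, ψ v * e (x * Q2 v)‖ ≤ (sphere n).card := by
    refine (norm_sum_le _ _).trans ?_
    have := sum_le_card_nsmul (sphere n) (fun v => ‖ψ v * e (x * Q2 v)‖) 1 (fun v _ => by
      rw [norm_mul, norm_e, mul_one]; exact hψ v)
    simpa using this
  calc _ ≤ 1 * ((sphere n).card : ℝ) := by gcongr; exact hγ n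
    _ = _ := one_mul _

theorem tw_near (N : ℕ) (hN : 1 ≤ N) {ψ : (Fin 4 → ℤ) → ℂ} {γ : ℤ → ℂ}
    (hγ : ∀ n, ‖γ n‖ ≤ 1) (x : ℝ) {B : ℝ} (hB : 0 ≤ B)
    (h : ∑ n ∈ Icc (0 : ℤ) N, ‖∑ v ∈ sphere n, ψ v * e ((x - round x) * Q2 v)‖ ^ 2 ≤ B ^ 2) :
    ‖tw N ψ γ x‖ ≤ 2 * Real.sqrt N * B := by
  have h1 : ∀ v : Fin 4 → ℤ, e ((x - round x) * Q2 v) = e (x * Q2 v) := by
    intro v
    rw [← e_add_int _ (round x * Q2 v)]
    congr 1
    push_cast
    ring
  simp_rw [h1] at h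
  have h2 := cs_norm (Icc (0 : ℤ) N) γ (fun n => ∑ v ∈ sphere n, ψ v * e (x * Q2 v))
  have h3 : ∑ n ∈ Icc (0 : ℤ) N, ‖γ n‖ ^ 2 ≤ 4 * (N : ℝ) := by
    have h4 := sum_le_card_nsmul (Icc (0 : ℤ) N) (fun n => ‖γ n‖ ^ 2) 1 (fun n _ => by
      have := hγ n
      have := norm_nonneg (γ n)
      nlinarith)
    rw [Int.card_Icc, show ((N : ℤ) + 1 - 0).toNat = N + 1 by omega] at h4
    have hN' : (1 : ℝ) ≤ N := by exact_mod_cast hN
    simp only [nsmul_eq_mul, mul_one] at h4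
    push_cast at h4
    linarith
  have h5 : ‖tw N ψ γ x‖ ^ 2 ≤ (2 * Real.sqrt N * B) ^ 2 := by
    refine h2.trans ?_
    rw [mul_pow, mul_pow, Real.sq_sqrt (by positivity)]
    calc _ ≤ 4 * (N : ℝ) * B ^ 2 := by gcongr
      _ = _ := by ring
  exact (pow_le_pow_iff_left₀ (norm_nonneg _) (by positivity) two_ne_zero).1 h5

theorem expand (N r : ℕ) (t : ℤ) (ψ : (Fin 4 → ℤ) → ℂ) (γ : ℤ → ℂ) (hN : 1 ≤ N) (hr : r ≤ N)
    (ht0 : 0 ≤ t) (ht : t ≤ 9 * N) :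
    ∑ n ∈ Icc (0 : ℤ) N, γ n * ∑ v ∈ sphere n, ψ v * (om r (Q2 v - t) : ℝ) =
      (∑ s ∈ range (20 * N), ((‖bb r ((s : ℝ) / (20 * N : ℕ))‖ ^ 2 : ℝ) : ℂ) *
        e (-((s : ℝ) / (20 * N : ℕ) * t)) * tw N ψ γ ((s : ℝ) / (20 * N : ℕ))) /
        ((r : ℂ) ^ 2 * (20 * N : ℕ)) := by
  unfold tw
  simp_rw [mul_sum]
  rw [sum_comm, sum_div]
  refine sum_congr rfl fun n hn => ?_
  rw [sum_comm, sum_div]
  refine sum_congr rfl fun v hv => ?_
  rw [mem_sphere, nsq_eq'] at hv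
  rw [mem_Icc] at hn
  have h1 : 0 ≤ Q2 v := by unfold Q2; positivity
  have h2 : Q2 v ≤ 7 * N := by
    unfold Q2
    nlinarith [sq_nonneg (v 0), sq_nonneg (v 1), sq_nonneg (v 2), sq_nonneg (v 3)]
  rw [om_eq (q := 20 * N) (by omega) (Q2 v - t) (by
    have : |Q2 v - t| ≤ 9 * N := by rw [abs_le]; constructor <;> omega
    push_cast
    omega)]
  rw [← mul_div_assoc, ← mul_div_assoc, mul_sum, mul_sum]
  congr 1
  refine sum_congr rfl fun s _ => ?_
  have h3 : e ((s : ℝ) / (20 * N : ℕ) * ((Q2 v - t : ℤ) : ℝ)) =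
      e (-((s : ℝ) / (20 * N : ℕ) * t)) * e ((s : ℝ) / (20 * N : ℕ) * Q2 v) := by
    rw [← e_add]
    congr 1
    push_cast
    ring
  rw [h3]
  ring

end WinP

open WinP in
theorem pWin (h : S_Theta) : S_Win := by
  obtain ⟨C, hC, h⟩ := h
  refine ⟨5 * Real.sqrt C + 400, by positivity, ?_⟩
  intro N M r t R ψ γ hr1 hr ht0 ht hR hM hP hψ hcu hγ
  have hN : 1 ≤ N := hr1.trans hr
  have hN' : (0 : ℝ) < N := by exact_mod_cast hN
  have hr' : (0 : ℝ) < r := by exact_mod_cast hr1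
  have hR0 : 0 < R := by linarith
  have hL : 0 ≤ LL N := by
    have := Real.log_natCast_nonneg N
    unfold LL; linarith
  rw [expand N r t ψ γ hN hr ht0 ht, norm_div]
  have hden : ‖(r : ℂ) ^ 2 * ((20 * N : ℕ) : ℂ)‖ = (r : ℝ) ^ 2 * (20 * N) := by
    rw [norm_mul, norm_pow, Complex.norm_natCast, Complex.norm_natCast]
    push_cast
    ring
  rw [hden, div_le_iff₀ (by positivity)]
  set B : ℝ := Real.sqrt C * (M : ℝ) ^ 8 * R ^ 4 * N with hB
  have hB0 : 0 ≤ B := by positivity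
  have hpt : ∀ s ∈ range (20 * N), ‖((‖bb r ((s : ℝ) / (20 * N : ℕ))‖ ^ 2 : ℝ) : ℂ) *
        e (-((s : ℝ) / (20 * N : ℕ) * t)) * tw N ψ γ ((s : ℝ) / (20 * N : ℕ))‖ ≤
      (if dn ((s : ℝ) / (20 * N : ℕ)) ≤ R / N then (r : ℝ) ^ 2 * (2 * Real.sqrt N * B) else 0) +
        mn r ((s : ℝ) / (20 * N : ℕ)) * (N / (2 * R) * (81 * (N : ℝ) ^ 2)) := by
    intro s _
    set x : ℝ := (s : ℝ) / (20 * N : ℕ)
    rw [norm_mul, norm_mul, norm_e, mul_one, Complex.norm_real,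
      Real.norm_of_nonneg (by positivity)]
    have b1 := bb_le r x
    have b2 := mn_nonneg hr'.le x
    split_ifs with hx
    · have h1 := h N M ψ (x - round x) R hN hM hP hψ hcu hR hx
      have h2 := tw_near N hN (ψ := ψ) hγ x hB0 (h1.trans (le_of_eq (by
        rw [hB, mul_pow, mul_pow, mul_pow, Real.sq_sqrt hC.le]; ring)))
      have h3 : ‖bb r x‖ ≤ r := b1.trans (mn_le hr'.le x)
      have h4 : ‖bb r x‖ ^ 2 * ‖tw N ψ γ x‖ ≤ (r : ℝ) ^ 2 * (2 * Real.sqrt N * B) := by gcongr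
      have h5 : 0 ≤ mn r x * (N / (2 * R) * (81 * (N : ℝ) ^ 2)) := by positivity
      linarith
    · push Not at hx
      have h1 := mn_le_of hr'.le (by positivity) hx.le
      have h2 : 1 / (2 * (R / N)) = N / (2 * R) := by field_simp
      rw [h2] at h1
      have h3 := tw_triv N hN hψ hγ x
      have h4 := b1.trans h1
      rw [zero_add, sq, mul_assoc]
      gcongr
  refine (norm_sum_le _ _).trans ((sum_le_sum hpt).trans ?_)
  rw [sum_add_distrib, ← sum_filter, sum_const, nsmul_eq_mul, ← sum_mul]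
  have c1 := card_near N hN hR
  have c2 := sum_mn N r hN hr
  set X : ℝ := (M : ℝ) ^ 8 * R ^ 5 * Real.sqrt N with hX
  set Y : ℝ := (N : ℝ) ^ 3 * LL N / ((r : ℝ) ^ 2 * R) with hY
  have hX0 : 0 ≤ X := by positivity
  have hY0 : 0 ≤ Y := by positivity
  have hs0 := Real.sqrt_nonneg C
  calc _ ≤ 42 * R * ((r : ℝ) ^ 2 * (2 * Real.sqrt N * B)) +
        166 * N * LL N * (N / (2 * R) * (81 * (N : ℝ) ^ 2)) := by gcongr
    _ = (21 / 5 * Real.sqrt C * X + 6723 / 20 * Y) * ((r : ℝ) ^ 2 * (20 * N)) := by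
        rw [hX, hY, hB]; field_simp; ring
    _ ≤ _ := by
        gcongr
        nlinarith [mul_nonneg hs0 hX0, mul_nonneg hs0 hY0]

end Pool.Agent.P.MP_0ad054_nt.Clu
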