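import Pool.Agent.P.MP_0ad054_nt.Chen.All
import Pool.Agent.P.MP_0ad054_nt.Clu.AP
import Pool.Agent.P.MP_0ad054_nt.Clu.Big
import Pool.Agent.P.MP_0ad054_nt.Clu.Core
import Pool.Agent.P.MP_0ad054_nt.Clu.Cusp
import Pool.Agent.P.MP_0ad054_nt.Clu.Fib
import Pool.Agent.P.MP_0ad054_nt.Clu.Gauss
import Pool.Agent.P.MP_0ad054_nt.Clu.L2
import Pool.Agent.P.MP_0ad054_nt.Clu.Low
import Pool.Agent.P.MP_0ad054_nt.Clu.Odd
import Pool.Agent.P.MP_0ad054_nt.Clu.Om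
import Pool.Agent.P.MP_0ad054_nt.Clu.Per
import Pool.Agent.P.MP_0ad054_nt.Clu.Prim
import Pool.Agent.P.MP_0ad054_nt.Clu.Prod
import Pool.Agent.P.MP_0ad054_nt.Clu.Sing
import Pool.Agent.P.MP_0ad054_nt.Clu.Small
import Pool.Agent.P.MP_0ad054_nt.Clu.Sq
import Pool.Agent.P.MP_0ad054_nt.Clu.Theta
import Pool.Agent.P.MP_0ad054_nt.Clu.Transfer
import Pool.Agent.P.MP_0ad054_nt.Clu.Two
import Pool.Agent.P.MP_0ad054_nt.Clu.Win

/-! The interface statements without hypotheses. -/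

namespace Pool.Agent.P.MP_0ad054_nt.Clu

theorem low_all : S_Low :=
  pLow pOm (pProd pCusp) (pBig (pFib pSq) (pSing pSq) pGauss) (pSmall (pTwo pSq) (pOdd (pFib pSq)))

theorem core_all : S_Core :=
  pCore Chen.trans2_all Sun.delta Chen.primes_all pOm (pAP pPer pOm) (pL2 pPer pOm) (pWin pTheta)
    (pProd pCusp) low_all

theorem transfer_all : S_Transfer := pTransfer core_all pOm pPrim

end Pool.Agent.P.MP_0ad054_nt.Clu
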