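import Pool.Agent.P.MP_0ad054_nt.Chen.Defs
import Pool.Agent.P.MP_0ad054_nt.Sun.SphereA
import Pool.Agent.Lib.helper9.SphereSieve

/-! Definitions and interface statements for the transfer theorem for arbitrary sets of primes. -/

namespace Pool.Agent.P.MP_0ad054_nt.Clu

open Finset Pool.Agent.Lib.H9 Pool.Agent.P.MP_0ad054_nt.Sun Pool.Agent.P.MP_0ad054_nt.Sun.SphereP

/-! ### the kernel -/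

/-- `m [m ∣ d] - 1` -/
noncomputable def ph (m : ℕ) (d : ℤ) : ℝ := (if (m : ℤ) ∣ d then (m : ℝ) else 0) - 1

/-- sets of at most `k` primes up to `y` -/
noncomputable def sub (y k : ℕ) : Finset (Finset ℕ) :=
  (Nat.primesLE y).powerset.filter (fun T => T.card ≤ k)

/-- the truncated kernel -/
noncomputable def KK (y e k : ℕ) (d : ℤ) : ℝ := ∑ T ∈ sub y k, ∏ p ∈ T, ph (p ^ e) d

/-- the triangle weight of width `r` -/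
noncomputable def om (r : ℕ) (d : ℤ) : ℝ :=
  (∑ i ∈ range r, ∑ j ∈ range r, if (i : ℤ) - j = d then (1 : ℝ) else 0) / (r : ℝ) ^ 2

/-- the model of the set `S` -/
noncomputable def gS (y e k r : ℕ) (S : Finset ℕ) (m : ℤ) : ℝ :=
  ∑ t ∈ S, om r (m - t) * KK y e k (m - t)

/-- products of periodic functions on an interval -/
def S_Per : Prop :=
  ∀ (T : Finset ℕ) (e : ℕ) (F : ℕ → ℤ → ℝ) (B : ℕ → ℝ) (a b : ℤ), (∀ p ∈ T, p.Prime) →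
    (∀ p ∈ T, ∀ d d' : ℤ, (p : ℤ) ^ e ∣ d - d' → F p d = F p d') →
    (∀ p ∈ T, ∀ d, |F p d| ≤ B p) →
    |∑ d ∈ Ico a b, ∏ p ∈ T, F p d - ((Ico a b).card : ℝ) *
        ∏ p ∈ T, ((∑ d ∈ Ico (0 : ℤ) ((p : ℤ) ^ e), F p d) / (p : ℝ) ^ e)| ≤
      2 * (∏ p ∈ T, (p : ℝ) ^ e) * ∏ p ∈ T, B p

/-- elementary facts -/
def S_Om : Prop :=
  (∀ r d, 0 ≤ om r d) ∧ (∀ (r : ℕ) (S : Finset ℕ) (m : ℤ), ∑ t ∈ S, om r (m - t) ≤ 1) ∧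
  (∀ (r m : ℕ) (S : Finset ℕ) (δ : ℝ), 1 ≤ r → r ≤ m →
    (∀ x : ℕ, m < x + r → x ≤ m → δ * r ≤ (S.filter (fun t => x ≤ t ∧ t < x + r)).card) →
    δ ≤ ∑ t ∈ S, om r ((m : ℤ) - t)) ∧
  (∀ y k : ℕ, 1 ≤ y → (sub y k).card ≤ y ^ k) ∧
  ∀ (y k : ℕ) (x : ℕ → ℝ), |∑ T ∈ sub y k, ∏ p ∈ T, x p - ∏ p ∈ Nat.primesLE y, (1 + x p)| ≤
    (∏ p ∈ Nat.primesLE y, (1 + 2 * |x p|)) / 2 ^ k

/-- the model has the same sums in progressions -/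
def S_AP : Prop :=
  ∀ (y e k r q X : ℕ) (S : Finset ℕ) (b : ℤ), 1 ≤ r → 1 ≤ e → 1 ≤ q → q ≤ y → y ≤ 2 ^ e → e ≤ k →
    |∑ m ∈ (Icc 3 X).filter (fun m : ℕ => (q : ℤ) ∣ m - b),
      ((if m ∈ S then (1 : ℝ) else 0) - gS y e k r S m)| ≤
      4 * r + 4 + S.card * (2 * ((y : ℝ) ^ (e * k)) ^ 4) / r

/-- the mean square of the model -/
def S_L2 : Prop :=
  ∀ (y e k r N : ℕ) (S : Finset ℕ), 1 ≤ y → 1 ≤ e → (y ^ (e * k)) ^ 6 ≤ r →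
    ∑ m ∈ Icc 3 (7 * N), gS y e k r S (m : ℕ) ^ 2 ≤ 5 * (7 * N + r)

/-! ### cusp forms with a drift -/

def S_Theta : Prop :=
  ∃ C : ℝ, 0 < C ∧ ∀ (N M : ℕ) (ψ : (Fin 4 → ℤ) → ℂ) (η R : ℝ), 1 ≤ N → M ≠ 0 → Per M ψ →
    (∀ v, ‖ψ v‖ ≤ 1) → Cusp M ψ → 1 ≤ R → |η| ≤ R / N →
    ∑ n ∈ Icc (0 : ℤ) N, ‖∑ v ∈ sphere n, ψ v * e (η * Q2 v)‖ ^ 2 ≤
      C * (M : ℝ) ^ 16 * R ^ 8 * (N : ℝ) ^ 2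

def S_Win : Prop :=
  ∃ C : ℝ, 0 < C ∧ ∀ (N M r : ℕ) (t : ℤ) (R : ℝ) (ψ : (Fin 4 → ℤ) → ℂ) (γ : ℤ → ℂ), 1 ≤ r → r ≤ N →
    0 ≤ t → t ≤ 9 * N → 1 ≤ R → M ≠ 0 → Per M ψ → (∀ v, ‖ψ v‖ ≤ 1) → Cusp M ψ →
    (∀ n, ‖γ n‖ ≤ 1) →
    ‖∑ n ∈ Icc (0 : ℤ) N, γ n * ∑ v ∈ sphere n, ψ v * (om r (Q2 v - t) : ℝ)‖ ≤
      C * ((M : ℝ) ^ 8 * R ^ 5 * Real.sqrt N + (N : ℝ) ^ 3 * LL N / ((r : ℝ) ^ 2 * R))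

/-! ### local densities -/

/-- not all coordinates are divisible by `p` -/
def pr (p : ℕ) (v : Fin 4 → ℤ) : Prop := ¬ ∀ j, (p : ℤ) ∣ v j

/-- the modulus to which a vector modulo `p ^ e` determines its squared norm -/
def nm (p e : ℕ) : ℕ := if p = 2 then 2 ^ (e + 1) else p ^ e

open Classical in
/-- primitive points of the sphere modulo `p ^ e` -/
noncomputable def P0 (p e : ℕ) (c : ℤ) : Finset (Fin 4 → ℤ) :=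
  (res (p ^ e)).filter (fun v => pr p v ∧ (nm p e : ℤ) ∣ nsq v - c)

/-- the local density -/
noncomputable def rho (p e : ℕ) (c t : ℤ) : ℝ :=
  (p : ℝ) ^ e * ((P0 p e c).filter (fun v => (p : ℤ) ^ e ∣ Q2 v - t)).card / (P0 p e c).card

open Classical in
/-- the mean of `ph` on a sphere -/
noncomputable def aa (p e : ℕ) (t : ℤ) (v : Fin 4 → ℤ) : ℝ :=
  (if pr p v then rho p e (nsq v) t else 0) - 1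

/-- the coefficients of `Q2` -/
def cz : Fin 4 → ℤ := ![1, 3, 5, 7]

/-- a local condition gives a cusp form -/
def S_Cusp : Prop :=
  ∀ (p e M : ℕ) (f ψ : (Fin 4 → ℤ) → ℂ), p.Prime → 2 ≤ e → M ≠ 0 → ¬ p ∣ M → Per (p ^ e) f →
    (∀ v, ¬ pr p v → f v = 0) →
    (∀ h : ℤ → ℂ, (∀ s s' : ℤ, (nm p e : ℤ) ∣ s - s' → h s = h s') →
      ∑ v ∈ res (p ^ e), f v * h (nsq v) = 0) → Per M ψ →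
    Cusp (p ^ e * M) (fun v => f v * ψ v)

def S_Prod : Prop :=
  (∀ (p e : ℕ) (c t : ℤ), 0 ≤ rho p e c t ∧ rho p e c t ≤ (p : ℝ) ^ e) ∧
  ∀ (T : Finset ℕ) (e D : ℕ) (t : ℤ) (χ : (Fin 4 → ℤ) → ℂ),
    (∀ p ∈ T, p.Prime ∧ ¬ p ∣ D ∧ ¬ (p : ℤ) ∣ t) → 2 ≤ e → D ≠ 0 → Per D χ →
    Per ((∏ p ∈ T, p ^ e) * D) (fun v =>
      ((∏ p ∈ T, ph (p ^ e) (Q2 v - t) - ∏ p ∈ T, aa p e t v : ℝ) : ℂ) * χ v) ∧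
    Cusp ((∏ p ∈ T, p ^ e) * D) (fun v =>
      ((∏ p ∈ T, ph (p ^ e) (Q2 v - t) - ∏ p ∈ T, aa p e t v : ℝ) : ℂ) * χ v)

/-- squares modulo prime powers, residue classes, averaging over one coordinate -/
def S_Sq : Prop :=
  (∀ (m d : ℕ) (r : ℤ), m ≠ 0 → d ∣ m →
    ((Ico (0 : ℤ) m).filter (fun x => (d : ℤ) ∣ x - r)).card = m / d) ∧
  (∀ (p e a : ℕ) (μ c : ℤ), p.Prime → p ≠ 2 → a ≤ e → ¬ (p : ℤ) ∣ μ →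
    ((Ico (0 : ℤ) ((p : ℤ) ^ e)).filter (fun x => (p : ℤ) ^ a ∣ x ∧ ¬ (p : ℤ) ^ (a + 1) ∣ x ∧
      (p : ℤ) ^ e ∣ μ * x ^ 2 - c)).card ≤ 2 * p ^ a) ∧
  (∀ (p e : ℕ) (μ c x0 : ℤ), p.Prime → p ≠ 2 → 1 ≤ e → ¬ (p : ℤ) ∣ μ * x0 →
    (p : ℤ) ∣ μ * x0 ^ 2 - c →
    ((Ico (0 : ℤ) ((p : ℤ) ^ e)).filter (fun x => (p : ℤ) ∣ x - x0 ∧
      (p : ℤ) ^ e ∣ μ * x ^ 2 - c)).card = 1) ∧
  (∀ (e : ℕ) (c : ℤ), ((Ico (0 : ℤ) (2 ^ e)).filter (fun x => ¬ 2 ∣ x ∧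
      2 ^ (e + 1) ∣ x ^ 2 - c)).card ≤ 2) ∧
  (∀ (j : ℕ) (c : ℤ), 8 ∣ c - 1 → ∃ x : ℤ, 2 ^ j ∣ x ^ 2 - c) ∧
  ∀ (S : Fin 4 → Finset ℤ) (i : Fin 4) (F : (Fin 4 → ℤ) → ℕ),
    ∑ v ∈ Fintype.piFinset S, ∑ x ∈ S i, F (Function.update v i x) =
      (S i).card * ∑ v ∈ Fintype.piFinset S, F v

/-- fibres over nonsingular points -/
def S_Fib : Prop :=
  (∀ (p e : ℕ) (c : ℤ) (v0 : Fin 4 → ℤ) (j : Fin 4), p.Prime → p ≠ 2 → 1 ≤ e → ¬ (p : ℤ) ∣ v0 j →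
    (p : ℤ) ∣ nsq v0 - c →
    ((res (p ^ e)).filter (fun v => (∀ i, (p : ℤ) ∣ v i - v0 i) ∧
      (p : ℤ) ^ e ∣ nsq v - c)).card = p ^ (3 * (e - 1))) ∧
  ∀ (p e : ℕ) (c t : ℤ) (v0 : Fin 4 → ℤ) (i j : Fin 4), p.Prime → p ≠ 2 → 1 ≤ e →
    ¬ (p : ℤ) ∣ v0 i * v0 j * (cz i - cz j) → (p : ℤ) ∣ nsq v0 - c → (p : ℤ) ∣ Q2 v0 - t →
    ((res (p ^ e)).filter (fun v => (∀ l, (p : ℤ) ∣ v l - v0 l) ∧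
      (p : ℤ) ^ e ∣ nsq v - c ∧ (p : ℤ) ^ e ∣ Q2 v - t)).card = p ^ (2 * (e - 1))

/-- points with exactly one unit coordinate -/
def S_Sing : Prop :=
  ∀ (p e : ℕ) (c t : ℤ), p.Prime → 5 ≤ p → 1 ≤ e →
    ((res (p ^ e)).filter (fun v => (∃ j, ¬ (p : ℤ) ∣ v j ∧ ∀ i, i ≠ j → (p : ℤ) ∣ v i) ∧
      (p : ℤ) ^ e ∣ nsq v - c ∧ (p : ℤ) ^ e ∣ Q2 v - t)).card ≤ 200 * p ^ (2 * e - 1)

/-- the number of points modulo `p` -/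
def S_Gauss : Prop :=
  ∀ (p : ℕ) (c t : ℤ), p.Prime → 5 ≤ p → ¬ (p : ℤ) ∣ t →
    |(((res p).filter (fun v => (p : ℤ) ∣ nsq v - c ∧ (p : ℤ) ∣ Q2 v - t)).card : ℝ) -
      (p : ℝ) ^ 2| ≤ 10 * p

def S_Big : Prop :=
  ∀ (p e : ℕ) (c t : ℤ), p.Prime → 5 ≤ p → 1 ≤ e → ¬ (p : ℤ) ∣ t → |rho p e c t - 1| ≤ 1000 / p

def S_Two : Prop :=
  ∀ n0 : ℤ, Odd n0 → ∃ a : ℤ, Odd a ∧ ∀ (e : ℕ) (n t : ℤ), 6 ≤ e → 64 ∣ n - n0 → 64 ∣ t - a →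
    1 / 2 ^ 16 ≤ rho 2 e n t

def S_Odd : Prop :=
  ∀ (p : ℕ) (n0 : ℤ), p.Prime → p ≠ 2 → ∃ a : ℤ, ¬ (p : ℤ) ∣ a * (a - 2) ∧
    ∀ (e : ℕ) (n t : ℤ), 1 ≤ e → (p : ℤ) ∣ n - n0 → (p : ℤ) ∣ t - a → 1 / (p : ℝ) ^ 3 ≤ rho p e n t

def S_Small : Prop :=
  ∀ p0 : ℕ, ∃ (W : ℕ) (c0 : ℝ), 0 < W ∧ 2 ∣ W ∧ 0 < c0 ∧ c0 ≤ 1 ∧ ∀ n0 : ℤ, Odd n0 →
    ∃ a : ℤ, IsCoprime (a * (a - 2)) W ∧ ∀ (p e : ℕ) (n t : ℤ), p.Prime → p ≤ p0 → 6 ≤ e →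
      (W : ℤ) ∣ n - n0 → (W : ℤ) ∣ t - a → c0 ≤ rho p e n t

/-- primitive points of a sublattice on a sphere -/
def S_Prim : Prop :=
  ∃ C : ℝ, 0 < C ∧ ∀ (D n : ℕ) (δ : ℤ × ℤ), GoodD D → δ ∈ Del D → Odd n →
    (n : ℝ) / (2 * D) - C * (D : ℝ) ^ 9 * (n : ℝ) ^ (39 / 40 : ℝ) ≤
      ((psphere n).filter (fun v => (D : ℤ) ∣ δ.1 * v 2 - δ.2 * v 1)).card

/-- the truncated product of the local means is bounded below -/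
def S_Low : Prop :=
  ∃ (W : ℕ) (c : ℝ) (κ l0 : ℕ), 0 < W ∧ 2 ∣ W ∧ 0 < c ∧ ∀ n0 : ℤ, Odd n0 →
    ∃ a : ℤ, IsCoprime (a * (a - 2)) W ∧ ∀ (l n t : ℕ) (v : Fin 4 → ℤ), l0 ≤ l → 0 < n →
      (W : ℤ) ∣ n - n0 → (W : ℤ) ∣ t - a → t.Prime → 2 ^ l < t → nsq v = n →
      (∀ d : ℕ, 2 ^ l < d → ¬ d ^ 2 ∣ n) →
      (if cont v = 1 then c / (l : ℝ) ^ κ else 0) - 1 / (2 ^ l) ^ 2 ≤
        ∑ T ∈ sub (2 ^ l) (l ^ 2), ∏ p ∈ T, aa p l t v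

/-- `n` has a representation with value in `S` -/
def RepS (S : Set ℕ) (n : ℕ) : Prop :=
  ∃ x y z w : ℤ, ∃ p : ℕ, x ^ 2 + y ^ 2 + z ^ 2 + w ^ 2 = (n : ℤ) ∧
    (p : ℤ) = x ^ 2 + 3 * y ^ 2 + 5 * z ^ 2 + 7 * w ^ 2 ∧ p ∈ S

/-- the common engine: if no point of the spheres has its value in `S`, then few primitive points
have their value close to `S` -/
def S_Core : Prop :=
  ∃ (W : ℕ) (cl : ℤ → ℤ), 0 < W ∧ 2 ∣ W ∧ (∀ n0, Odd n0 → IsCoprime (cl n0 * (cl n0 - 2)) W) ∧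
    ∀ (j : ℕ) (ε : ℝ), 0 < ε → ∃ (B : ℕ) (C : ℝ) (N0 : ℕ), 0 < C ∧ j ≤ B ∧ ∀ N : ℕ, N0 ≤ N →
    ∃ D y : ℕ, GoodD D ∧ (D : ℝ) ≤ (N : ℝ) ^ ε ∧ (Del D).Nonempty ∧ LL N ^ j ≤ y ∧
      (y : ℝ) ≤ (N : ℝ) ^ ε ∧ ∀ (n0 : ℤ) (r : ℕ) (S E : Finset ℕ), Odd n0 →
      N / LL N ^ (B + 1) ≤ r → r ≤ N / LL N ^ B →
      (∀ t ∈ S, t.Prime ∧ y < t ∧ t ≤ 9 * N ∧ (W : ℤ) ∣ t - cl n0) →
      (∀ n ∈ E, 3 ≤ n ∧ n ≤ N ∧ (W : ℤ) ∣ n - n0 ∧ (∀ d : ℕ, y < d → ¬ d ^ 2 ∣ n) ∧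
        ¬ RepS S n) →
      ∑ δ ∈ Del D, ∑ n ∈ E, ∑ v ∈ (psphere n).filter (fun v => (D : ℤ) ∣ δ.1 * v 2 - δ.2 * v 1),
        ∑ t ∈ S, om r (Q2 v - t) ≤ C * (Del D).card * ((N : ℝ) ^ 2 / D) / LL N ^ j

open Classical in
/-- the transfer theorem -/
def S_Transfer : Prop :=
  ∃ W : ℕ, 0 < W ∧ ∀ k A : ℕ, ∃ (B : ℕ) (C : ℝ) (N0 : ℕ), 0 < C ∧ ∀ N : ℕ, N0 ≤ N →
    ∀ (r : ℕ) (S : Set ℕ), N / LL N ^ (B + 1) ≤ r → r ≤ N / LL N ^ B → (∀ t ∈ S, t.Prime) →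
    (∀ a : ℤ, IsCoprime (a * (a - 2)) W → ∀ x : ℕ, r ≤ x → x ≤ 8 * N →
      r / LL N ^ k ≤ ((Ico x (x + r)).filter (fun t : ℕ => t ∈ S ∧ (W : ℤ) ∣ t - a)).card) →
    ∀ E : Finset ℕ, (∀ n ∈ E, n ≤ N ∧ Odd n ∧ ¬ RepS S n) → (E.card : ℝ) ≤ C * N / LL N ^ A

/-- clusters of primes in short windows and residue classes -/
def S_May : Prop :=
  ∀ m W : ℕ, 0 < W → ∃ H j : ℕ, ∀ B : ℕ, ∃ N0 : ℕ, ∀ N : ℕ, N0 ≤ N → ∀ a : ℤ, IsCoprime a W →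
    ∀ x r : ℕ, N / LL N ^ B ≤ r → r ≤ x → x ≤ 8 * N →
      r / LL N ^ j ≤ ((Ico x (x + r)).filter (fun t : ℕ => t.Prime ∧
        m ≤ ((Ico (t - H) t).filter Nat.Prime).card ∧ (W : ℤ) ∣ t - a)).card

end Pool.Agent.P.MP_0ad054_nt.Clu
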