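import Pool.Agent.P.MP_0ad054_nt.Clu.Defs
import Pool.Agent.P.MP_0ad054_nt.Sun.FinA
import Pool.Agent.P.MP_0ad054_nt.Sun.Gamma
import Pool.Agent.P.MP_0ad054_nt.Sun.TransB

/-! The core inequality at a fixed scale. -/

namespace Pool.Agent.P.MP_0ad054_nt.Clu.CoreP

open Finset Pool.Agent.Lib.H9 Pool.Agent.P.MP_0ad054_nt.Sun Pool.Agent.P.MP_0ad054_nt.Sun.SphereP
open Pool.Agent.P.MP_0ad054_nt.Sun.FinP

/-- points of the sublattice on a sphere -/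
noncomputable def La (D : ℕ) (δ : ℤ × ℤ) (n : ℕ) : Finset (Fin 4 → ℤ) :=
  (Lib.H9.sphere n).filter (fun v => (D : ℤ) ∣ δ.1 * v 2 - δ.2 * v 1)

theorem sum_gam {N : ℕ} {E : Finset ℕ} (hE : ∀ n ∈ E, 3 ≤ n ∧ n ≤ N) (φ : ℤ → ℂ) :
    ∑ n ∈ Icc (0 : ℤ) N, (gam E n : ℂ) * φ n = ∑ n ∈ E, φ n := by
  simp only [gam]
  push_cast
  simp_rw [sum_mul]
  rw [sum_comm]
  refine sum_congr rfl fun a ha => ?_
  have h1 : ∀ n : ℤ, (((if n = (a : ℤ) then (1 : ℝ) else 0 : ℝ)) : ℂ) * φ n =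
      if n = a then φ n else 0 := fun n => by split_ifs <;> simp
  simp_rw [h1]
  rw [sum_ite_eq', if_pos]
  have := hE a ha
  rw [mem_Icc]; omega

theorem TT_eq {N D : ℕ} (hD : Squarefree D) {E : Finset ℕ} (hE : ∀ n ∈ E, 3 ≤ n ∧ n ≤ N)
    (F : ℤ → ℝ) : TT N D (fun n => gam E n) (fun _ => 1) (fun m => (F m : ℂ)) =
      ((∑ δ ∈ Del D, ∑ n ∈ E, ∑ v ∈ La D δ n, F (Q2 v) : ℝ) : ℂ) := by
  unfold TT
  push_cast
  refine sum_congr rfl fun δ hδ => ?_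
  rw [GammaP.T1_eq hD hδ (fun n h => (gam_supp hE n h).2), sum_gam hE]
  rfl

theorem card_La {N D : ℕ} (hD : Squarefree D) (hDN : D ≤ N) {E : Finset ℕ}
    (hE : ∀ n ∈ E, 3 ≤ n ∧ n ≤ N) :
    ∑ δ ∈ Del D, ∑ n ∈ E, ∑ _v ∈ La D δ n, (1 : ℝ) ≤ (Del D).card * (81 * ((N : ℝ) ^ 2 / D)) := by
  have h := TransP.TT_triv (γ := fun n => gam E n) (φ := fun _ => ((1 : ℝ) : ℂ))
    (Nat.pos_of_ne_zero hD.ne_zero) hDN (norm_gam E) (fun _ => by simp)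
  rw [TT_eq hD hE (fun _ => 1), Complex.norm_real, Real.norm_eq_abs] at h
  exact (le_abs_self _).trans h

theorem abs_ph {m : ℕ} (hm : 1 ≤ m) (d : ℤ) : |ph m d| ≤ m := by
  have : (1 : ℝ) ≤ m := by exact_mod_cast hm
  unfold ph
  rw [abs_le]; split_ifs <;> constructor <;> linarith

theorem abs_aa (hP : S_Prod) {p : ℕ} (hp : 1 ≤ p) (e : ℕ) (t : ℤ) (v : Fin 4 → ℤ) :
    |aa p e t v| ≤ (p : ℝ) ^ e := by
  have h1 : (1 : ℝ) ≤ (p : ℝ) ^ e := one_le_pow₀ (by exact_mod_cast hp)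
  have h2 := hP.1 p e (nsq v) t
  unfold aa
  rw [abs_le]; split_ifs <;> constructor <;> linarith [h2.1, h2.2]

theorem prod_pow_le {y k e : ℕ} (hy : 1 ≤ y) {T : Finset ℕ} (hT : T ∈ sub y k) :
    ∏ p ∈ T, p ^ e ≤ y ^ (e * k) := by
  obtain ⟨h1, h2⟩ := mem_filter.1 hT
  refine (prod_le_pow_card _ _ (y ^ e) fun p hp => Nat.pow_le_pow_left
    (Nat.mem_primesLE.1 (mem_powerset.1 h1 hp)).1 e).trans ?_
  rw [← pow_mul]
  exact Nat.pow_le_pow_right hy (Nat.mul_le_mul_left _ h2)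

theorem win {C : ℝ} (hC : 0 < C) (hW : ∀ (N M r : ℕ) (t : ℤ) (R : ℝ) (ψ : (Fin 4 → ℤ) → ℂ)
    (γ : ℤ → ℂ), 1 ≤ r → r ≤ N → 0 ≤ t → t ≤ 9 * N → 1 ≤ R → M ≠ 0 → Per M ψ → (∀ v, ‖ψ v‖ ≤ 1) →
    Cusp M ψ → (∀ n, ‖γ n‖ ≤ 1) →
    ‖∑ n ∈ Icc (0 : ℤ) N, γ n * ∑ v ∈ Lib.H9.sphere n, ψ v * (om r (Q2 v - t) : ℝ)‖ ≤
      C * ((M : ℝ) ^ 8 * R ^ 5 * Real.sqrt N + (N : ℝ) ^ 3 * LL N / ((r : ℝ) ^ 2 * R)))
    (hP : S_Prod) {N D y e k r t : ℕ} {R : ℝ} {E T : Finset ℕ} (δ : ℤ × ℤ) (hy : 1 ≤ y)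
    (he : 2 ≤ e) (hD : D ≠ 0) (hDy : ∀ p ∈ D.primeFactors, y < p) (hr : 1 ≤ r) (hrN : r ≤ N)
    (ht : t.Prime) (hyt : y < t) (htN : t ≤ 9 * N) (hR : 1 ≤ R) (hE : ∀ n ∈ E, 3 ≤ n ∧ n ≤ N)
    (hT : T ∈ sub y k) :
    |∑ n ∈ E, ∑ v ∈ La D δ n,
      (∏ p ∈ T, ph (p ^ e) (Q2 v - t) - ∏ p ∈ T, aa p e t v) * om r (Q2 v - t)| ≤
      2 * (y : ℝ) ^ (e * k) * (C * (((y : ℝ) ^ (e * k) * D) ^ 8 * R ^ 5 * Real.sqrt N +
        (N : ℝ) ^ 3 * LL N / ((r : ℝ) ^ 2 * R))) := by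
  set Q : ℝ := (y : ℝ) ^ (e * k) with hQ
  have hQ0 : 0 < Q := by have : (0 : ℝ) < y := by exact_mod_cast hy
                         positivity
  have hTp : ∀ p ∈ T, p ≤ y ∧ p.Prime := fun p hp =>
    Nat.mem_primesLE.1 (mem_powerset.1 (mem_filter.1 hT).1 hp)
  have hM : ((∏ p ∈ T, p ^ e : ℕ) : ℝ) ≤ Q := by rw [hQ]; exact_mod_cast prod_pow_le hy hT
  set χ : (Fin 4 → ℤ) → ℂ := fun v =>
    if (D : ℤ) ∣ δ.1 * v 2 - δ.2 * v 1 then ((1 / (2 * Q) : ℝ) : ℂ) else 0 with hχ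
  have hχP : Per D χ := by
    intro v w h
    have h1 : (D : ℤ) ∣ (δ.1 * v 2 - δ.2 * v 1) - (δ.1 * w 2 - δ.2 * w 1) := by
      have e1 : (δ.1 * v 2 - δ.2 * v 1) - (δ.1 * w 2 - δ.2 * w 1) =
        δ.1 * (v 2 - w 2) - δ.2 * (v 1 - w 1) := by ring
      rw [e1]; exact dvd_sub ((h 2).mul_left _) ((h 1).mul_left _)
    simp only [hχ]
    exact if_congr ⟨fun h2 => by simpa using dvd_sub h2 h1, fun h2 => by
      simpa using dvd_add h1 h2⟩ rfl rfl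
  obtain ⟨p1, p2⟩ := hP.2 T e D t χ (fun p hp => ⟨(hTp p hp).2, fun h => by
    have := hDy p (Nat.mem_primeFactors.2 ⟨(hTp p hp).2, h, hD⟩)
    have := (hTp p hp).1
    omega, fun h => by
    have := (Nat.prime_dvd_prime_iff_eq (hTp p hp).2 ht).1 (by exact_mod_cast h)
    have := (hTp p hp).1
    omega⟩) he hD hχP
  have hb : ∀ v : Fin 4 → ℤ, |∏ p ∈ T, ph (p ^ e) (Q2 v - t) - ∏ p ∈ T, aa p e t v| ≤ 2 * Q := by
    intro v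
    have a1 : |∏ p ∈ T, ph (p ^ e) (Q2 v - t)| ≤ Q := by
      rw [abs_prod]
      refine le_trans ?_ hM
      push_cast
      exact prod_le_prod (fun _ _ => abs_nonneg _) fun p hp => by
        exact_mod_cast abs_ph (Nat.one_le_pow e p (hTp p hp).2.pos) _
    have a2 : |∏ p ∈ T, aa p e t v| ≤ Q := by
      rw [abs_prod]
      refine le_trans ?_ hM
      push_cast
      exact prod_le_prod (fun _ _ => abs_nonneg _) fun p hp => abs_aa hP (hTp p hp).2.pos _ _ _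
    linarith [abs_sub (∏ p ∈ T, ph (p ^ e) (Q2 v - t)) (∏ p ∈ T, aa p e t v)]
  have h := hW N _ r t R _ (fun n => gam E n) hr hrN (by positivity) (by exact_mod_cast htN) hR
    (mul_ne_zero (prod_ne_zero_iff.2 fun p hp => pow_ne_zero _ (hTp p hp).2.ne_zero) hD) p1
    (fun v => by
      simp only [hχ]
      split_ifs
      · rw [← Complex.ofReal_mul, Complex.norm_real, Real.norm_eq_abs, abs_mul,
          abs_of_pos (show (0 : ℝ) < 1 / (2 * Q) by positivity), mul_one_div,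
          div_le_one (by positivity)]
        exact hb v
      · simp) p2 (norm_gam E)
  rw [sum_gam hE] at h
  have e1 : ∑ n ∈ E, ∑ v ∈ Lib.H9.sphere (n : ℕ),
      ((∏ p ∈ T, ph (p ^ e) (Q2 v - t) - ∏ p ∈ T, aa p e t v : ℝ) : ℂ) * χ v *
        (om r (Q2 v - t) : ℝ) = (((∑ n ∈ E, ∑ v ∈ La D δ n,
      (∏ p ∈ T, ph (p ^ e) (Q2 v - t) - ∏ p ∈ T, aa p e t v) * om r (Q2 v - t)) / (2 * Q) : ℝ) : ℂ) := by
    rw [sum_div, Complex.ofReal_sum]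
    refine sum_congr rfl fun n _ => ?_
    rw [La, sum_filter, sum_div, Complex.ofReal_sum]
    refine sum_congr rfl fun v _ => ?_
    simp only [hχ]
    split_ifs
    · push_cast; ring
    · simp
  rw [e1, Complex.norm_real, Real.norm_eq_abs, abs_div, abs_of_pos (show 0 < 2 * Q by positivity),
    div_le_iff₀ (by positivity)] at h
  refine h.trans ?_
  rw [mul_comm]
  have hL := one_le_LL N
  gcongr
  push_cast at hM ⊢
  gcongr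

theorem core1 {D y e k r : ℕ} {S E : Finset ℕ} (hO : S_Om) {c1 τ w τ2 Z : ℝ} (hτ : 0 ≤ τ)
    (hLow : ∀ n ∈ E, ∀ t ∈ S, ∀ v, nsq v = n →
      (if cont v = 1 then c1 else 0) - τ ≤ ∑ T ∈ sub y k, ∏ p ∈ T, aa p e t v)
    (hWin : ∀ δ ∈ Del D, ∀ t ∈ S, ∀ T ∈ sub y k, |∑ n ∈ E, ∑ v ∈ La D δ n,
      (∏ p ∈ T, ph (p ^ e) (Q2 v - t) - ∏ p ∈ T, aa p e t v) * om r (Q2 v - t)| ≤ w)
    (hT : ∑ δ ∈ Del D, ∑ n ∈ E, ∑ v ∈ La D δ n, gS y e k r S (Q2 v) ≤ τ2)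
    (hZ : ∑ δ ∈ Del D, ∑ n ∈ E, ∑ _v ∈ La D δ n, (1 : ℝ) ≤ Z) :
    c1 * ∑ δ ∈ Del D, ∑ n ∈ E,
      ∑ v ∈ (psphere n).filter (fun v => (D : ℤ) ∣ δ.1 * v 2 - δ.2 * v 1),
        ∑ t ∈ S, om r (Q2 v - t) ≤ τ2 + (Del D).card * (S.card * ((sub y k).card * w)) + τ * Z := by
  have a1 : ∀ δ ∈ Del D, c1 * ∑ n ∈ E,
      ∑ v ∈ (psphere n).filter (fun v => (D : ℤ) ∣ δ.1 * v 2 - δ.2 * v 1),
        ∑ t ∈ S, om r (Q2 v - t) ≤ ∑ n ∈ E, ∑ v ∈ La D δ n, gS y e k r S (Q2 v) +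
        S.card * ((sub y k).card * w) + τ * ∑ n ∈ E, ∑ _v ∈ La D δ n, (1 : ℝ) := by
    intro δ hδ
    have b1 : ∑ n ∈ E, ∑ v ∈ La D δ n, gS y e k r S (Q2 v) =
        ∑ t ∈ S, ∑ T ∈ sub y k, ∑ n ∈ E, ∑ v ∈ La D δ n,
          (∏ p ∈ T, ph (p ^ e) (Q2 v - t) - ∏ p ∈ T, aa p e t v) * om r (Q2 v - t) +
        ∑ n ∈ E, ∑ v ∈ La D δ n, ∑ t ∈ S,
          om r (Q2 v - t) * ∑ T ∈ sub y k, ∏ p ∈ T, aa p e t v := by
      simp_rw [sum_comm (s := sub y k) (t := E), sum_comm (s := S) (t := E),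
        sum_comm (s := sub y k) (t := La D δ _), sum_comm (s := S) (t := La D δ _),
        ← sum_add_distrib]
      refine sum_congr rfl fun n _ => sum_congr rfl fun v _ => sum_congr rfl fun t _ => ?_
      rw [← sum_mul, sum_sub_distrib, KK]; ring
    have b2 : -(S.card * ((sub y k).card * w)) ≤ ∑ t ∈ S, ∑ T ∈ sub y k, ∑ n ∈ E, ∑ v ∈ La D δ n,
          (∏ p ∈ T, ph (p ^ e) (Q2 v - t) - ∏ p ∈ T, aa p e t v) * om r (Q2 v - t) := by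
      rw [← mul_neg, ← mul_neg, ← nsmul_eq_mul, ← nsmul_eq_mul]
      exact card_nsmul_le_sum _ _ _ fun t ht => card_nsmul_le_sum _ _ _ fun T hT =>
        (abs_le.1 (hWin δ hδ t ht T hT)).1
    have b3 : c1 * ∑ n ∈ E,
        ∑ v ∈ (psphere n).filter (fun v => (D : ℤ) ∣ δ.1 * v 2 - δ.2 * v 1),
          ∑ t ∈ S, om r (Q2 v - t) - τ * ∑ n ∈ E, ∑ _v ∈ La D δ n, (1 : ℝ) ≤
        ∑ n ∈ E, ∑ v ∈ La D δ n, ∑ t ∈ S,
          om r (Q2 v - t) * ∑ T ∈ sub y k, ∏ p ∈ T, aa p e t v := by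
      rw [mul_sum, mul_sum, ← sum_sub_distrib]
      refine sum_le_sum fun n hn => ?_
      have c0 : (psphere n).filter (fun v => (D : ℤ) ∣ δ.1 * v 2 - δ.2 * v 1) =
          (La D δ n).filter (fun v => cont v = 1) := by
        rw [psphere, La, filter_comm]
      rw [c0, sum_filter, mul_sum, mul_sum, ← sum_sub_distrib]
      refine sum_le_sum fun v hv => ?_
      have hv' : nsq v = n := mem_sphere.1 (mem_filter.1 hv).1
      have c2 := hO.2.1 r S (Q2 v)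
      calc _ ≤ ∑ t ∈ S, om r (Q2 v - t) * ((if cont v = 1 then c1 else 0) - τ) := by
            rw [← sum_mul]
            split_ifs <;> nlinarith [mul_le_mul_of_nonneg_left c2 hτ]
        _ ≤ _ := sum_le_sum fun t ht =>
            mul_le_mul_of_nonneg_left (hLow n hn t ht v hv') (hO.1 _ _)
    linarith
  have a2 := sum_le_sum a1
  rw [← mul_sum, sum_add_distrib, sum_add_distrib, sum_const, nsmul_eq_mul, ← mul_sum] at a2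
  linarith [mul_le_mul_of_nonneg_left hZ hτ]

end Pool.Agent.P.MP_0ad054_nt.Clu.CoreP
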