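import Pool.Agent.P.MP_0ad054_nt.Clu.Defs
import Pool.Agent.P.MP_0ad054_nt.Sun.FinA

/-! Clusters of primes: the final deduction. -/

namespace Pool.Agent.P.MP_0ad054_nt.Clu

open Finset Pool.Agent.P.MP_0ad054_nt.Sun Pool.Agent.P.MP_0ad054_nt.Sun.FinP

theorem all_of {P : ℕ → Prop} {A : ℕ} (h : ∃ (C : ℝ) (N0 : ℕ), 0 < C ∧ ∀ N : ℕ, N0 ≤ N →
      ∀ E : Finset ℕ, (∀ n ∈ E, n ≤ N ∧ P n) → (E.card : ℝ) ≤ C * N / LL N ^ A) :
    ∃ C : ℝ, ∀ N : ℕ, 2 ≤ N →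
      (({n : ℕ | n ≤ N ∧ P n}.ncard : ℕ) : ℝ) ≤ C * N / Real.log N ^ A := by
  obtain ⟨C, N0, hC, h⟩ := h
  have := Real.log_natCast_nonneg N0
  refine ⟨C + 2 * Real.log N0 ^ A, fun N hN => ?_⟩
  have hN' : (2 : ℝ) ≤ N := by exact_mod_cast hN
  have hl : 0 < Real.log N := Real.log_pos (by linarith)
  have hf : {n : ℕ | n ≤ N ∧ P n}.Finite := (Set.finite_le_nat N).subset fun n hn => hn.1
  rw [Set.ncard_eq_toFinset_card _ hf]
  rcases le_total N0 N with h1 | h1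
  · refine (h N h1 _ fun n hn => hf.mem_toFinset.1 hn).trans ?_
    gcongr
    · linarith [pow_nonneg this A]
    · unfold LL; linarith
  · have h2 : hf.toFinset.card ≤ (range (N + 1)).card :=
      card_le_card fun n hn => mem_range.2 (Nat.lt_succ_of_le (hf.mem_toFinset.1 hn).1)
    rw [card_range] at h2
    have h3 : (hf.toFinset.card : ℝ) ≤ N + 1 := by exact_mod_cast h2
    rw [le_div_iff₀ (by positivity)]
    calc _ ≤ 2 * N * Real.log N0 ^ A := by gcongr; linarith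
      _ ≤ _ := by nlinarith [mul_pos hC (show (0 : ℝ) < N by linarith)]

/-- the window length -/
theorem exists_r (B : ℕ) : ∃ N0 : ℕ, ∀ N : ℕ, N0 ≤ N → ∃ r : ℕ,
    N / LL N ^ (B + 1) ≤ r ∧ r ≤ N / LL N ^ B := by
  obtain ⟨N1, hN1⟩ := params (ε := 1) one_pos (B + 1) 2
  refine ⟨N1 + 1, fun N hN => ⟨⌊N / LL N ^ B⌋₊, ?_, Nat.floor_le (by
    have := one_le_LL N; positivity)⟩⟩
  obtain ⟨l, hl1, hl2, hl3, hl4⟩ := hN1 N (by omega)
  have hL := one_le_LL N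
  have hl4' : l ≤ l ^ 4 := Nat.le_self_pow (by norm_num) _
  have h1 : LL N ^ (B + 1) ≤ N := by
    rw [Real.rpow_one] at hl4
    exact hl3.trans ((pow_le_pow_right₀ one_le_two (by omega)).trans hl4)
  have h2 : (2 : ℝ) ≤ LL N := le_trans (by exact_mod_cast hl1) hl2
  have h3 : 1 ≤ N / LL N ^ (B + 1) := (one_le_div (by positivity)).2 h1
  have h4 : N / LL N ^ B = LL N * (N / LL N ^ (B + 1)) := by field_simp; ring
  have h5 := Nat.lt_floor_add_one (N / LL N ^ B)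
  nlinarith

theorem cluster_of (hT : S_Transfer) (hM : S_May) (m : ℕ) : ∃ H : ℕ, ∀ A : ℕ, ∃ C : ℝ,
    ∀ N : ℕ, 2 ≤ N → (({n : ℕ | n ≤ N ∧ Odd n ∧ ¬ RepS {p : ℕ | p.Prime ∧
      m ≤ ((Ico (p - H) p).filter Nat.Prime).card} n}.ncard : ℕ) : ℝ) ≤ C * N / Real.log N ^ A := by
  classical
  obtain ⟨W, hW, hT⟩ := hT
  obtain ⟨H, j, hM⟩ := hM m W hW
  refine ⟨H, fun A => all_of ?_⟩
  obtain ⟨B, C, N0, hC, hT⟩ := hT j A
  obtain ⟨N1, hM⟩ := hM (B + 1)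
  obtain ⟨N2, hr⟩ := exists_r B
  refine ⟨C, N0 + N1 + N2, hC, fun N hN E hE => ?_⟩
  obtain ⟨r, h1, h2⟩ := hr N (by omega)
  refine hT N (by omega) r _ h1 h2 (fun t ht => ht.1) (fun a ha x h3 h4 => ?_) E hE
  refine (hM N (by omega) a ha.of_mul_left_left x r h1 h3 h4).trans (Nat.cast_le.2 ?_)
  refine card_le_card fun t ht => ?_
  simp only [mem_filter, Set.mem_ofPred_eq] at ht ⊢
  exact ⟨ht.1, ⟨ht.2.1, ht.2.2.1⟩, ht.2.2.2⟩

end Pool.Agent.P.MP_0ad054_nt.Clu
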