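import Pool.Agent.P.MP_0ad054_nt.Clu.Defs

/-! Elementary facts on the triangle weight and on the sets of primes. -/

namespace Pool.Agent.P.MP_0ad054_nt.Clu

open Finset Pool.Agent.Lib.H9 Pool.Agent.P.MP_0ad054_nt.Sun Pool.Agent.P.MP_0ad054_nt.Sun.SphereP

namespace OmP

theorem sum_om (r : ℕ) (S : Finset ℕ) (m : ℤ) : ∑ t ∈ S, om r (m - t) =
    (∑ i ∈ range r, ∑ j ∈ range r, ∑ t ∈ S, if (i : ℤ) - j = m - t then (1 : ℝ) else 0) /
      (r : ℝ) ^ 2 := by
  simp only [om]
  rw [← sum_div, sum_comm]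
  exact congrArg (· / _) (sum_congr rfl fun i _ => sum_comm)

theorem sum_le (r : ℕ) (S : Finset ℕ) (m : ℤ) : ∑ t ∈ S, om r (m - t) ≤ 1 := by
  rw [sum_om]
  refine div_le_one_of_le₀ ?_ (by positivity)
  calc _ ≤ ∑ _i ∈ range r, ∑ _j ∈ range r, (1 : ℝ) :=
        sum_le_sum fun i _ => sum_le_sum fun j _ => by
          rw [sum_boole, Nat.cast_le_one]
          exact card_le_one.2 fun a ha b hb => by
            have h1 := (mem_filter.1 ha).2
            have h2 := (mem_filter.1 hb).2
            omega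
    _ = _ := by simp [sq]

theorem le_sum (r m : ℕ) (S : Finset ℕ) (δ : ℝ) (hr : 1 ≤ r) (hm : r ≤ m)
    (h : ∀ x : ℕ, m < x + r → x ≤ m → δ * r ≤ (S.filter (fun t => x ≤ t ∧ t < x + r)).card) :
    δ ≤ ∑ t ∈ S, om r ((m : ℤ) - t) := by
  have r0 : (0 : ℝ) < r := by exact_mod_cast hr
  rw [sum_om, le_div_iff₀ (by positivity)]
  calc δ * (r : ℝ) ^ 2 = ∑ _i ∈ range r, δ * r := by simp; ring
    _ ≤ _ := sum_le_sum fun i hi => by
      have hi' := mem_range.1 hi
      refine (h (m - i) (by omega) (by omega)).trans ?_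
      rw [sum_comm, card_filter, Nat.cast_sum]
      refine sum_le_sum fun t _ => ?_
      split_ifs with ht
      · refine le_trans ?_ (single_le_sum (f := fun j : ℕ => if (i : ℤ) - j = m - t then (1 : ℝ) else 0)
          (fun j _ => by positivity) (mem_range.2 (by omega : t - (m - i) < r)))
        rw [if_pos (by omega), Nat.cast_one]
      · rw [Nat.cast_zero]
        exact sum_nonneg fun j _ => by positivity

theorem card_sub (y k : ℕ) (hy : 1 ≤ y) : (sub y k).card ≤ y ^ k := by
  have hp : ∀ T ∈ sub y k, ∀ p ∈ T, p ≤ y ∧ p.Prime := fun T hT p hp =>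
    Nat.mem_primesLE.1 (mem_powerset.1 (mem_filter.1 hT).1 hp)
  calc _ ≤ (Icc 1 (y ^ k)).card := card_le_card_of_injOn (fun T => ∏ p ∈ T, p)
        (fun T hT => mem_coe.2 (mem_Icc.2 ⟨one_le_prod' fun p h => (hp T hT p h).2.one_le,
          (prod_le_pow_card _ _ y fun p h => (hp T hT p h).1).trans
            (Nat.pow_le_pow_right hy (mem_filter.1 hT).2)⟩))
        fun T hT T' hT' e => by
          have := congrArg Nat.primeFactors e
          rwa [Nat.primeFactors_prod fun p h => (hp T hT p h).2,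
            Nat.primeFactors_prod fun p h => (hp T' hT' p h).2] at this
    _ = _ := by simp

theorem tail (y k : ℕ) (x : ℕ → ℝ) :
    |∑ T ∈ sub y k, ∏ p ∈ T, x p - ∏ p ∈ Nat.primesLE y, (1 + x p)| ≤
      (∏ p ∈ Nat.primesLE y, (1 + 2 * |x p|)) / 2 ^ k := by
  rw [prod_one_add, prod_one_add, sub,
    ← sum_filter_add_sum_filter_not (Nat.primesLE y).powerset (fun T => T.card ≤ k)
      fun T => ∏ p ∈ T, x p, sub_add_cancel_left, abs_neg, sum_div]
  refine (abs_sum_le_sum_abs _ _).trans ((sum_le_sum fun T hT => ?_).trans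
    (sum_le_sum_of_subset_of_nonneg (filter_subset _ _) fun T _ _ => by positivity))
  rw [le_div_iff₀ (by positivity), prod_mul_distrib, prod_const, abs_prod, mul_comm]
  exact mul_le_mul_of_nonneg_right
    (pow_le_pow_right₀ one_le_two (not_le.1 (mem_filter.1 hT).2).le) (by positivity)

end OmP

theorem pOm : S_Om :=
  ⟨fun r d => div_nonneg (sum_nonneg fun _ _ => sum_nonneg fun _ _ => by positivity)
    (by positivity), OmP.sum_le, OmP.le_sum, OmP.card_sub, OmP.tail⟩

end Pool.Agent.P.MP_0ad054_nt.Clu
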