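import Pool.Agent.P.MP_0ad054_nt.Clu.Fin
import Pool.Agent.P.MP_0ad054_nt.MW.All
import Pool.Agent.P.MP_746f10_nt.Cel.Norm

/-! Primes at the top of a cluster inside a translate of an admissible set. -/

namespace Pool.Agent.P.MP_0ad054_nt.Clu

open Finset Pool.Agent.P.MP_0ad054_nt.Sun Pool.Agent.P.MP_0ad054_nt.Sun.FinP
open Pool.Agent.P.MP_746f10_nt Pool.Agent.P.MP_746f10_nt.Cel

/-- primes `u + h` with at least `m` smaller primes in `u + H` -/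
def CS (H : Finset ℕ) (m : ℕ) : Set ℕ :=
  {p | ∃ u : ℕ, ∃ h ∈ H, p = u + h ∧ p.Prime ∧
    m ≤ (H.filter fun g => g < h ∧ (u + g).Prime).card}

namespace TupP

theorem adm {k W c ρ : ℕ} {g : Fin k → ℕ} (hc : (c + ρ).Coprime W) (hg : ∀ l, g l % W = ρ)
    (h : ∀ p : ℕ, p.Prime → ∃ t : ℕ, ∀ l, ¬ p ∣ t + g l) :
    Adm (fun _ : Fin k => W) (fun l => c + g l) := by
  intro p hp
  by_cases hW : p ∣ W
  · refine ⟨0, fun l h => hp.one_lt.ne' (Nat.eq_one_of_dvd_coprimes hc ?_ hW)⟩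
    beta_reduce at h
    rw [mul_zero, zero_add, ← Nat.mod_add_div (g l) W, hg, ← add_assoc] at h
    exact (Nat.dvd_add_left (hW.mul_right _)).1 h
  obtain ⟨t, ht⟩ := h p hp
  have : Fact p.Prime := ⟨hp⟩
  have h0 : (W : ZMod p) ≠ 0 := fun h => hW ((ZMod.natCast_eq_zero_iff _ _).1 h)
  refine ⟨(((t : ZMod p) - c) / W).val, fun l h => ht l ?_⟩
  rw [← ZMod.natCast_eq_zero_iff] at h ⊢
  push_cast at h ⊢
  rw [ZMod.natCast_zmod_val, mul_div_cancel₀ _ h0] at h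
  linear_combination h

theorem top {k m u : ℕ} {H : Finset ℕ} {g : Fin k → ℕ} (hg : StrictMono g) (hH : ∀ l, g l ∈ H)
    (h : m < (univ.filter (fun l : Fin k => (u + g l).Prime)).card) :
    ∃ l : Fin k, u + g l ∈ CS H m := by
  set I := univ.filter (fun l : Fin k => (u + g l).Prime)
  have hI : I.Nonempty := card_pos.1 (by omega)
  have h1 := I.max'_mem hI
  refine ⟨I.max' hI, u, _, hH _, rfl, (mem_filter.1 h1).2, ?_⟩
  have h2 : m ≤ (I.erase (I.max' hI)).card := by rw [card_erase_of_mem h1]; omega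
  refine h2.trans (card_le_card_of_injOn g (fun l hl => ?_) hg.injective.injOn)
  have h3 := mem_erase.1 (mem_coe.1 hl)
  exact mem_coe.2 (mem_filter.2 ⟨hH l, hg (lt_of_le_of_ne (I.le_max' l h3.2) h3.1),
    (mem_filter.1 h3.2).2⟩)

end TupP

open TupP Classical in
theorem tup (m W : ℕ) (hW : 0 < W) : ∃ k : ℕ, ∀ H : Finset ℕ, k ≤ H.card →
    (∀ p : ℕ, p.Prime → ∃ t : ℕ, ∀ h ∈ H, ¬ p ∣ t + h) → ∃ j : ℕ, ∀ B : ℕ, ∃ N0 : ℕ, ∀ N : ℕ,
    N0 ≤ N → ∀ a : ℤ, IsCoprime a W → ∀ x r : ℕ, N / LL N ^ B ≤ r → r ≤ x → x ≤ 8 * N →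
      r / LL N ^ j ≤ ((Ico x (x + r)).filter (fun t : ℕ => t ∈ CS H m ∧ (W : ℤ) ∣ t - a)).card := by
  obtain ⟨k, K, hk, h⟩ := MW.mayN m
  refine ⟨W * k, fun H hH hA => ?_⟩
  obtain ⟨ρ, -, hρ⟩ := exists_le_card_fiber_of_mul_le_card_of_maps_to (s := H) (t := range W)
    (f := fun h => h % W) (n := k) (fun h _ => mem_range.2 (Nat.mod_lt _ hW))
    ⟨0, mem_range.2 hW⟩ (by rwa [card_range])
  obtain ⟨H', hH', hk'⟩ := exists_subset_card_eq hρ
  obtain ⟨g, hg, hgH⟩ : ∃ g : Fin k → ℕ, StrictMono g ∧ ∀ l, g l ∈ H ∧ g l % W = ρ :=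
    ⟨H'.orderEmbOfFin hk', (H'.orderEmbOfFin hk').strictMono,
      fun l => mem_filter.1 (hH' (H'.orderEmbOfFin_mem hk' l))⟩
  have one : ∀ c : ℕ, (c + ρ).Coprime W → ∃ j : ℕ, ∀ B : ℕ, ∃ N0 : ℕ, ∀ N : ℕ, N0 ≤ N →
      ∀ x r : ℕ, N / LL N ^ B ≤ r → r ≤ x → x ≤ 8 * N →
      r / LL N ^ j ≤ ((Ico x (x + r)).filter (fun t : ℕ => t ∈ CS H m ∧
        (W : ℤ) ∣ t - (c + ρ))).card := by
    intro c hc
    obtain ⟨Δ, n0, hΔ, hN⟩ := Norm.exists_Nrm _ _ K (fun _ => hW)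
      (adm hc (fun l => (hgH l).2) fun p hp => (hA p hp).imp fun t ht l => ht _ (hgH l).1)
      (fun l l' e => hg.injective (by simpa using e))
    obtain ⟨j, h⟩ := h _ _ _ hN
    refine ⟨j + 1, fun B => ?_⟩
    obtain ⟨N0, h⟩ := h (B + 1)
    obtain ⟨M, hM⟩ : ∃ M, M = W * Δ := ⟨_, rfl⟩
    have hM0 : 0 < M := hM ▸ Nat.mul_pos hW hΔ
    obtain ⟨N1, hN1⟩ := params (ε := 1) one_pos (B + 1) (4 * M)
    refine ⟨N0 + N1, fun N hN' x r h1 h2 h3 => ?_⟩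
    obtain ⟨l, hl1, hl2, hl3, hl4⟩ := hN1 N (by omega)
    have hL := one_le_LL N
    set L := LL N
    have hl4' : l ≤ l ^ 4 := Nat.le_self_pow (by norm_num) _
    have a1 : L ^ (B + 1) ≤ N := by
      rw [Real.rpow_one] at hl4
      exact hl3.trans ((pow_le_pow_right₀ one_le_two (by omega)).trans hl4)
    have a2 : 4 * (M : ℝ) ≤ L := le_trans (by exact_mod_cast hl1) hl2
    have a3 : L ≤ r := le_trans (by rw [le_div_iff₀ (by positivity), ← pow_succ']; exact a1) h1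
    have hM' : (0 : ℝ) < M := by exact_mod_cast hM0
    have a4 : 4 ≤ r / M := (Nat.le_div_iff_mul_le hM0).2 (by exact_mod_cast a2.trans a3)
    have a5 : r / L ≤ (r / M - 1 : ℕ) := by
      have b1 : (r : ℝ) < M * (r / M + 1 : ℕ) := by exact_mod_cast Nat.lt_mul_div_succ r hM0
      have b2 : ((r / M + 1 : ℕ) : ℝ) ≤ 4 * (r / M - 1 : ℕ) := by
        exact_mod_cast (by omega : r / M + 1 ≤ 4 * (r / M - 1))
      rw [div_le_iff₀ (by positivity)]
      calc (r : ℝ) ≤ M * (4 * (r / M - 1 : ℕ)) := b1.le.trans (by gcongr)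
        _ = (r / M - 1 : ℕ) * (4 * M) := by ring
        _ ≤ _ := by gcongr
    have a6 : N / L ^ (B + 1) ≤ (r / M - 1 : ℕ) := by
      refine le_trans ?_ a5
      rw [pow_succ, ← div_div]; gcongr
    have a7 : r / M ≤ x / M := Nat.div_le_div_right h2
    have a8 := Nat.div_le_self x M
    have a9 := h N (by omega) (x / M + 1) (r / M - 1) a6
      (a6.trans (by exact_mod_cast (by omega : r / M - 1 ≤ x / M + 1))) (by omega)
    refine le_trans (by rw [pow_succ', ← div_div]; gcongr) (a9.trans (Nat.cast_le.2 ?_))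
    refine card_le_card_of_surjOn (fun t => t / M) fun n hn => ?_
    obtain ⟨b1, b2⟩ := mem_filter.1 (mem_coe.1 hn)
    simp only [← add_assoc, ← hM] at b2
    obtain ⟨i, c1⟩ := top hg (fun l => (hgH l).1) b2
    have c3 : W * n0 + c + g i < M := by
      have := hN.lt i
      simp only [← hM] at this; omega
    rw [mem_Ico] at b1
    have c4 : M * (x / M + 1) ≤ M * n := Nat.mul_le_mul_left _ b1.1
    have c5 : M * (n + 1) ≤ M * (x / M + r / M) := Nat.mul_le_mul_left _ (by omega)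
    have c6 := Nat.lt_mul_div_succ x hM0
    have c7 := Nat.mul_div_le x M
    have c8 := Nat.mul_div_le r M
    rw [mul_add, mul_add] at c5
    refine ⟨_, mem_coe.2 (mem_filter.2 ⟨mem_Ico.2 ⟨by omega, by omega⟩, c1, ?_⟩), ?_⟩
    · refine ⟨Δ * n + n0 + (g i / W : ℕ), ?_⟩
      have e : (g i : ℤ) = ρ + W * (g i / W : ℕ) := by
        exact_mod_cast ((hgH i).2 ▸ Nat.mod_add_div (g i) W).symm
      rw [hM]; push_cast at e ⊢; linear_combination e
    · show (M * n + W * n0 + c + g i) / M = n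
      rw [add_assoc, add_assoc, Nat.mul_add_div hM0, Nat.div_eq_of_lt (by omega), add_zero]
  choose! j hj using one
  choose! N0 hj using hj
  refine ⟨(range W).sup j, fun B => ⟨(range W).sup (N0 · B), fun N hN a ha x r h1 h2 h3 => ?_⟩⟩
  have hW' : (0 : ℤ) < W := by exact_mod_cast hW
  obtain ⟨c, hc⟩ := Int.eq_ofNat_of_zero_le (Int.emod_nonneg (a - ρ) hW'.ne')
  have hcW : c ∈ range W := mem_range.2 (by have := Int.emod_lt_of_pos (a - ρ) hW'; omega)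
  have e : a = c + ρ + W * ((a - ρ) / W) := by
    linear_combination hc - Int.emod_add_mul_ediv (a - ρ) W
  have hcop : (c + ρ).Coprime W := Nat.isCoprime_iff_coprime.1 (by
    rw [e] at ha; push_cast; exact ha.of_add_mul_left_left)
  have hL := one_le_LL N
  refine le_trans ?_ ((hj c hcop B N ((le_sup (f := (N0 · B)) hcW).trans hN) x r h1 h2 h3).trans
    (Nat.cast_le.2 (card_le_card fun t ht => ?_)))
  · gcongr; exact le_sup hcW
  · rw [mem_filter] at ht ⊢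
    refine ⟨ht.1, ht.2.1, ?_⟩
    rw [e, ← sub_sub]
    exact dvd_sub ht.2.2 (dvd_mul_right _ _)

theorem tuple_of (hT : S_Transfer) (m : ℕ) : ∃ k : ℕ, ∀ H : Finset ℕ, k ≤ H.card →
    (∀ p : ℕ, p.Prime → ∃ t : ℕ, ∀ h ∈ H, ¬ p ∣ t + h) → ∀ A : ℕ, ∃ C : ℝ, ∀ N : ℕ, 2 ≤ N →
    (({n : ℕ | n ≤ N ∧ Odd n ∧ ¬ RepS (CS H m) n}.ncard : ℕ) : ℝ) ≤ C * N / Real.log N ^ A := by
  obtain ⟨W, hW, hT⟩ := hT
  obtain ⟨k, hk⟩ := tup m W hW
  refine ⟨k, fun H h1 h2 A => all_of ?_⟩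
  obtain ⟨j, hM⟩ := hk H h1 h2
  obtain ⟨B, C, N0, hC, hT⟩ := hT j A
  obtain ⟨N1, hM⟩ := hM (B + 1)
  obtain ⟨N2, hr⟩ := exists_r B
  refine ⟨C, N0 + N1 + N2, hC, fun N hN E hE => ?_⟩
  obtain ⟨r, h1, h2⟩ := hr N (by omega)
  exact hT N (by omega) r (CS H m) h1 h2 (fun t ⟨_, _, _, _, ht, _⟩ => ht)
    (fun a ha x h3 h4 => hM N (by omega) a ha.of_mul_left_left x r h1 h3 h4) E hE

end Pool.Agent.P.MP_0ad054_nt.Clu
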